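import Mathlib
import Pool.Agent.Lib.MP_fe8e9b_al_W.Defs
import Pool.Agent.Lib.MP_fe8e9b_al_W.Lay

/-!
# MP_fe8e9b_al, wreath products over sets of large degree: definitions

The text of the proof is in the docstrings of the modules of this folder.
-/

set_option autoImplicit false

open scoped BigOperators

namespace Pool.Agent.MPfe8e9bV

open Pool.Agent.MPfe8e9b Pool.Agent.MPfe8e9bA Pool.Agent.MPfe8e9bW

/-- The mean over a finite set. -/
noncomputable def mn {T : Type} [Fintype T] (f : T → ℝ) : ℝ :=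
  ((Fintype.card T : ℝ))⁻¹ * ∑ t, f t

theorem mn_nonneg {T : Type} [Fintype T] {f : T → ℝ} (h : ∀ t, 0 ≤ f t) : 0 ≤ mn f :=
  mul_nonneg (inv_nonneg.2 (Nat.cast_nonneg _)) (Finset.sum_nonneg fun t _ => h t)

theorem mn_mono {T : Type} [Fintype T] {f g : T → ℝ} (h : ∀ t, f t ≤ g t) : mn f ≤ mn g :=
  mul_le_mul_of_nonneg_left (Finset.sum_le_sum fun t _ => h t)
    (inv_nonneg.2 (Nat.cast_nonneg _))

theorem mn_add {T : Type} [Fintype T] (f g : T → ℝ) :
    mn (fun t => f t + g t) = mn f + mn g := by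
  simp only [mn, Finset.sum_add_distrib, mul_add]

theorem mn_sub {T : Type} [Fintype T] (f g : T → ℝ) :
    mn (fun t => f t - g t) = mn f - mn g := by
  simp only [mn, Finset.sum_sub_distrib, mul_sub]

theorem mn_mul_left {T : Type} [Fintype T] (a : ℝ) (f : T → ℝ) :
    mn (fun t => a * f t) = a * mn f := by
  simp only [mn, ← Finset.mul_sum]
  ring

theorem mn_mul_right {T : Type} [Fintype T] (a : ℝ) (f : T → ℝ) :
    mn (fun t => f t * a) = mn f * a := by
  simp only [mn, ← Finset.sum_mul]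
  ring

theorem mn_const {T : Type} [Fintype T] [Nonempty T] (a : ℝ) : mn (fun _ : T => a) = a := by
  have h : (Fintype.card T : ℝ) ≠ 0 := by exact_mod_cast Fintype.card_ne_zero
  rw [mn, Finset.sum_const, Finset.card_univ, nsmul_eq_mul, ← mul_assoc, inv_mul_cancel₀ h,
    one_mul]

theorem mn_le {T : Type} [Fintype T] [Nonempty T] {f : T → ℝ} {a : ℝ} (h : ∀ t, f t ≤ a) :
    mn f ≤ a := (mn_mono h).trans (mn_const a).le

theorem le_mn {T : Type} [Fintype T] [Nonempty T] {f : T → ℝ} {a : ℝ} (h : ∀ t, a ≤ f t) :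
    a ≤ mn f := (mn_const a).symm.le.trans (mn_mono h)

theorem mn_equiv {T S : Type} [Fintype T] [Fintype S] (e : T ≃ S) (f : S → ℝ) :
    mn (fun t => f (e t)) = mn f := by
  rw [mn, mn, Fintype.card_congr e, e.sum_comp f]

theorem mn_comm {T S : Type} [Fintype T] [Fintype S] (f : T → S → ℝ) :
    mn (fun t => mn (fun s => f t s)) = mn (fun s => mn (fun t => f t s)) := by
  simp only [mn]
  rw [← Finset.mul_sum, ← Finset.mul_sum, Finset.sum_comm]
  ring

theorem mn_prod {T S : Type} [Fintype T] [Fintype S] (f : T × S → ℝ) :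
    mn f = mn (fun t => mn (fun s => f (t, s))) := by
  simp only [mn]
  rw [Fintype.card_prod, Fintype.sum_prod_type, ← Finset.mul_sum]
  push_cast
  rw [mul_inv]
  ring

theorem mn_sum {T K : Type} [Fintype T] (s : Finset K) (f : K → T → ℝ) :
    mn (fun t => ∑ k ∈ s, f k t) = ∑ k ∈ s, mn (f k) := by
  simp only [mn]
  rw [Finset.sum_comm, Finset.mul_sum]

/-- The mean over a transitive group of a function of the translates of a point. -/
theorem mn_tr {P X : Type} [Group P] [Fintype P] [Fintype X] (α : P →* Equiv.Perm X)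
    (htr : ∀ x y : X, ∃ p, α p x = y) (x : X) (f : X → ℝ) :
    mn (fun g : P => f ((α g)⁻¹ x)) = mn f := by
  classical
  have h1 : ∑ g : P, f ((α g)⁻¹ x) =
      ∑ y : X, ((Finset.univ.filter (fun g : P => (α g)⁻¹ x = y)).card : ℝ) * f y := by
    rw [← Finset.sum_fiberwise_of_maps_to (s := Finset.univ) (t := Finset.univ)
      (g := fun g : P => (α g)⁻¹ x) (fun _ _ => Finset.mem_univ _)]
    refine Finset.sum_congr rfl fun y _ => ?_
    rw [Finset.sum_congr rfl (g := fun _ => f y), Finset.sum_const, nsmul_eq_mul]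
    intro g hg
    rw [(Finset.mem_filter.1 hg).2]
  have hn : (Fintype.card X : ℝ) ≠ 0 := by
    have : Nonempty X := ⟨x⟩
    exact_mod_cast Fintype.card_ne_zero
  have hP : (Fintype.card P : ℝ) ≠ 0 := by exact_mod_cast Fintype.card_ne_zero
  have h2 : ∀ y : X, ((Finset.univ.filter (fun g : P => (α g)⁻¹ x = y)).card : ℝ) =
      (Fintype.card X : ℝ)⁻¹ * Fintype.card P := by
    intro y
    have h3 := lay_fib α htr x y
    have h4 : (Fintype.card X : ℝ) *
        ((Finset.univ.filter (fun g : P => (α g)⁻¹ x = y)).card : ℝ) = Fintype.card P := by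
      exact_mod_cast h3
    rw [← h4, inv_mul_cancel_left₀ hn]
  rw [mn, mn, h1, Finset.sum_congr rfl fun y _ => by rw [h2 y], ← Finset.mul_sum]
  field_simp

/-- Phase gap of a list: in every unitary representation, for all scalars `z j` of absolute value
one, a vector with average zero is moved away from `z j • v` by the elements of the list. -/
def PG {G : Type} [Group G] [Fintype G] {J : Type} [Fintype J] (y : J → G) (κ : ℝ) : Prop :=
  ∀ (V : Type) [NormedAddCommGroup V] [InnerProductSpace ℂ V] [FiniteDimensional ℂ V]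
    (ρ : G →* (V ≃ₗᵢ[ℂ] V)) (z : J → ℂ), (∀ j, ‖z j‖ = 1) → ∀ v : V, av ρ v = 0 →
    κ * ‖v‖ ^ 2 ≤ mn (fun j => ‖ρ (y j) v - z j • v‖ ^ 2)

/-- The commutator. -/
def cm {G : Type} [Group G] (a b : G) : G := a * b * a⁻¹ * b⁻¹

theorem cm_one_left {G : Type} [Group G] (b : G) : cm 1 b = 1 := by simp [cm]

theorem cm_one_right {G : Type} [Group G] (a : G) : cm a 1 = 1 := by simp [cm]

/-- The mean over the commutators with the elements of a list. -/
noncomputable def cav {G : Type} [Group G] {L : Type} [Fintype L] (c : L → G) (F : G → ℝ) :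
    G → ℝ := fun u => mn (fun l => F (cm (c l) u))

/-- The constant of the tracial lemma. -/
noncomputable def mu (κ : ℝ) : ℝ := (κ / 2) ^ 5 / 2048

open Classical in
/-- The indicator of a proposition. -/
noncomputable def ind (p : Prop) : ℝ := if p then 1 else 0

theorem ind_true {p : Prop} (h : p) : ind p = 1 := by simp [ind, h]

theorem ind_false {p : Prop} (h : ¬ p) : ind p = 0 := by simp [ind, h]

theorem ind_nonneg (p : Prop) : 0 ≤ ind p := by
  unfold ind
  split_ifs <;> norm_num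

theorem ind_le_one (p : Prop) : ind p ≤ 1 := by
  unfold ind
  split_ifs <;> norm_num

theorem ind_and (p q : Prop) : ind (p ∧ q) = ind p * ind q := by
  by_cases hp : p <;> by_cases hq : q <;> simp [ind, hp, hq]

theorem ind_mono {p q : Prop} (h : p → q) : ind p ≤ ind q := by
  by_cases hp : p
  · rw [ind_true hp, ind_true (h hp)]
  · rw [ind_false hp]
    exact ind_nonneg q

/-- The subgroup of the elements which act trivially on all `X j`, `j ≠ i`. -/
def Ki {P I : Type} [Group P] {X : I → Type} (α : ∀ i, P →* Equiv.Perm (X i)) (i : I) :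
    Subgroup P where
  carrier := {p | ∀ j, j ≠ i → α j p = 1}
  mul_mem' := fun {a b} ha hb j hj => by rw [map_mul, ha j hj, hb j hj, one_mul]
  one_mem' := fun j _ => map_one _
  inv_mem' := fun {a} ha j hj => by rw [map_inv, ha j hj, inv_one]

/-- Independent transitive actions: for every `i` the elements which act trivially on all `X j`,
`j ≠ i`, are transitive on `X i`. -/
def Ind {P I : Type} [Group P] {X : I → Type} (α : ∀ i, P →* Equiv.Perm (X i)) : Prop :=
  ∀ i, ∀ x y : X i, ∃ p : P, (∀ j, j ≠ i → α j p = 1) ∧ α i p x = y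

/-- A vector whose letters are `y 0, …, y (q - 1)` (every one at many points) and `1` (at many
points). -/
def Frq {X : Type} [Fintype X] {G : Type} [Group G] {q : ℕ} (y : Fin q → G) (Y : X → G) : Prop :=
  ∃ lam : X → Option (Fin q), (∀ x, Y x = (lam x).elim 1 y) ∧
    (∀ j, 1 / (4 * (q : ℝ)) ≤ mn (fun x => ind (lam x = some j))) ∧
    1 / 4 ≤ mn (fun x => ind (lam x = none))

/-- A dense vector: the patterns on sets with at most `w` points are almost independent. -/
def Dns {K X : Type} [Group K] [Fintype K] [Fintype X] (α : K →* Equiv.Perm X) {G : Type}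
    [Group G] {q : ℕ} (y : Fin q → G) (w : ℕ) (Y : X → G) : Prop :=
  ∃ ω : X → Bool × Fin q, (∀ x, Y x = if (ω x).1 = true then y (ω x).2 else 1) ∧
    ∀ B : Finset X, B.card ≤ w → ∀ π : X → Bool × Fin q,
      |mn (fun σ : K => ind (∀ x ∈ B, ω ((α σ)⁻¹ x) = π x)) - ((2 * (q : ℝ)) ^ B.card)⁻¹| ≤
        1 / 4 * ((2 * (q : ℝ)) ^ B.card)⁻¹

/-- A pair of vectors which encodes a sparse vector of density `θ`. -/
def Lvl {K X : Type} [Group K] [Fintype K] [Fintype X] (α : K →* Equiv.Perm X) {G : Type}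
    [Group G] {r : ℕ} (c : Fin r → G) (θ : ℝ) (z z' : X → G) : Prop :=
  ∃ (h : K) (U : Finset X) (l : X → Fin r),
    (∀ x, x ∈ U → cm (z x) (z' ((α h)⁻¹ x)) = c (l x)) ∧
    (∀ x, x ∉ U → cm (z x) (z' ((α h)⁻¹ x)) = 1) ∧
    (∀ m : Fin r, θ / (2 * r) ≤ mn (fun x => ind (x ∈ U ∧ l x = m))) ∧
    ∀ x x' : X, x ≠ x' →
      mn (fun σ : K => ind ((α σ)⁻¹ x ∈ U ∧ (α σ)⁻¹ x' ∈ U)) ≤ 2 * θ ^ 2

/-- A family of elements of `∀ i, X i → G i`, trivial outside `X i`, indexed by a finite set, with
small mean displacement `B` of the vector `v`; the elements are trivial outside of random subsets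
`H t` of `X i`, with weight `w` for the letters at the points of `A` and with pair probability at
most `p`. -/
def Fam {I : Type} {X : I → Type} (G : I → Type) [∀ i, Group (G i)] {V : Type}
    [NormedAddCommGroup V] [InnerProductSpace ℂ V] (ρ : (∀ i, X i → G i) →* (V ≃ₗᵢ[ℂ] V)) (v : V)
    (i : I) (A : Finset (X i)) (Ψ : (G i → ℝ) → ℝ) (B w p : ℝ) : Prop :=
  ∃ (T : Type) (_ : Fintype T) (_ : Nonempty T) (W : T → ∀ i, X i → G i)
    (H : T → Finset (X i)),
    (∀ t j, j ≠ i → W t j = 1) ∧ (∀ t x, x ∉ H t → W t i x = 1) ∧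
    mn (fun t => ‖ρ (W t) v - v‖ ^ 2) ≤ B ∧
    (∀ x ∈ A, ∀ F : G i → ℝ, (∀ u, 0 ≤ F u) →
      w * Ψ F ≤ mn (fun t => ind (x ∈ H t) * F (W t i x))) ∧
    ∀ x ∈ A, ∀ x' ∈ A, x ≠ x' → mn (fun t => ind (x ∈ H t ∧ x' ∈ H t)) ≤ p

end Pool.Agent.MPfe8e9bV
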