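import Mathlib
import Pool.Agent.Lib.MP_fe8e9b_al_V.Defs

/-!
# MP_fe8e9b_al, wreath products over sets of large degree: ordered words
-/

set_option autoImplicit false

open scoped BigOperators

namespace Pool.Agent.MPfe8e9bV

open Pool.Agent.MPfe8e9b Pool.Agent.MPfe8e9bA Pool.Agent.MPfe8e9bW

/-- The ordered product `y 0 ^ e 0 * y 1 ^ e 1 * …`. -/
def wrd {G : Type} [Group G] {q : ℕ} (y : Fin q → G) (e : Fin q → ℕ) : G :=
  (List.ofFn fun j => y j ^ e j).prod

theorem wrd_cons {G : Type} [Group G] {q : ℕ} (y : Fin (q + 1) → G) (e : Fin (q + 1) → ℕ) :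
    wrd y e = y 0 ^ e 0 * wrd (fun j => y j.succ) (fun j => e j.succ) := by
  simp [wrd, List.ofFn_succ]

/-- A letter times an ordered word is a commutator times an ordered word.

Proof. Induction on `q` (`List.ofFn_succ`). For `j = 0` take `p = 1`. For `j = j'.succ` let
`a = y 0 ^ e 0`, `w'` the word of the other letters, `y j * w' = cm (y j) p' * w''` by induction;
`y j * (a * w') = cm (y j) a * a * (y j * w') = cm (y j) a * a * cm (y j) p' * w''` and
`cm (y j) a * a * cm (y j) p' * a⁻¹ = cm (y j) (a * p')`, so `p = a * p'` works. -/
theorem wrd_step {G : Type} [Group G] {q : ℕ} (y : Fin q → G) (e : Fin q → ℕ) (j : Fin q) :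
    ∃ p : G, y j * wrd y e = cm (y j) p * wrd y (Function.update e j (e j + 1)) := by
  induction q with
  | zero => exact j.elim0
  | succ q ih =>
    induction j using Fin.cases with
    | zero =>
      refine ⟨1, ?_⟩
      rw [wrd_cons, wrd_cons, cm_one_right, one_mul]
      have h : (fun j : Fin q => Function.update e 0 (e 0 + 1) j.succ) = fun j => e j.succ := by
        funext j
        rw [Function.update_of_ne (Fin.succ_ne_zero j)]
      rw [h, Function.update_self, ← mul_assoc, ← pow_succ']
    | succ j =>
      obtain ⟨p, hp⟩ := ih (fun j => y j.succ) (fun j => e j.succ) j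
      refine ⟨y 0 ^ e 0 * p, ?_⟩
      rw [wrd_cons, wrd_cons]
      have h : (fun i : Fin q => Function.update e j.succ (e j.succ + 1) i.succ) =
          Function.update (fun j => e j.succ) j (e j.succ + 1) := by
        funext i
        by_cases hi : i = j
        · subst hi
          simp
        · rw [Function.update_of_ne hi, Function.update_of_ne (fun h => hi (Fin.succ_inj.1 h))]
      rw [h, Function.update_of_ne (Fin.succ_ne_zero j).symm]
      generalize wrd (fun j => y j.succ) (fun j => e j.succ) = w at hp ⊢
      generalize wrd (fun j => y j.succ) (Function.update (fun j => e j.succ) j (e j.succ + 1)) = w'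
        at hp ⊢
      have h2 : w = (y j.succ)⁻¹ * (cm (y j.succ) p * w') := by
        rw [← hp]
        group
      rw [h2]
      simp only [cm]
      group

end Pool.Agent.MPfe8e9bV
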