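import Mathlib
import Pool.Agent.Lib.MP_fe8e9b_al_V.Defs
import Pool.Agent.Lib.MP_fe8e9b_al_V.Wrd
import Pool.Agent.Lib.MP_fe8e9b_al_W.DM

/-!
# MP_fe8e9b_al, wreath products over sets of large degree: commutators with a mean displacement
-/

set_option autoImplicit false

open scoped BigOperators

namespace Pool.Agent.MPfe8e9bV

open Pool.Agent.MPfe8e9b Pool.Agent.MPfe8e9bA Pool.Agent.MPfe8e9bW

theorem cmla_val {N : ℕ} {q : ℕ} (e : Fin q → ZMod N) (j : Fin q)
    (h : (e j).val + 1 < N) :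
    (fun i => ((e + Pi.single j 1 : Fin q → ZMod N) i).val) =
      Function.update (fun i => (e i).val) j ((e j).val + 1) := by
  funext i
  have : Fact (1 < N) := ⟨by omega⟩
  by_cases hij : i = j
  · subst hij
    rw [Function.update_self, Pi.add_apply, Pi.single_eq_same, ZMod.val_add_of_lt, ZMod.val_one]
    rw [ZMod.val_one]
    exact h
  · rw [Function.update_of_ne hij, Pi.add_apply, Pi.single_eq_of_ne hij, add_zero]

theorem cmla_fib {N : ℕ} [NeZero N] {q : ℕ} (j : Fin q) (c c' : ZMod N) :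
    (Finset.univ.filter (fun e : Fin q → ZMod N => e j = c)).card =
      (Finset.univ.filter (fun e : Fin q → ZMod N => e j = c')).card := by
  refine Finset.card_bij (fun e _ => e + Pi.single j (c' - c)) ?_ ?_ ?_
  · intro e he
    rw [Finset.mem_filter] at he ⊢
    refine ⟨Finset.mem_univ _, ?_⟩
    rw [Pi.add_apply, Pi.single_eq_same, he.2]
    ring
  · intro a _ b _ h
    exact add_right_cancel h
  · intro b hb
    rw [Finset.mem_filter] at hb
    refine ⟨b - Pi.single j (c' - c), ?_, sub_add_cancel _ _⟩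
    rw [Finset.mem_filter]
    refine ⟨Finset.mem_univ _, ?_⟩
    rw [Pi.sub_apply, Pi.single_eq_same, hb.2]
    ring

theorem cmla_card {N : ℕ} [NeZero N] {q : ℕ} (j : Fin q) (c : ZMod N) :
    N * (Finset.univ.filter (fun e : Fin q → ZMod N => e j = c)).card =
      Fintype.card (Fin q → ZMod N) := by
  have h1 : (Finset.univ : Finset (Fin q → ZMod N)).card =
      ∑ d : ZMod N, (Finset.univ.filter (fun e : Fin q → ZMod N => e j = d)).card :=
    Finset.card_eq_sum_card_fiberwise (f := fun e : Fin q → ZMod N => e j)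
      (s := Finset.univ) (t := Finset.univ) (fun _ _ => Finset.mem_univ _)
  rw [Finset.card_univ] at h1
  rw [h1, Finset.sum_congr rfl fun d _ => cmla_fib j d c, Finset.sum_const, Finset.card_univ,
    ZMod.card, smul_eq_mul]

theorem cmla_count {N : ℕ} [NeZero N] {q : ℕ} (j : Fin q) :
    N * (Finset.univ.filter (fun e : Fin q → ZMod N => ¬ (e j).val + 1 < N)).card ≤
      Fintype.card (Fin q → ZMod N) := by
  rw [← cmla_card j ((N - 1 : ℕ) : ZMod N)]
  refine Nat.mul_le_mul le_rfl (Finset.card_le_card fun e he => ?_)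
  rw [Finset.mem_filter] at he ⊢
  refine ⟨Finset.mem_univ _, ?_⟩
  have h1 : (e j).val = N - 1 := by
    have := ZMod.val_lt (e j)
    have := he.2
    omega
  rw [← h1, ZMod.natCast_zmod_val]

/-- The translation of the blocks. -/
noncomputable def cmla_R (V : Type) [NormedAddCommGroup V] [InnerProductSpace ℂ V] (N q : ℕ)
    [NeZero N] (j : Fin q) :
    PiLp 2 (fun _ : Fin q → ZMod N => V) ≃ₗᵢ[ℂ] PiLp 2 (fun _ : Fin q → ZMod N => V) :=
  LinearIsometryEquiv.piLpCongrLeft 2 ℂ V (Equiv.addRight (Pi.single j (1 : ZMod N))).symm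

theorem cmla_R_apply {V : Type} [NormedAddCommGroup V] [InnerProductSpace ℂ V] {N q : ℕ}
    [NeZero N] (j : Fin q) (f : PiLp 2 (fun _ : Fin q → ZMod N => V)) (e : Fin q → ZMod N) :
    cmla_R V N q j f e = f (e + Pi.single j 1) := by
  simp [cmla_R, LinearIsometryEquiv.piLpCongrLeft_apply, Equiv.piCongrLeft']

/-- The action on every block. -/
noncomputable def cmla_rho {G : Type} [Group G] {V : Type} [NormedAddCommGroup V]
    [InnerProductSpace ℂ V] (ρ : G →* (V ≃ₗᵢ[ℂ] V)) (E : Type) [Fintype E] :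
    G →* (PiLp 2 (fun _ : E => V) ≃ₗᵢ[ℂ] PiLp 2 (fun _ : E => V)) where
  toFun g := LinearIsometryEquiv.piLpCongrRight 2 fun _ => ρ g
  map_one' := by
    ext f e
    rw [LinearIsometryEquiv.piLpCongrRight_apply, map_one]
    rfl
  map_mul' a b := by
    ext f e
    rw [LinearIsometryEquiv.piLpCongrRight_apply, map_mul]
    rfl

theorem cmla_rho_apply {G : Type} [Group G] {V : Type} [NormedAddCommGroup V]
    [InnerProductSpace ℂ V] (ρ : G →* (V ≃ₗᵢ[ℂ] V)) {E : Type} [Fintype E] (g : G)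
    (f : PiLp 2 (fun _ : E => V)) (e : E) : cmla_rho ρ E g f e = ρ g (f e) := rfl

theorem cmla_av {G : Type} [Group G] [Fintype G] {V : Type} [NormedAddCommGroup V]
    [InnerProductSpace ℂ V] (ρ : G →* (V ≃ₗᵢ[ℂ] V)) (v : V) (g : G) :
    av ρ (ρ g v) = av ρ v := by
  rw [av_apply, av_apply]
  congr 1
  exact Fintype.sum_equiv (Equiv.mulRight g) _ _ fun h => by
    rw [Equiv.coe_mulRight, map_mul]
    rfl

theorem cmla_core {G : Type} [Group G] [Fintype G] (hG : commutator G = ⊤) {q : ℕ} (hq : 0 < q)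
    (y : Fin q → G) (hy : Mix y (1 / 100)) {N : ℕ} [NeZero N] (hN : 8192 ≤ N)
    (W : (Fin q → ZMod N) → G) (u w : (Fin q → ZMod N) × Fin q → G)
    (huw : ∀ (e : Fin q → ZMod N) (j : Fin q), (e j).val + 1 < N →
      (W (e + Pi.single j 1))⁻¹ * (y j * W e) = cm (u (e, j)) (w (e, j)))
    {V : Type} [NormedAddCommGroup V] [InnerProductSpace ℂ V] [FiniteDimensional ℂ V]
    (ρ : G →* (V ≃ₗᵢ[ℂ] V)) (v : V) (hv : av ρ v = 0) :
    1 / 2048 * ‖v‖ ^ 2 ≤
      mn (fun p : (Fin q → ZMod N) × Fin q => ‖ρ (cm (u p) (w p)) v - v‖ ^ 2) := by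
  classical
  have : Nonempty (Fin q) := ⟨⟨0, hq⟩⟩
  by_contra hlt
  rw [not_le] at hlt
  set n : ℝ := (Fintype.card (Fin q → ZMod N) : ℝ) with hn
  have hnp : 0 < n := by
    rw [hn]
    exact_mod_cast Fintype.card_pos
  have hqp : (0 : ℝ) < q := by exact_mod_cast hq
  have hvp : 0 < ‖v‖ := by
    rcases (norm_nonneg v).eq_or_lt with h0 | h0
    · rw [← h0] at hlt
      have : (0 : ℝ) ≤ mn (fun p : (Fin q → ZMod N) × Fin q =>
          ‖ρ (cm (u p) (w p)) v - v‖ ^ 2) := mn_nonneg fun p => by positivity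
      linarith
    · exact h0
  -- the big vector
  let V' := PiLp 2 (fun _ : Fin q → ZMod N => V)
  let v' : V' := WithLp.toLp 2 fun e => ρ (W e) v
  have hv'e : ∀ e, v' e = ρ (W e) v := fun e => rfl
  have hv' : ‖v'‖ ^ 2 = n * ‖v‖ ^ 2 := by
    rw [PiLp.norm_sq_eq_of_L2, Finset.sum_congr rfl fun e _ => by rw [hv'e, (ρ _).norm_map],
      Finset.sum_const, Finset.card_univ, nsmul_eq_mul]
  have hav : av (cmla_rho ρ (Fin q → ZMod N)) v' = 0 := by
    ext e
    have h1 : (av (cmla_rho ρ (Fin q → ZMod N)) v') e = av ρ (ρ (W e) v) := by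
      rw [av_apply, av_apply, PiLp.smul_apply]
      congr 1
      rw [show (∑ h, (cmla_rho ρ (Fin q → ZMod N)) h v') e =
        ∑ h, ((cmla_rho ρ (Fin q → ZMod N)) h v') e from by simp]
      rfl
    rw [h1, cmla_av, hv]
    rfl
  -- the terms
  have hterm : ∀ (j : Fin q) (e : Fin q → ZMod N),
      ‖(cmla_rho ρ (Fin q → ZMod N) (y j) v' - cmla_R V N q j v') e‖ ^ 2 ≤
        ‖ρ (cm (u (e, j)) (w (e, j))) v - v‖ ^ 2 +
          (if (e j).val + 1 < N then 0 else 4 * ‖v‖ ^ 2) := by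
    intro j e
    rw [PiLp.sub_apply, cmla_rho_apply, cmla_R_apply, hv'e, hv'e]
    have h1 : ρ (y j) (ρ (W e) v) = ρ (y j * W e) v := by
      rw [map_mul]
      rfl
    rw [h1]
    split_ifs with h
    · have h2 : ρ (y j * W e) v =
          ρ (W (e + Pi.single j 1)) (ρ (cm (u (e, j)) (w (e, j))) v) := by
        rw [← huw e j h]
        have h3 : ∀ a b : G, ρ a (ρ b v) = ρ (a * b) v := fun a b => by
          rw [map_mul]
          rfl
        rw [h3, mul_inv_cancel_left]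
      rw [h2, ← map_sub, (ρ _).norm_map, add_zero]
    · have h2 : ‖ρ (y j * W e) v - ρ (W (e + Pi.single j 1)) v‖ ≤ 2 * ‖v‖ := by
        calc ‖ρ (y j * W e) v - ρ (W (e + Pi.single j 1)) v‖
            ≤ ‖ρ (y j * W e) v‖ + ‖ρ (W (e + Pi.single j 1)) v‖ := norm_sub_le _ _
          _ = 2 * ‖v‖ := by
            rw [(ρ _).norm_map, (ρ _).norm_map]
            ring
      have h3 : (0 : ℝ) ≤ ‖ρ (cm (u (e, j)) (w (e, j))) v - v‖ ^ 2 := by positivity
      nlinarith [norm_nonneg (ρ (y j * W e) v - ρ (W (e + Pi.single j 1)) v)]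
  have hbad : ∀ j : Fin q, ∑ e : Fin q → ZMod N,
      (if (e j).val + 1 < N then (0 : ℝ) else 4 * ‖v‖ ^ 2) ≤ n * ‖v‖ ^ 2 / 2048 := by
    intro j
    have h1 : ∑ e : Fin q → ZMod N, (if (e j).val + 1 < N then (0 : ℝ) else 4 * ‖v‖ ^ 2) =
        ((Finset.univ.filter (fun e : Fin q → ZMod N => ¬ (e j).val + 1 < N)).card : ℝ) *
          (4 * ‖v‖ ^ 2) := by
      rw [Finset.sum_ite, Finset.sum_const_zero, zero_add, Finset.sum_const, nsmul_eq_mul]
    rw [h1]
    have h2 : (N : ℝ) *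
        ((Finset.univ.filter (fun e : Fin q → ZMod N => ¬ (e j).val + 1 < N)).card : ℝ) ≤ n := by
      rw [hn]
      exact_mod_cast cmla_count (N := N) j
    have h3 : (8192 : ℝ) ≤ N := by exact_mod_cast hN
    have h4 : (8192 : ℝ) *
        ((Finset.univ.filter (fun e : Fin q → ZMod N => ¬ (e j).val + 1 < N)).card : ℝ) ≤ n :=
      (mul_le_mul_of_nonneg_right h3 (Nat.cast_nonneg _)).trans h2
    have h5 : (0 : ℝ) ≤ ‖v‖ ^ 2 := by positivity
    nlinarith
  have hsum : ∑ j, ‖cmla_rho ρ (Fin q → ZMod N) (y j) v' - cmla_R V N q j v'‖ ^ 2 ≤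
      (Fintype.card (Fin q) : ℝ) * ‖v'‖ ^ 2 / 1024 := by
    have h1 : ∀ j, ‖cmla_rho ρ (Fin q → ZMod N) (y j) v' - cmla_R V N q j v'‖ ^ 2 ≤
        (∑ e : Fin q → ZMod N, ‖ρ (cm (u (e, j)) (w (e, j))) v - v‖ ^ 2) +
          n * ‖v‖ ^ 2 / 2048 := by
      intro j
      rw [PiLp.norm_sq_eq_of_L2]
      refine (Finset.sum_le_sum fun e _ => hterm j e).trans ?_
      rw [Finset.sum_add_distrib]
      exact add_le_add le_rfl (hbad j)
    refine (Finset.sum_le_sum fun j _ => h1 j).trans ?_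
    rw [Finset.sum_add_distrib, Finset.sum_const, Finset.card_univ, nsmul_eq_mul, hv',
      Fintype.card_fin]
    have h2 : ∑ j : Fin q, ∑ e : Fin q → ZMod N, ‖ρ (cm (u (e, j)) (w (e, j))) v - v‖ ^ 2 =
        (n * q) * mn (fun p : (Fin q → ZMod N) × Fin q =>
          ‖ρ (cm (u p) (w p)) v - v‖ ^ 2) := by
      rw [mn, Fintype.card_prod, Fintype.card_fin, Finset.sum_comm, Fintype.sum_prod_type]
      push_cast
      rw [← hn, mul_inv_cancel_left₀ (by positivity)]
    rw [h2]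
    have h3 : (n * q) * mn (fun p : (Fin q → ZMod N) × Fin q =>
          ‖ρ (cm (u p) (w p)) v - v‖ ^ 2) ≤ (n * q) * (1 / 2048 * ‖v‖ ^ 2) :=
      mul_le_mul_of_nonneg_left hlt.le (by positivity)
    nlinarith
  have hzero := dm hG hy (cmla_rho ρ (Fin q → ZMod N)) (cmla_R V N q) (cmla_R V N q)
    (fun j g f => by
      ext e
      rw [cmla_R_apply, cmla_rho_apply, cmla_rho_apply, cmla_R_apply])
    (fun j g f => by
      ext e
      rw [cmla_R_apply, cmla_rho_apply, cmla_rho_apply, cmla_R_apply])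
    (fun i j f => by
      ext e
      rw [cmla_R_apply, cmla_R_apply, cmla_R_apply, cmla_R_apply, add_right_comm]) v' hav hsum hsum
  rw [hzero, norm_zero] at hv'
  have : 0 < n * ‖v‖ ^ 2 := by positivity
  norm_num at hv'
  rcases hv' with h | h
  · linarith
  · rw [h, norm_zero] at hvp
    exact lt_irrefl _ hvp

/-- Commutators with a mean displacement.

Proof. `E = Fin q → ZMod 8192`, `W e = wrd y (fun j => (e j).val)`, `sh j e = e + Pi.single j 1`
(a permutation of `E`; these permutations commute). If `(e j).val + 1 < 8192` then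
`(sh j e) j` has value `(e j).val + 1`, and by `wrd_step`
`(W (sh j e))⁻¹ * (y j * W e) = (W (sh j e))⁻¹ * cm (y j) p * W (sh j e) = cm u w` with `u`, `w`
the conjugates of `y j` and `p`. Otherwise take `u = w = 1`.
Let `av ρ v = 0`. On `PiLp 2 (fun _ : E => V)` let `ρ'` act on every block
(`LinearIsometryEquiv.piLpCongrRight`), `(R j f) e = f (sh j e)`
(`LinearIsometryEquiv.piLpCongrLeft`), `v' e = ρ (W e) v`; `‖v'‖ ^ 2 = card E * ‖v‖ ^ 2`, the
average of `v'` is zero. `dm` with `R = R'` (if `v ≠ 0`) gives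
`q * card E * ‖v‖ ^ 2 / 1024 < ∑ j, ‖ρ' (y j) v' - R j v'‖ ^ 2 =
∑ j, ∑ e, ‖ρ (y j * W e) v - ρ (W (sh j e)) v‖ ^ 2`. The terms with `(e j).val + 1 < 8192` are
`‖ρ (cm u w) v - v‖ ^ 2`; for every `j` there are `card E / 8192` other `e`, each with a term
`≤ 4 ‖v‖ ^ 2`. Hence the mean is at least `(1/1024 - 4/8192) ‖v‖ ^ 2 = ‖v‖ ^ 2 / 2048`. -/
theorem cml_avg {G : Type} [Group G] [Fintype G] (hG : commutator G = ⊤) {q : ℕ} (hq : 0 < q)
    (y : Fin q → G) (hy : Mix y (1 / 100)) :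
    ∃ u w : (Fin q → ZMod 8192) × Fin q → G,
      ∀ (V : Type) [NormedAddCommGroup V] [InnerProductSpace ℂ V] [FiniteDimensional ℂ V]
        (ρ : G →* (V ≃ₗᵢ[ℂ] V)) (v : V), av ρ v = 0 →
        1 / 2048 * ‖v‖ ^ 2 ≤ mn (fun p => ‖ρ (cm (u p) (w p)) v - v‖ ^ 2) := by
  have h : ∀ p : (Fin q → ZMod 8192) × Fin q, ∃ u w : G, (p.1 p.2).val + 1 < 8192 →
      (wrd y fun i => ((p.1 + Pi.single p.2 1 : Fin q → ZMod 8192) i).val)⁻¹ *
        (y p.2 * wrd y fun i => (p.1 i).val) = cm u w := by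
    rintro ⟨e, j⟩
    by_cases hp : (e j).val + 1 < 8192
    · obtain ⟨p, hp'⟩ := wrd_step y (fun i => (e i).val) j
      have h1 := cmla_val e j hp
      refine ⟨(wrd y fun i => ((e + Pi.single j 1 : Fin q → ZMod 8192) i).val)⁻¹ * y j *
        (wrd y fun i => ((e + Pi.single j 1 : Fin q → ZMod 8192) i).val),
        (wrd y fun i => ((e + Pi.single j 1 : Fin q → ZMod 8192) i).val)⁻¹ * p *
        (wrd y fun i => ((e + Pi.single j 1 : Fin q → ZMod 8192) i).val), fun _ => ?_⟩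
      show (wrd y fun i => ((e + Pi.single j 1 : Fin q → ZMod 8192) i).val)⁻¹ *
        (y j * wrd y fun i => (e i).val) = _
      rw [hp', ← h1]
      simp only [cm]
      group
    · exact ⟨1, 1, fun h => absurd h hp⟩
  choose u w huw using h
  refine ⟨u, w, fun V _ _ _ ρ v hv => ?_⟩
  exact cmla_core hG hq y hy le_rfl (fun e => wrd y fun i => (e i).val) u w
    (fun e j h => huw (e, j) h) ρ v hv

end Pool.Agent.MPfe8e9bV
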