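import Mathlib
import Pool.Agent.Lib.MP_fe8e9b_al_V.Defs
import Pool.Agent.Lib.MP_fe8e9b_al_W.DM
import Pool.Agent.Lib.MP_fe8e9b_al_W.MixOps

/-!
# MP_fe8e9b_al, wreath products over sets of large degree: phase gaps
-/

set_option autoImplicit false

open scoped BigOperators

namespace Pool.Agent.MPfe8e9bV

open Pool.Agent.MPfe8e9b Pool.Agent.MPfe8e9bA Pool.Agent.MPfe8e9bW

/-- Multiplication by a scalar of absolute value one. -/
noncomputable def cmlbMul {V : Type} [NormedAddCommGroup V] [InnerProductSpace ℂ V] (z : ℂ)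
    (hz : ‖z‖ = 1) : V ≃ₗᵢ[ℂ] V where
  toLinearEquiv := LinearEquiv.smulOfNeZero ℂ V z (by
    intro h
    rw [h, norm_zero] at hz
    exact zero_ne_one hz)
  norm_map' := fun v => by
    change ‖z • v‖ = ‖v‖
    rw [norm_smul, hz, one_mul]

theorem cmlbMul_apply {V : Type} [NormedAddCommGroup V] [InnerProductSpace ℂ V] (z : ℂ)
    (hz : ‖z‖ = 1) (v : V) : cmlbMul z hz v = z • v := rfl

theorem cmlb_sq {a b m : ℝ} (hm : 0 < m) :
    (a + b) ^ 2 ≤ (m + 1) * (a ^ 2 / m + b ^ 2) := by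
  have h1 : (m + 1) * (a ^ 2 / m + b ^ 2) - (a + b) ^ 2 = (a - m * b) ^ 2 / m := by
    field_simp
    ring
  have h2 : 0 ≤ (a - m * b) ^ 2 / m := by positivity
  linarith

/-- Products of `m` elements of the list. -/
theorem cmlb_pow {G : Type} [Group G] [Fintype G] {J : Type}
    [Fintype J] [Nonempty J] {y : J → G} {η : ℝ} (hη : 0 ≤ η) (hy : Mix y η) (m : ℕ) :
    ∃ (J' : Type) (_ : Fintype J') (_ : Nonempty J') (y' : J' → G), Mix y' (η ^ (m + 1)) ∧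
      ∀ z : J → ℂ, (∀ j, ‖z j‖ = 1) → ∃ z' : J' → ℂ, (∀ j, ‖z' j‖ = 1) ∧
        ∀ (V : Type) [NormedAddCommGroup V] [InnerProductSpace ℂ V] [FiniteDimensional ℂ V]
          (ρ : G →* (V ≃ₗᵢ[ℂ] V)) (v : V),
          mn (fun j => ‖ρ (y' j) v - z' j • v‖ ^ 2) ≤
            ((m : ℝ) + 1) ^ 2 * mn (fun j => ‖ρ (y j) v - z j • v‖ ^ 2) := by
  induction m with
  | zero =>
    refine ⟨J, inferInstance, inferInstance, y, by simpa using hy, fun z hz => ⟨z, hz, ?_⟩⟩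
    intro V _ _ _ ρ v
    simp
  | succ m ih =>
    obtain ⟨J', i1, i2, y', hy', hz'⟩ := ih
    refine ⟨J × J', inferInstance, inferInstance, fun p => y p.1 * y' p.2, ?_, ?_⟩
    · have h := Mix.mul hη hy hy'
      rwa [← pow_succ'] at h
    · intro z hz
      obtain ⟨z', hz1, hz2⟩ := hz' z hz
      refine ⟨fun p => z p.1 * z' p.2, fun p => by rw [norm_mul, hz, hz1, one_mul], ?_⟩
      intro V _ _ _ ρ v
      have hB := hz2 V ρ v
      set B : ℝ := mn (fun j => ‖ρ (y j) v - z j • v‖ ^ 2) with hBd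
      have hm : (0 : ℝ) < (m : ℝ) + 1 := by positivity
      have h1 : ∀ p : J × J', ‖ρ (y p.1 * y' p.2) v - (z p.1 * z' p.2) • v‖ ^ 2 ≤
          ((m : ℝ) + 1 + 1) * (‖ρ (y' p.2) v - z' p.2 • v‖ ^ 2 / ((m : ℝ) + 1) +
            ‖ρ (y p.1) v - z p.1 • v‖ ^ 2) := by
        intro p
        refine le_trans ?_ (cmlb_sq hm)
        have h2 : ρ (y p.1 * y' p.2) v - (z p.1 * z' p.2) • v =
            ρ (y p.1) (ρ (y' p.2) v - z' p.2 • v) +
              z' p.2 • (ρ (y p.1) v - z p.1 • v) := by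
          have h3 : ρ (y p.1 * y' p.2) v = ρ (y p.1) (ρ (y' p.2) v) := by
            rw [map_mul]
            rfl
          rw [h3, map_sub, map_smul, smul_sub, smul_smul, mul_comm (z' p.2) (z p.1)]
          abel
        have h4 : ‖ρ (y p.1 * y' p.2) v - (z p.1 * z' p.2) • v‖ ≤
            ‖ρ (y' p.2) v - z' p.2 • v‖ + ‖ρ (y p.1) v - z p.1 • v‖ := by
          rw [h2]
          refine (norm_add_le _ _).trans (le_of_eq ?_)
          rw [LinearIsometryEquiv.norm_map, norm_smul, hz1, one_mul]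
        exact pow_le_pow_left₀ (norm_nonneg _) h4 2
      calc mn (fun p : J × J' => ‖ρ (y p.1 * y' p.2) v - (z p.1 * z' p.2) • v‖ ^ 2)
          ≤ mn (fun p : J × J' => ((m : ℝ) + 1 + 1) *
              (‖ρ (y' p.2) v - z' p.2 • v‖ ^ 2 / ((m : ℝ) + 1) +
                ‖ρ (y p.1) v - z p.1 • v‖ ^ 2)) := mn_mono h1
        _ = ((m : ℝ) + 1 + 1) * (mn (fun j => ‖ρ (y' j) v - z' j • v‖ ^ 2) / ((m : ℝ) + 1) +
              B) := by
          rw [mn_mul_left, mn_add]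
          congr 2
          · rw [mn_prod]
            refine (mn_const (T := J) (mn fun s => ‖ρ (y' s) v - z' s • v‖ ^ 2 /
              ((m : ℝ) + 1))).trans ?_
            simp only [div_eq_mul_inv]
            rw [mn_mul_right]
          · rw [mn_prod, hBd]
            congr 1
            funext j
            exact mn_const (T := J') (‖ρ (y j) v - z j • v‖ ^ 2)
        _ ≤ ((m : ℝ) + 1 + 1) * ((((m : ℝ) + 1) ^ 2 * B) / ((m : ℝ) + 1) + B) := by
          refine mul_le_mul_of_nonneg_left ?_ (by positivity)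
          have := div_le_div_of_nonneg_right hB hm.le
          linarith
        _ = (((m + 1 : ℕ) : ℝ) + 1) ^ 2 * B := by
          push_cast
          field_simp

/-- The phase gap of a list all of whose products mix well.

Proof. Induction on `m ≥ 1` gives a nonempty finite type `J'` and `y' : J' → G` with
`Mix y' (η ^ m)` (`Mix.mul`) such that for all representations, all `z : J → ℂ` of absolute value
one there is `z' : J' → ℂ` of absolute value one with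
`mn_j' ‖ρ (y' j') v - z' j' • v‖ ^ 2 ≤ m ^ 2 * mn_j ‖ρ (y j) v - z j • v‖ ^ 2` for all `v`: for
`J × J'`, `y j * y' j'`, `z j * z' j'` use
`‖ρ (y j) (ρ (y' j') v) - z j z' j' v‖ ≤ ‖ρ (y' j') v - z' j' v‖ + ‖ρ (y j) v - z j v‖` and
`(a + b) ^ 2 ≤ (m + 1) (a ^ 2 / m + b ^ 2)`. Now `Mix y' (1/100)` (`Mix.mono`). If
`1 / (1024 * m ^ 2) * ‖v‖ ^ 2 ≤ mn_j …` fails then `v ≠ 0` and
`∑ j', ‖ρ (y' j') v - z' j' • v‖ ^ 2 ≤ card J' * ‖v‖ ^ 2 / 1024`, so `dm` with `R = R'` the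
multiplication by `z' j'` (a linear isometry, it commutes with everything) gives `v = 0`. -/
theorem pg_of_mix {G : Type} [Group G] [Fintype G] (hG : commutator G = ⊤) {J : Type}
    [Fintype J] [Nonempty J] {y : J → G} {η : ℝ} (hη : 0 ≤ η) (hy : Mix y η) (m : ℕ)
    (hm : 0 < m) (hηm : η ^ m ≤ 1 / 100) : PG y (1 / (1024 * (m : ℝ) ^ 2)) := by
  intro V _ _ _ ρ z hz v hv
  obtain ⟨n, rfl⟩ : ∃ n, m = n + 1 := ⟨m - 1, by omega⟩
  obtain ⟨J', i1, i2, y', hy', hz'⟩ := cmlb_pow hη hy n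
  obtain ⟨z', hz1, hz2⟩ := hz' z hz
  have hB := hz2 V ρ v
  have hmix : Mix y' (1 / 100) := hy'.mono hηm
  by_contra hcon
  rw [not_le] at hcon
  set B : ℝ := mn (fun j => ‖ρ (y j) v - z j • v‖ ^ 2) with hBd
  have hB0 : 0 ≤ B := mn_nonneg fun j => by positivity
  have hn1 : (0 : ℝ) < ((n : ℝ) + 1) ^ 2 := by positivity
  have h1 : ((n : ℝ) + 1) ^ 2 * B ≤ ‖v‖ ^ 2 / 1024 := by
    push_cast at hcon
    have h2 := mul_lt_mul_of_pos_left hcon hn1
    have h3 : ((n : ℝ) + 1) ^ 2 * (1 / (1024 * ((n : ℝ) + 1) ^ 2) * ‖v‖ ^ 2) =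
        ‖v‖ ^ 2 / 1024 := by
      field_simp
    linarith
  have hJ : (0 : ℝ) < (Fintype.card J' : ℝ) := by exact_mod_cast Fintype.card_pos
  have h4 : ∑ j, ‖ρ (y' j) v - z' j • v‖ ^ 2 ≤ (Fintype.card J' : ℝ) * ‖v‖ ^ 2 / 1024 := by
    have h5 : mn (fun j => ‖ρ (y' j) v - z' j • v‖ ^ 2) ≤ ‖v‖ ^ 2 / 1024 := hB.trans h1
    rw [mn, inv_mul_le_iff₀ hJ] at h5
    linarith
  have h6 : v = 0 := by
    refine dm hG hmix ρ (fun j => cmlbMul (z' j) (hz1 j)) (fun j => cmlbMul (z' j) (hz1 j))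
      (fun j g u => ?_) (fun j g u => ?_) (fun i j u => ?_) v hv ?_ ?_
    · rw [cmlbMul_apply, cmlbMul_apply, map_smul]
    · rw [cmlbMul_apply, cmlbMul_apply, map_smul]
    · simp only [cmlbMul_apply]
      rw [smul_comm]
    · simp only [cmlbMul_apply]
      exact h4
    · simp only [cmlbMul_apply]
      exact h4
  rw [h6, norm_zero] at hcon
  norm_num at hcon
  linarith

/-- The list with the elements `c j` and as many elements `1`. -/
theorem cmlb_lazy {G : Type} [Group G] [Fintype G] {J : Type} [Fintype J] [Nonempty J]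
    {c : J → G}
    (h : ∀ (V : Type) [NormedAddCommGroup V] [InnerProductSpace ℂ V] [FiniteDimensional ℂ V]
        (ρ : G →* (V ≃ₗᵢ[ℂ] V)) (v : V), av ρ v = 0 →
        1 / 2048 * ‖v‖ ^ 2 ≤ mn (fun j => ‖ρ (c j) v - v‖ ^ 2)) :
    Mix (fun p : J × Bool => if p.2 = true then c p.1 else 1) (1 - 1 / 16384) := by
  intro V _ _ _ ρ v hv
  have hJC : (Fintype.card J : ℂ) ≠ 0 := by
    exact_mod_cast Fintype.card_ne_zero
  have hJ : (0 : ℝ) < (Fintype.card J : ℝ) := by exact_mod_cast Fintype.card_pos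
  have h0 := h V ρ v hv
  set w : V := ((Fintype.card J : ℂ))⁻¹ • ∑ j, ρ (c j) v with hw
  have e1 : ((Fintype.card (J × Bool) : ℂ))⁻¹ •
      ∑ p : J × Bool, ρ (if p.2 = true then c p.1 else 1) v = (2 : ℂ)⁻¹ • (v + w) := by
    rw [Fintype.sum_prod_type, Fintype.card_prod, Fintype.card_bool]
    have e2 : ∀ j : J, ∑ b : Bool, ρ (if (j, b).2 = true then c (j, b).1 else 1) v =
        ρ (c j) v + v := by
      intro j
      rw [Fintype.sum_bool]
      simp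
    rw [Finset.sum_congr rfl fun j _ => e2 j, Finset.sum_add_distrib, Finset.sum_const,
      Finset.card_univ, ← Nat.cast_smul_eq_nsmul ℂ, Nat.cast_mul, mul_inv, smul_add, smul_smul,
      add_comm, hw, smul_add, smul_smul]
    congr 2
    · rw [mul_assoc, mul_comm, mul_assoc, mul_inv_cancel₀ hJC]
      norm_num
    · rw [mul_comm]
      norm_num
  have hwn : ‖w‖ ≤ ‖v‖ := by
    rw [hw, norm_smul, norm_inv, Complex.norm_natCast, inv_mul_le_iff₀ hJ]
    calc ‖∑ j, ρ (c j) v‖ ≤ ∑ j : J, ‖ρ (c j) v‖ := norm_sum_le _ _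
      _ = ∑ _j : J, ‖v‖ := Finset.sum_congr rfl fun j _ => (ρ (c j)).norm_map v
      _ = (Fintype.card J : ℝ) * ‖v‖ := by
        rw [Finset.sum_const, Finset.card_univ, nsmul_eq_mul]
  have hin : (inner ℂ v w).re = ((Fintype.card J : ℝ))⁻¹ * ∑ j, (inner ℂ v (ρ (c j) v)).re := by
    rw [hw, inner_smul_right, inner_sum]
    have e3 : ((Fintype.card J : ℂ))⁻¹ = ((((Fintype.card J : ℝ))⁻¹ : ℝ) : ℂ) := by
      push_cast
      rfl
    rw [e3, Complex.re_ofReal_mul, Complex.re_sum]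
  have hd : ∀ j, ‖ρ (c j) v - v‖ ^ 2 = 2 * ‖v‖ ^ 2 - 2 * (inner ℂ v (ρ (c j) v)).re := by
    intro j
    have e4 := norm_sub_sq (𝕜 := ℂ) v (ρ (c j) v)
    rw [(ρ (c j)).norm_map] at e4
    rw [norm_sub_rev, e4]
    change ‖v‖ ^ 2 - 2 * (inner ℂ v (ρ (c j) v)).re + ‖v‖ ^ 2 = _
    ring
  have hmn : mn (fun j => ‖ρ (c j) v - v‖ ^ 2) = 2 * ‖v‖ ^ 2 - 2 * (inner ℂ v w).re := by
    rw [show (fun j => ‖ρ (c j) v - v‖ ^ 2) =
      fun j => 2 * ‖v‖ ^ 2 - 2 * (inner ℂ v (ρ (c j) v)).re from funext hd, mn_sub, mn_const,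
      mn_mul_left, hin, mn]
  rw [hmn] at h0
  have hsum : ‖v + w‖ ^ 2 ≤ (4 - 1 / 2048) * ‖v‖ ^ 2 := by
    have e5 := norm_add_sq (𝕜 := ℂ) v w
    have e6 : ‖v + w‖ ^ 2 = ‖v‖ ^ 2 + 2 * (inner ℂ v w).re + ‖w‖ ^ 2 := e5
    have e7 : ‖w‖ ^ 2 ≤ ‖v‖ ^ 2 := pow_le_pow_left₀ (norm_nonneg _) hwn 2
    rw [e6]
    linarith
  rw [e1, norm_smul, norm_inv, Complex.norm_ofNat]
  have h7 : (2⁻¹ * ‖v + w‖) ^ 2 ≤ ((1 - 1 / 16384) * ‖v‖) ^ 2 := by
    have e8 : 0 ≤ ‖v‖ ^ 2 := by positivity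
    nlinarith
  exact (abs_le_of_sq_le_sq' h7 (by positivity)).2

/-- The phase gap from the mean displacement.

Proof. The list `J × Bool` with elements `c j` for `true` and `1` for `false` has
`Mix _ (1 - 1/16384)`: its mean of `v` (`av ρ v = 0`) is `(1/2) • (v + T v)` with
`T v = (card J)⁻¹ • ∑ j, ρ (c j) v`, `‖T v‖ ≤ ‖v‖`,
`2 re ⟨v, T v⟩ = 2 ‖v‖ ^ 2 - mn_j ‖ρ (c j) v - v‖ ^ 2 ≤ (2 - 1/2048) ‖v‖ ^ 2`, so
`‖v + T v‖ ^ 2 / 4 ≤ (1 - 1/8192) ‖v‖ ^ 2 ≤ (1 - 1/16384) ^ 2 ‖v‖ ^ 2`. Let `m ≥ 1` be fixed with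
`(1 - 1/16384) ^ m ≤ 1/100`. `pg_of_mix` for this list, with phases `z j` for `(j, true)` and `1`
for `(j, false)`: the mean is half of the mean for `c`. So `κ = 1 / (512 m ^ 2)` works. -/
theorem pg_of_avg : ∃ κ : ℝ, 0 < κ ∧ κ ≤ 1 ∧ ∀ (G : Type) [Group G] [Fintype G],
    commutator G = ⊤ → ∀ (J : Type) [Fintype J] [Nonempty J] (c : J → G),
    (∀ (V : Type) [NormedAddCommGroup V] [InnerProductSpace ℂ V] [FiniteDimensional ℂ V]
        (ρ : G →* (V ≃ₗᵢ[ℂ] V)) (v : V), av ρ v = 0 →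
        1 / 2048 * ‖v‖ ^ 2 ≤ mn (fun j => ‖ρ (c j) v - v‖ ^ 2)) → PG c κ := by
  obtain ⟨m, hm⟩ := exists_pow_lt_of_lt_one (by norm_num : (0 : ℝ) < 1 / 100)
    (by norm_num : (1 : ℝ) - 1 / 16384 < 1)
  have hm0 : 0 < m := by
    rcases Nat.eq_zero_or_pos m with h | h
    · rw [h, pow_zero] at hm
      norm_num at hm
    · exact h
  have hmR : (1 : ℝ) ≤ (m : ℝ) := by exact_mod_cast hm0
  refine ⟨1 / (512 * (m : ℝ) ^ 2), by positivity, ?_, ?_⟩
  · rw [div_le_one (by positivity)]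
    nlinarith
  · intro G _ _ hG J _ _ c hc V _ _ _ ρ z hz v hv
    have h1 := pg_of_mix hG (by norm_num : (0 : ℝ) ≤ 1 - 1 / 16384) (cmlb_lazy hc) m hm0 hm.le
      V ρ (fun p => if p.2 = true then z p.1 else 1) (fun p => by
        split_ifs
        · exact hz p.1
        · exact norm_one) v hv
    have h2 : mn (fun p : J × Bool => ‖ρ (if p.2 = true then c p.1 else 1) v -
        (if p.2 = true then z p.1 else 1 : ℂ) • v‖ ^ 2) =
        mn (fun j => ‖ρ (c j) v - z j • v‖ ^ 2) * (1 / 2) := by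
      rw [mn_prod, ← mn_mul_right]
      congr 1
      funext j
      rw [mn, Fintype.card_bool, Fintype.sum_bool]
      simp
      ring
    rw [h2] at h1
    have h3 : 1 / (512 * (m : ℝ) ^ 2) * ‖v‖ ^ 2 = 2 * (1 / (1024 * (m : ℝ) ^ 2) * ‖v‖ ^ 2) := by
      ring
    rw [h3]
    linarith

end Pool.Agent.MPfe8e9bV
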