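import Mathlib
import Pool.Agent.Lib.MP_fe8e9b_al_V.Defs

/-!
# MP_fe8e9b_al, wreath products over sets of large degree: minimal invariant subspaces
-/

set_option autoImplicit false

open scoped BigOperators

namespace Pool.Agent.MPfe8e9bV

open Pool.Agent.MPfe8e9b Pool.Agent.MPfe8e9bA Pool.Agent.MPfe8e9bW

/-- Invariant subspaces. -/
def InvS {Γ : Type} [Group Γ] {V : Type} [NormedAddCommGroup V] [InnerProductSpace ℂ V]
    (τ : Γ →* (V ≃ₗᵢ[ℂ] V)) (U : Submodule ℂ V) : Prop := ∀ γ, ∀ x ∈ U, τ γ x ∈ U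

/-- Minimal invariant subspaces (or zero). -/
def MinS {Γ : Type} [Group Γ] {V : Type} [NormedAddCommGroup V] [InnerProductSpace ℂ V]
    (τ : Γ →* (V ≃ₗᵢ[ℂ] V)) (U : Submodule ℂ V) : Prop :=
  InvS τ U ∧ ∀ U' : Submodule ℂ V, U' ≤ U → InvS τ U' → U' = ⊥ ∨ U' = U

/-- Schur's lemma.

Proof. If `U = ⊥` take `z = 0`. Otherwise the restriction of `T` to `U` (`LinearMap.restrict`) has
an eigenvalue `z` (`Module.End.exists_eigenvalue`). `U' = {x ∈ U | T x = z • x}` is an invariant
subspace, not `⊥`, so `U' = U`. -/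
theorem schur {Γ : Type} [Group Γ] {V : Type} [NormedAddCommGroup V] [InnerProductSpace ℂ V]
    [FiniteDimensional ℂ V] (τ : Γ →* (V ≃ₗᵢ[ℂ] V)) (U : Submodule ℂ V) (hU : MinS τ U)
    (T : V →ₗ[ℂ] V) (hT : ∀ γ x, T (τ γ x) = τ γ (T x)) (hTU : ∀ x ∈ U, T x ∈ U) :
    ∃ z : ℂ, ∀ x ∈ U, T x = z • x := by
  by_cases h0 : U = ⊥
  · refine ⟨0, fun x hx => ?_⟩
    rw [h0, Submodule.mem_bot] at hx
    rw [hx, map_zero, smul_zero]
  have hnt : Nontrivial U := Submodule.nontrivial_iff_ne_bot.2 h0
  obtain ⟨z, hz⟩ := Module.End.exists_eigenvalue (K := ℂ) (T.restrict hTU : Module.End ℂ U)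
  obtain ⟨w, hw⟩ := hz.exists_hasEigenvector
  refine ⟨z, ?_⟩
  let U' : Submodule ℂ V :=
    { carrier := {x | x ∈ U ∧ T x = z • x}
      add_mem' := fun {a b} ha hb => ⟨U.add_mem ha.1 hb.1, by
        rw [map_add, ha.2, hb.2, smul_add]⟩
      zero_mem' := ⟨U.zero_mem, by rw [map_zero, smul_zero]⟩
      smul_mem' := fun c x hx => ⟨U.smul_mem c hx.1, by
        rw [map_smul, hx.2, smul_comm]⟩ }
  have hU' : InvS τ U' := fun γ x hx => ⟨hU.1 γ x hx.1, by
    rw [hT, hx.2, map_smul]⟩
  rcases hU.2 U' (fun x hx => hx.1) hU' with h1 | h1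
  · exfalso
    have h2 : (w : V) ∈ U' := ⟨w.2, by
      have h3 := hw.apply_eq_smul
      have h4 := congrArg (Subtype.val : U → V) h3
      simpa using h4⟩
    rw [h1, Submodule.mem_bot] at h2
    exact hw.2 (Subtype.ext h2)
  · intro x hx
    rw [← h1] at hx
    exact hx.2

/-- The orthogonal complement of an invariant subspace is invariant. -/
theorem irr_orth {Γ : Type} [Group Γ] {V : Type} [NormedAddCommGroup V] [InnerProductSpace ℂ V]
    (τ : Γ →* (V ≃ₗᵢ[ℂ] V)) (U : Submodule ℂ V) (hU : InvS τ U) : InvS τ Uᗮ := by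
  intro γ x hx
  rw [Submodule.mem_orthogonal] at hx ⊢
  intro u hu
  have h1 : τ γ (τ γ⁻¹ u) = u := by
    have h2 : (τ γ * τ γ⁻¹) u = u := by
      rw [← map_mul, mul_inv_cancel, map_one]
      rfl
    exact h2
  rw [← h1, LinearIsometryEquiv.inner_map_map]
  exact hx _ (hU _ _ hu)

/-- Induction over minimal invariant subspaces.

Proof. Strong induction on `finrank ℂ U`: for every invariant subspace `U` and `x ∈ U` with `C x`
one has `Q x`. If `U` is not minimal there is an invariant `U' ≤ U`, `U' ≠ ⊥`, `U' ≠ U`. Let `T` be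
the orthogonal projection to `U'` (as a linear map `V → V`); it commutes with all `τ γ` (`U'` and
`U'ᗮ` are invariant: `τ γ` preserves inner products and is onto). `x = T x + (x - T x)`,
`T x ∈ U'`, `x - T x ∈ U ⊓ U'ᗮ`, both have smaller dimension than `U`, `C (T x)` and
`C (x - T x)` by `hC` (for `T` and `id - T`), and orbits of elements of `U'` and `U'ᗮ` are
orthogonal: `hadd`. Finally `U = ⊤`. -/
theorem irr_ind {Γ : Type} [Group Γ] {V : Type} [NormedAddCommGroup V] [InnerProductSpace ℂ V]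
    [FiniteDimensional ℂ V] (τ : Γ →* (V ≃ₗᵢ[ℂ] V)) (C Q : V → Prop)
    (hC : ∀ T : V →ₗ[ℂ] V, (∀ γ x, T (τ γ x) = τ γ (T x)) → ∀ x, C x → C (T x))
    (hmin : ∀ U : Submodule ℂ V, MinS τ U → ∀ x ∈ U, C x → Q x)
    (hadd : ∀ x y, C x → C y → (∀ γ γ', inner ℂ (τ γ x) (τ γ' y) = 0) → Q x → Q y →
      Q (x + y)) :
    ∀ x, C x → Q x := by
  have key : ∀ n : ℕ, ∀ U : Submodule ℂ V, Module.finrank ℂ U ≤ n → InvS τ U →
      ∀ x ∈ U, C x → Q x := by
    intro n
    induction n with
    | zero =>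
      intro U hn hU x hx hCx
      refine hmin U ⟨hU, fun U' h1 _ => Or.inl ?_⟩ x hx hCx
      have h2 : U = ⊥ := Submodule.finrank_eq_zero.1 (Nat.le_zero.1 hn)
      rw [h2] at h1
      exact le_bot_iff.1 h1
    | succ n ih =>
      intro U hn hU x hx hCx
      by_cases hm : MinS τ U
      · exact hmin U hm x hx hCx
      · have h1 : ∃ U' : Submodule ℂ V, U' ≤ U ∧ InvS τ U' ∧ U' ≠ ⊥ ∧ U' ≠ U := by
          by_contra h2
          push Not at h2
          refine hm ⟨hU, fun U' h3 h4 => ?_⟩
          by_cases h5 : U' = ⊥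
          · exact Or.inl h5
          · exact Or.inr (h2 U' h3 h4 h5)
        obtain ⟨U', h2, h3, h4, h5⟩ := h1
        have h3o := irr_orth τ U' h3
        let T : V →ₗ[ℂ] V := (U'.starProjection : V →L[ℂ] V).toLinearMap
        have hTx : ∀ y, T y = U'.starProjection y := fun y => rfl
        have hTm : ∀ y, T y ∈ U' := fun y => by
          rw [hTx]
          exact Submodule.starProjection_apply_mem U' y
        have hTo : ∀ y, y - T y ∈ U'ᗮ := fun y => by
          rw [hTx]
          exact Submodule.sub_starProjection_mem_orthogonal y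
        have hTc : ∀ γ y, T (τ γ y) = τ γ (T y) := by
          intro γ y
          rw [hTx (τ γ y)]
          refine Submodule.eq_starProjection_of_mem_orthogonal (h3 γ _ (hTm y)) ?_
          rw [← map_sub]
          exact h3o γ _ (hTo y)
        have hsum : T x + (x - T x) = x := by abel
        rw [← hsum]
        have hTU : T x ∈ U := h2 (hTm x)
        have hC1 : C (T x) := hC T hTc x hCx
        have hC2 : C (x - T x) := hC (LinearMap.id - T) (fun γ y => by
          simp only [LinearMap.sub_apply, LinearMap.id_apply, hTc, map_sub]) x hCx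
        refine hadd _ _ hC1 hC2 ?_ ?_ ?_
        · intro γ γ'
          have h6 := h3o γ' _ (hTo x)
          rw [Submodule.mem_orthogonal] at h6
          exact h6 _ (h3 γ _ (hTm x))
        · refine ih U' ?_ h3 _ (hTm x) hC1
          have := Submodule.finrank_lt_finrank_of_lt (lt_of_le_of_ne h2 h5)
          omega
        · refine ih (U ⊓ U'ᗮ) ?_ ?_ _ ⟨U.sub_mem hx hTU, hTo x⟩ hC2
          · have h7 : U ⊓ U'ᗮ < U := by
              refine lt_of_le_of_ne inf_le_left fun h8 => h4 ?_
              have h9 : U ≤ U'ᗮ := inf_eq_left.1 h8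
              rw [eq_bot_iff]
              intro w hw
              have h10 := h9 (h2 hw)
              rw [Submodule.mem_orthogonal] at h10
              have h11 := h10 w hw
              rw [Submodule.mem_bot]
              exact inner_self_eq_zero.1 h11
            have := Submodule.finrank_lt_finrank_of_lt h7
            omega
          · intro γ y hy
            exact ⟨hU γ y hy.1, h3o γ y hy.2⟩
  intro x hx
  exact key _ ⊤ le_rfl (fun _ _ _ => Submodule.mem_top) x Submodule.mem_top hx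

end Pool.Agent.MPfe8e9bV
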