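import Mathlib
import Pool.Agent.Lib.MP_fe8e9b_al_V.Defs

/-!
# MP_fe8e9b_al, wreath products over sets of large degree: the end inequality
-/

set_option autoImplicit false

open scoped BigOperators

namespace Pool.Agent.MPfe8e9bV

open Pool.Agent.MPfe8e9b Pool.Agent.MPfe8e9bA Pool.Agent.MPfe8e9bW

theorem fame_mem {I : Type} [Finite I] {X : I → Type} [∀ i, Finite (X i)] (G : I → Type)
    [∀ i, Group (G i)] (Q : Subgroup (∀ i, X i → G i)) (f : ∀ i, X i → G i)
    (hQ : ∀ i x, sgl G i x (f i x) ∈ Q) : f ∈ Q := by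
  classical
  refine Subgroup.pi_mem_of_mulSingle_mem f (fun i => ?_)
  have h1 : f i ∈ Q.comap (MonoidHom.mulSingle (fun i => X i → G i) i) := by
    refine Subgroup.pi_mem_of_mulSingle_mem (f i) (fun x => ?_)
    rw [Subgroup.mem_comap]
    have h2 := hQ i x
    unfold sgl at h2
    convert h2 using 1
    simp only [MonoidHom.comp_apply, MonoidHom.mulSingle_apply]
  rw [Subgroup.mem_comap] at h1
  exact h1

theorem fame_same {I : Type} {X : I → Type} (G : I → Type) [∀ i, Group (G i)] (i : I) (x : X i)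
    (a : G i) : sgl G i x a i x = a := by
  classical
  unfold sgl
  simp only [MonoidHom.comp_apply, MonoidHom.mulSingle_apply]
  rw [Pi.mulSingle_eq_same, Pi.mulSingle_eq_same]

theorem fame_ne {I : Type} {X : I → Type} (G : I → Type) [∀ i, Group (G i)] (i : I) (x : X i)
    (a : G i) (j : I) (z : X j) (h : (⟨j, z⟩ : Σ i, X i) ≠ ⟨i, x⟩) : sgl G i x a j z = 1 := by
  classical
  unfold sgl
  simp only [MonoidHom.comp_apply, MonoidHom.mulSingle_apply]
  by_cases hj : j = i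
  · subst hj
    rw [Pi.mulSingle_eq_same]
    have hz : z ≠ x := fun hz => h (by rw [hz])
    rw [Pi.mulSingle_eq_of_ne hz]
  · rw [Pi.mulSingle_eq_of_ne hj]
    rfl

/-- The subgroup of the elements which fix `v`. -/
def fameSt {M : Type} [Group M] {V : Type} [NormedAddCommGroup V] [InnerProductSpace ℂ V]
    (ρ : M →* (V ≃ₗᵢ[ℂ] V)) (v : V) : Subgroup M where
  carrier := {g | ρ g v = v}
  mul_mem' := by
    intro a b ha hb
    change ρ (a * b) v = v
    rw [map_mul]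
    change ρ a (ρ b v) = v
    rw [show ρ b v = v from hb]
    exact ha
  one_mem' := by
    change ρ 1 v = v
    rw [map_one]
    rfl
  inv_mem' := by
    intro a ha
    change ρ a⁻¹ v = v
    have h1 : ρ a v = v := ha
    have h2 : ρ a⁻¹ (ρ a v) = v := by
      have h3 : ρ a⁻¹ (ρ a v) = ρ (a⁻¹ * a) v := by
        rw [map_mul]
        rfl
      rw [h3, inv_mul_cancel, map_one]
      rfl
    rw [h1] at h2
    exact h2

theorem fame_four {M : Type} [Group M] {V : Type} [NormedAddCommGroup V]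
    [InnerProductSpace ℂ V] (ρ : M →* (V ≃ₗᵢ[ℂ] V)) (g : M) (v : V) :
    ‖ρ g v - v‖ ^ 2 ≤ 4 * ‖v‖ ^ 2 := by
  have h1 : ‖ρ g v - v‖ ≤ 2 * ‖v‖ := by
    calc ‖ρ g v - v‖ ≤ ‖ρ g v‖ + ‖v‖ := norm_sub_le _ _
      _ = 2 * ‖v‖ := by
        rw [LinearIsometryEquiv.norm_map]
        ring
  have h2 := pow_le_pow_left₀ (norm_nonneg _) h1 2
  rw [mul_pow] at h2
  linarith

/-- An element which is trivial at all coordinates which move `v`, except possibly one.

Proof. `m = sgl G i x (m i x) * m'` with `m' ` the element with the coordinate `(i, x)` replaced by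
`1`; `m'` is a product of elements `sgl G j z (m j z)` over coordinates at which it is not trivial,
all of which fix `v` (see `sgl_gen` in W/Dec: `Subgroup.pi_mem_of_mulSingle_mem` for the subgroup of
the elements fixing `v`). -/
theorem fam_fix {I : Type} [Finite I] {X : I → Type} [∀ i, Finite (X i)] (G : I → Type)
    [∀ i, Group (G i)] {V : Type} [NormedAddCommGroup V] [InnerProductSpace ℂ V]
    (ρ : (∀ i, X i → G i) →* (V ≃ₗᵢ[ℂ] V)) (v : V) (i : I) (x : X i) (m : ∀ i, X i → G i)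
    (h : ∀ j z, (⟨j, z⟩ : Σ i, X i) ≠ ⟨i, x⟩ → ρ (sgl G j z (m j z)) v = v) :
    ρ m v = ρ (sgl G i x (m i x)) v := by
  have h1 : (sgl G i x (m i x))⁻¹ * m ∈ fameSt ρ v := by
    refine fame_mem G _ _ fun j z => ?_
    by_cases hj : (⟨j, z⟩ : Σ i, X i) = ⟨i, x⟩
    · obtain rfl : j = i := congrArg Sigma.fst hj
      obtain rfl : z = x := eq_of_heq (Sigma.mk.inj hj).2
      have h2 : ((sgl G j z (m j z))⁻¹ * m) j z = 1 := by
        rw [Pi.mul_apply, Pi.mul_apply, Pi.inv_apply, Pi.inv_apply, fame_same,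
          inv_mul_cancel]
      rw [h2, map_one]
      exact one_mem _
    · have h2 : ((sgl G i x (m i x))⁻¹ * m) j z = m j z := by
        rw [Pi.mul_apply, Pi.mul_apply, Pi.inv_apply, Pi.inv_apply, fame_ne G i x _ j z hj,
          inv_one, one_mul]
      rw [h2]
      exact h j z hj
  have h3 : ρ ((sgl G i x (m i x))⁻¹ * m) v = v := h1
  have h4 : m = sgl G i x (m i x) * ((sgl G i x (m i x))⁻¹ * m) := by
    rw [mul_inv_cancel_left]
  calc ρ m v = ρ (sgl G i x (m i x) * ((sgl G i x (m i x))⁻¹ * m)) v := by rw [← h4]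
    _ = ρ (sgl G i x (m i x)) (ρ ((sgl G i x (m i x))⁻¹ * m) v) := by
      rw [map_mul]
      rfl
    _ = ρ (sgl G i x (m i x)) v := by rw [h3]

/-- The end inequality.

Proof. For every `t`:
`‖ρ (W t) v - v‖ ^ 2 ≥ ∑ x ∈ A with x ∈ H t, (‖ρ (sgl G i x (W t i x)) v - v‖ ^ 2 -
4 * ‖v‖ ^ 2 * card {x' ∈ A | x' ≠ x, x' ∈ H t})`: if no point of `A` is in `H t` the right hand side
is `0`; if exactly one point `x` of `A` is in `H t`, both sides are equal by `fam_fix` (at the other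
coordinates `(j, z)` either `W t j z = 1` or, for `j = i`, `z ∉ A`, `v` is fixed); if at least two,
every term of the sum is `≤ 4 ‖v‖ ^ 2 - 4 ‖v‖ ^ 2`. Write the sum with indicators and take the mean
over `t`: with `F = fun u => ‖ρ (sgl G i x u) v - v‖ ^ 2`,
`B ≥ ∑ x ∈ A, (w * Ψ F - 4 * ‖v‖ ^ 2 * ∑ x' ∈ A, x' ≠ x, p) ≥
card A * (w * m - 4 * card A * p) * ‖v‖ ^ 2`. -/
theorem fam_end {I : Type} [Finite I] {X : I → Type} [∀ i, Fintype (X i)] (G : I → Type)
    [∀ i, Group (G i)] {V : Type} [NormedAddCommGroup V] [InnerProductSpace ℂ V]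
    (ρ : (∀ i, X i → G i) →* (V ≃ₗᵢ[ℂ] V)) (v : V) (i : I) (A : Finset (X i))
    (hfix : ∀ x, x ∉ A → ∀ a, ρ (sgl G i x a) v = v) {Ψ : (G i → ℝ) → ℝ} {B w p : ℝ}
    (hF : Fam G ρ v i A Ψ B w p) (hw : 0 ≤ w) (hp : 0 ≤ p) (m : ℝ)
    (hm : ∀ x ∈ A, m * ‖v‖ ^ 2 ≤ Ψ (fun u => ‖ρ (sgl G i x u) v - v‖ ^ 2)) :
    (A.card : ℝ) * (w * m - 4 * (A.card : ℝ) * p) * ‖v‖ ^ 2 ≤ B := by
  classical
  obtain ⟨T, iT, nT, W, H, h1, h2, h3, h4, h5⟩ := hF
  have hv0 : 0 ≤ ‖v‖ ^ 2 := sq_nonneg _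
  have key : ∀ t, ∑ x ∈ A, (ind (x ∈ H t) * ‖ρ (sgl G i x (W t i x)) v - v‖ ^ 2 -
      4 * ‖v‖ ^ 2 * ∑ x' ∈ A.erase x, ind (x ∈ H t ∧ x' ∈ H t)) ≤ ‖ρ (W t) v - v‖ ^ 2 := by
    intro t
    by_cases hx : ∃ x ∈ A, x ∈ H t ∧ ∀ x' ∈ A, x' ∈ H t → x' = x
    · obtain ⟨x, hxA, hxH, hu⟩ := hx
      have e1 : ρ (W t) v = ρ (sgl G i x (W t i x)) v := by
        refine fam_fix G ρ v i x (W t) fun j z hjz => ?_
        have h6 : W t j z = 1 → ρ (sgl G j z (W t j z)) v = v := by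
          intro h7
          rw [h7, map_one, map_one]
          rfl
        by_cases hj : j = i
        · subst hj
          have hz : z ≠ x := fun hz => hjz (by rw [hz])
          by_cases hzA : z ∈ A
          · exact h6 (h2 t z fun hzH => hz (hu z hzA hzH))
          · exact hfix z hzA _
        · exact h6 (by rw [h1 t j hj]; rfl)
      rw [Finset.sum_eq_single x]
      · have h6 : ∑ x' ∈ A.erase x, ind (x ∈ H t ∧ x' ∈ H t) = 0 := by
          refine Finset.sum_eq_zero fun x' hx' => ind_false fun h7 => ?_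
          exact (Finset.mem_erase.1 hx').1 (hu x' (Finset.mem_erase.1 hx').2 h7.2)
        rw [h6, ind_true hxH, e1]
        linarith
      · intro b hb hbx
        have h6 : b ∉ H t := fun h7 => hbx (hu b hb h7)
        have h7 : ∑ x' ∈ A.erase b, ind (b ∈ H t ∧ x' ∈ H t) = 0 :=
          Finset.sum_eq_zero fun x' _ => ind_false fun h8 => h6 h8.1
        rw [h7, ind_false h6]
        ring
      · intro h6
        exact absurd hxA h6
    · refine le_trans (Finset.sum_nonpos fun x hxA => ?_) (sq_nonneg _)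
      have h7 : 0 ≤ ∑ x' ∈ A.erase x, ind (x ∈ H t ∧ x' ∈ H t) :=
        Finset.sum_nonneg fun _ _ => ind_nonneg _
      by_cases hxH : x ∈ H t
      · have h6 : ∃ x' ∈ A, x' ∈ H t ∧ x' ≠ x := by
          by_contra hcon
          push Not at hcon
          exact hx ⟨x, hxA, hxH, hcon⟩
        obtain ⟨x', hx'A, hx'H, hne⟩ := h6
        have h8 : 1 ≤ ∑ x' ∈ A.erase x, ind (x ∈ H t ∧ x' ∈ H t) := by
          have h9 := Finset.single_le_sum (f := fun x' => ind (x ∈ H t ∧ x' ∈ H t))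
            (s := A.erase x) (fun _ _ => ind_nonneg _) (Finset.mem_erase.2 ⟨hne, hx'A⟩)
          have h10 : ind (x ∈ H t ∧ x' ∈ H t) = 1 := ind_true ⟨hxH, hx'H⟩
          have h11 : ind (x ∈ H t ∧ x' ∈ H t) ≤
              ∑ x' ∈ A.erase x, ind (x ∈ H t ∧ x' ∈ H t) := h9
          rw [h10] at h11
          exact h11
        have h9 := fame_four ρ (sgl G i x (W t i x)) v
        rw [ind_true hxH]
        nlinarith
      · rw [ind_false hxH]
        nlinarith
  have h6 := (mn_mono key).trans h3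
  rw [mn_sum] at h6
  refine le_trans ?_ h6
  have h7 : ∀ x ∈ A, (w * m - 4 * (A.card : ℝ) * p) * ‖v‖ ^ 2 ≤
      mn (fun t => ind (x ∈ H t) * ‖ρ (sgl G i x (W t i x)) v - v‖ ^ 2 -
      4 * ‖v‖ ^ 2 * ∑ x' ∈ A.erase x, ind (x ∈ H t ∧ x' ∈ H t)) := by
    intro x hxA
    rw [mn_sub, mn_mul_left, mn_sum]
    have h8 := h4 x hxA (fun u => ‖ρ (sgl G i x u) v - v‖ ^ 2) fun _ => sq_nonneg _
    have h9 := mul_le_mul_of_nonneg_left (hm x hxA) hw
    have h10 : ∑ x' ∈ A.erase x, mn (fun t => ind (x ∈ H t ∧ x' ∈ H t)) ≤ (A.card : ℝ) * p := by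
      calc ∑ x' ∈ A.erase x, mn (fun t => ind (x ∈ H t ∧ x' ∈ H t))
          ≤ ∑ _x' ∈ A.erase x, p := Finset.sum_le_sum fun x' hx' =>
            h5 x hxA x' (Finset.mem_erase.1 hx').2 (Finset.mem_erase.1 hx').1.symm
        _ = ((A.erase x).card : ℝ) * p := by
            rw [Finset.sum_const, nsmul_eq_mul]
        _ ≤ (A.card : ℝ) * p := by
            refine mul_le_mul_of_nonneg_right ?_ hp
            exact_mod_cast Finset.card_le_card (Finset.erase_subset x A)
    have h11 := mul_le_mul_of_nonneg_left h10 (by positivity : 0 ≤ 4 * ‖v‖ ^ 2)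
    nlinarith
  calc (A.card : ℝ) * (w * m - 4 * (A.card : ℝ) * p) * ‖v‖ ^ 2
      = ∑ _x ∈ A, (w * m - 4 * (A.card : ℝ) * p) * ‖v‖ ^ 2 := by
        rw [Finset.sum_const, nsmul_eq_mul]
        ring
    _ ≤ _ := Finset.sum_le_sum h7

end Pool.Agent.MPfe8e9bV
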