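import Mathlib
import Pool.Agent.Lib.MP_fe8e9b_al_V.Defs
import Pool.Agent.Lib.MP_fe8e9b_al_V.FamE

/-!
# MP_fe8e9b_al, wreath products over large sets: the inequality for few coordinates
-/

set_option autoImplicit false

open scoped BigOperators

namespace Pool.Agent.MPfe8e9bV

open Pool.Agent.MPfe8e9b Pool.Agent.MPfe8e9bA Pool.Agent.MPfe8e9bW

open Classical in
/-- The element with the component `f` at `i`. -/
noncomputable def dniE {I : Type} {X : I → Type} (G : I → Type) [∀ i, Group (G i)] (i : I) :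
    (X i → G i) →* (∀ i, X i → G i) :=
  MonoidHom.mulSingle (fun i => X i → G i) i

theorem dni_same {I : Type} {X : I → Type} (G : I → Type) [∀ i, Group (G i)] (i : I)
    (f : X i → G i) : dniE (X := X) G i f i = f := by
  classical
  unfold dniE
  rw [MonoidHom.mulSingle_apply, Pi.mulSingle_eq_same]

theorem dni_ne {I : Type} {X : I → Type} (G : I → Type) [∀ i, Group (G i)] (i : I)
    (f : X i → G i) (j : I) (hj : j ≠ i) : dniE (X := X) G i f j = 1 := by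
  classical
  unfold dniE
  rw [MonoidHom.mulSingle_apply, Pi.mulSingle_eq_of_ne hj]

theorem dni_congr {I : Type} [Finite I] {X : I → Type} [∀ i, Finite (X i)] (G : I → Type)
    [∀ i, Group (G i)] {V : Type} [NormedAddCommGroup V] [InnerProductSpace ℂ V]
    (ρ : (∀ i, X i → G i) →* (V ≃ₗᵢ[ℂ] V)) (v : V) (i : I) (A : Finset (X i))
    (hfix : ∀ x, x ∉ A → ∀ a, ρ (sgl G i x a) v = v) (f f' : X i → G i)
    (h : ∀ x ∈ A, f x = f' x) : ρ (dniE G i f) v = ρ (dniE G i f') v := by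
  have h1 : dniE G i (f'⁻¹ * f) ∈ fameSt ρ v := by
    refine fame_mem G _ _ fun j z => ?_
    by_cases hj : j = i
    · subst hj
      rw [dni_same]
      by_cases hz : z ∈ A
      · rw [Pi.mul_apply, Pi.inv_apply, h z hz, inv_mul_cancel, map_one]
        exact one_mem _
      · exact hfix z hz _
    · rw [dni_ne G i _ j hj, Pi.one_apply, map_one]
      exact one_mem _
  have h3 : ρ (dniE G i (f'⁻¹ * f)) v = v := h1
  calc ρ (dniE G i f) v = ρ (dniE G i (f' * (f'⁻¹ * f))) v := by rw [mul_inv_cancel_left]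
    _ = ρ (dniE G i f') (ρ (dniE G i (f'⁻¹ * f)) v) := by
      rw [map_mul, map_mul]
      rfl
    _ = ρ (dniE G i f') v := by rw [h3]

open Classical in
/-- The function with the letters `a (π x)`, `x ∈ A`. -/
noncomputable def dniP {X G Ω : Type} [Group G] (a : Ω → G) (A : Finset X) (π : A → Ω) : X → G :=
  fun x => if h : x ∈ A then a (π ⟨x, h⟩) else 1

theorem dni_mem {X G Ω : Type} [Group G] (a : Ω → G) (A : Finset X) (π : A → Ω) (x : X)
    (h : x ∈ A) : dniP a A π x = a (π ⟨x, h⟩) := by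
  unfold dniP
  rw [dif_pos h]

theorem dni_not {X G Ω : Type} [Group G] (a : Ω → G) (A : Finset X) (π : A → Ω) (x : X)
    (h : x ∉ A) : dniP a A π x = 1 := by
  unfold dniP
  rw [dif_neg h]

/-- One coordinate. -/
theorem dni_one {H : Type} [Group H] [Fintype H] {q : ℕ} (hq : 0 < q) (y : Fin q → H)
    (hy : Mix y (1 / 100)) {V : Type} [NormedAddCommGroup V] [InnerProductSpace ℂ V]
    [FiniteDimensional ℂ V] (ρ : H →* (V ≃ₗᵢ[ℂ] V)) (v : V) (hv : av ρ v = 0) :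
    ‖∑ o : Bool × Fin q, ρ (if o.1 = true then y o.2 else 1) v‖ ≤ 101 / 100 * q * ‖v‖ := by
  have hq' : (0 : ℝ) < q := by exact_mod_cast hq
  have h1 : ∑ o : Bool × Fin q, ρ (if o.1 = true then y o.2 else 1) v =
      ∑ j, ρ (y j) v + ∑ _j : Fin q, v := by
    rw [Fintype.sum_prod_type, Fintype.sum_bool]
    congr 1
    refine Finset.sum_congr rfl fun j _ => ?_
    simp
  have h2 := hy V ρ v hv
  rw [Fintype.card_fin, norm_smul, norm_inv, Complex.norm_natCast, inv_mul_le_iff₀ hq'] at h2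
  rw [h1]
  refine (norm_add_le _ _).trans ?_
  have h3 : ‖∑ _j : Fin q, v‖ ≤ q * ‖v‖ := by
    refine (norm_sum_le _ _).trans ?_
    rw [Finset.sum_const, Finset.card_univ, Fintype.card_fin, nsmul_eq_mul]
  linarith

/-- The mean over the patterns. -/
theorem dni_mean {I : Type} {X : I → Type} (G : I → Type)
    [∀ i, Group (G i)] [∀ i, Fintype (G i)] (i : I) [DecidableEq (X i)] {q : ℕ} (hq : 0 < q)
    (y : Fin q → G i) (hy : Mix y (1 / 100)) {V : Type} [NormedAddCommGroup V]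
    [InnerProductSpace ℂ V] [FiniteDimensional ℂ V]
    (ρ : (∀ i, X i → G i) →* (V ≃ₗᵢ[ℂ] V)) (v : V) (A : Finset (X i)) (hA : A.Nonempty)
    (hkill : ∀ x ∈ A, av (ρ.comp (sgl G i x)) v = 0) :
    ‖∑ π : A → Bool × Fin q,
      ρ (dniE G i (dniP (fun o => if o.1 = true then y o.2 else 1) A π)) v‖ ≤
      101 / 200 * (2 * (q : ℝ)) ^ A.card * ‖v‖ := by
  obtain ⟨x₀, hx₀⟩ := hA
  set a : Bool × Fin q → G i := fun o => if o.1 = true then y o.2 else 1 with ha
  let z₀ : A := ⟨x₀, hx₀⟩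
  let Ω := Bool × Fin q
  let E := Equiv.funSplitAt z₀ Ω
  let o₀ : Ω := (true, ⟨0, hq⟩)
  let d : ({j : A // j ≠ z₀} → Ω) → X i → G i := fun π' x =>
    if x = x₀ then 1 else dniP a A (E.symm (o₀, π')) x
  have hE : ∀ (o : Ω) (π' : {j : A // j ≠ z₀} → Ω),
      dniE (X := X) G i (dniP a A (E.symm (o, π'))) = dniE G i (d π') * sgl G i x₀ (a o) := by
    intro o π'
    have h1 : sgl G i x₀ (a o) = dniE (X := X) G i (Pi.mulSingle x₀ (a o)) := by
      unfold sgl dniE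
      simp only [MonoidHom.comp_apply, MonoidHom.mulSingle_apply]
      funext j x
      by_cases hj : j = i
      · subst hj
        by_cases hx : x = x₀
        · subst hx
          simp
        · simp [Pi.mulSingle_eq_of_ne, hx]
      · simp [Pi.mulSingle_eq_of_ne, hj]
    rw [h1, ← map_mul]
    congr 1
    funext x
    rw [Pi.mul_apply]
    by_cases hx : x = x₀
    · subst hx
      rw [Pi.mulSingle_eq_same, dni_mem _ _ _ _ hx₀]
      simp [d, E, Equiv.funSplitAt, z₀]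
    · rw [Pi.mulSingle_eq_of_ne hx, mul_one]
      simp only [d, if_neg hx]
      by_cases hxA : x ∈ A
      · rw [dni_mem _ _ _ _ hxA, dni_mem _ _ _ _ hxA]
        have hne : (⟨x, hxA⟩ : A) ≠ z₀ := fun h => hx (congrArg Subtype.val h)
        simp [E, Equiv.funSplitAt, hne]
      · rw [dni_not _ _ _ _ hxA, dni_not _ _ _ _ hxA]
  have h1 : ∑ π : A → Ω, ρ (dniE G i (dniP a A π)) v =
      ∑ π' : {j : A // j ≠ z₀} → Ω, ρ (dniE G i (d π')) (∑ o : Ω, ρ (sgl G i x₀ (a o)) v) := by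
    rw [← E.symm.sum_comp, Fintype.sum_prod_type, Finset.sum_comm]
    refine Finset.sum_congr rfl fun π' _ => ?_
    rw [map_sum]
    refine Finset.sum_congr rfl fun o _ => ?_
    rw [hE, map_mul]
    rfl
  have h2 : ‖∑ o : Ω, ρ (sgl G i x₀ (a o)) v‖ ≤ 101 / 100 * q * ‖v‖ :=
    dni_one hq y hy (ρ.comp (sgl G i x₀)) v (hkill x₀ hx₀)
  have h3 : (2 * q) ^ A.card = 2 * q * Fintype.card ({j : A // j ≠ z₀} → Ω) := by
    have h4 := Fintype.card_congr E
    rw [Fintype.card_prod, Fintype.card_fun, Fintype.card_coe, Fintype.card_prod,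
      Fintype.card_bool, Fintype.card_fin] at h4
    exact h4
  have h4 : (2 * (q : ℝ)) ^ A.card = 2 * q * Fintype.card ({j : A // j ≠ z₀} → Ω) := by
    exact_mod_cast h3
  rw [h1]
  refine (norm_sum_le _ _).trans ?_
  calc ∑ π' : {j : A // j ≠ z₀} → Ω, ‖ρ (dniE G i (d π')) (∑ o : Ω, ρ (sgl G i x₀ (a o)) v)‖
      ≤ ∑ _π' : {j : A // j ≠ z₀} → Ω, 101 / 100 * q * ‖v‖ :=
        Finset.sum_le_sum fun π' _ => by
          rw [LinearIsometryEquiv.norm_map]
          exact h2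
    _ = 101 / 200 * (2 * (q : ℝ)) ^ A.card * ‖v‖ := by
        rw [Finset.sum_const, Finset.card_univ, nsmul_eq_mul, h4]
        ring

theorem dni_conj_mem {P I : Type} [Group P] {X : I → Type} (α : ∀ i, P →* Equiv.Perm (X i))
    (i : I) (g : P) (σ : Ki α i) : g * σ.1 * g⁻¹ ∈ Ki α i := by
  intro j hj
  rw [map_mul, map_mul, σ.2 j hj, mul_one, ← map_mul, mul_inv_cancel, map_one]

/-- Conjugation. -/
def dniC {P I : Type} [Group P] {X : I → Type} (α : ∀ i, P →* Equiv.Perm (X i)) (i : I) (g : P) :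
    Ki α i ≃ Ki α i where
  toFun σ := ⟨g * σ.1 * g⁻¹, dni_conj_mem α i g σ⟩
  invFun σ := ⟨g⁻¹ * σ.1 * g, by
    have h := dni_conj_mem α i g⁻¹ σ
    rwa [inv_inv] at h⟩
  left_inv σ := by
    apply Subtype.ext
    simp [mul_assoc]
  right_inv σ := by
    apply Subtype.ext
    simp [mul_assoc]

/-- The frequencies of the patterns. -/
theorem dni_freq {P I : Type} [Group P] {X : I → Type}
    [∀ i, Fintype (X i)] (α : ∀ i, P →* Equiv.Perm (X i)) (i : I) [Fintype (Ki α i)] {q : ℕ}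
    (w : ℕ) (ω : X i → Bool × Fin q)
    (hd : ∀ B : Finset (X i), B.card ≤ w → ∀ π : X i → Bool × Fin q,
      |mn (fun σ : Ki α i =>
        ind (∀ x ∈ B, ω ((((α i).comp (Ki α i).subtype) σ)⁻¹ x) = π x)) -
        ((2 * (q : ℝ)) ^ B.card)⁻¹| ≤ 1 / 4 * ((2 * (q : ℝ)) ^ B.card)⁻¹)
    (A : Finset (X i)) (hAw : A.card ≤ w) (hA : A.Nonempty) (g : P) (π : A → Bool × Fin q) :
    |mn (fun σ : Ki α i => ind (∀ x : A, ω ((α i (σ.1 * g))⁻¹ x.1) = π x)) -
      ((2 * (q : ℝ)) ^ A.card)⁻¹| ≤ 1 / 4 * ((2 * (q : ℝ)) ^ A.card)⁻¹ := by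
  classical
  obtain ⟨x₀, hx₀⟩ := hA
  have h1 := hd (A.map ((α i g)⁻¹).toEmbedding) (by rw [Finset.card_map]; exact hAw)
    (fun z => if h : α i g z ∈ A then π ⟨α i g z, h⟩ else π ⟨x₀, hx₀⟩)
  rw [Finset.card_map] at h1
  rw [← mn_equiv (dniC α i g)]
  convert h1 using 5 with σ
  have h2 : ∀ x : X i, (α i (((dniC α i g) σ).1 * g))⁻¹ x =
      (((α i).comp (Ki α i).subtype) σ)⁻¹ ((α i g)⁻¹ x) := by
    intro x
    have h3 : ((dniC α i g) σ).1 * g = g * σ.1 := by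
      change g * σ.1 * g⁻¹ * g = g * σ.1
      rw [inv_mul_cancel_right]
    rw [h3, map_mul, mul_inv_rev]
    rfl
  refine congrArg ind (propext ?_)
  constructor
  · intro h z hz
    rw [Finset.mem_map] at hz
    obtain ⟨x, hx, rfl⟩ := hz
    have h3 := h ⟨x, hx⟩
    rw [h2] at h3
    have h4 : α i g (((α i g)⁻¹).toEmbedding x) = x := (α i g).apply_symm_apply x
    simp only [h4, hx, dif_pos]
    exact h3
  · intro h x
    rw [h2]
    have h3 := h ((α i g)⁻¹ x.1) (Finset.mem_map.2 ⟨x.1, x.2, rfl⟩)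
    have h4 : α i g ((α i g)⁻¹ x.1) = x.1 := (α i g).apply_symm_apply x.1
    simp only [h4, x.2, dif_pos] at h3
    exact h3

/-- The mean over a coset. -/
theorem dni_coset {P I : Type} [Group P] [Fintype P] [Finite I] {X : I → Type}
    [∀ i, Fintype (X i)] (α : ∀ i, P →* Equiv.Perm (X i)) (G : I → Type) [∀ i, Group (G i)]
    [∀ i, Fintype (G i)] (i : I) [Fintype (Ki α i)] {q : ℕ} (hq : 0 < q) (y : Fin q → G i)
    (hy : Mix y (1 / 100)) (w : ℕ) (Y : ∀ i, X i → G i)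
    (hY : Dns ((α i).comp (Ki α i).subtype) y w (Y i)) {V : Type}
    [NormedAddCommGroup V] [InnerProductSpace ℂ V] [FiniteDimensional ℂ V]
    (ρ : (∀ i, X i → G i) →* (V ≃ₗᵢ[ℂ] V)) (v : V) (A : Finset (X i)) (hA : A.Nonempty)
    (hAw : A.card ≤ w) (hfix : ∀ x, x ∉ A → ∀ a, ρ (sgl G i x a) v = v)
    (hkill : ∀ x ∈ A, av (ρ.comp (sgl G i x)) v = 0) (g : P) :
    ‖∑ σ : Ki α i, ρ (wrAct α G (σ.1 * g) Y) v‖ ≤
      4 / 5 * (Fintype.card (Ki α i) : ℝ) * ‖v‖ := by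
  classical
  obtain ⟨ω, hω, hd⟩ := hY
  have hfr := dni_freq α i w ω hd A hAw hA g
  have hmean := dni_mean G i hq y hy ρ v A hA hkill
  set a : Bool × Fin q → G i := fun o => if o.1 = true then y o.2 else 1 with ha
  set F : (A → Bool × Fin q) → V := fun π => ρ (dniE G i (dniP a A π)) v with hF
  let pt : Ki α i → A → Bool × Fin q := fun σ x => ω ((α i (σ.1 * g))⁻¹ x.1)
  let b : ∀ i, X i → G i := Function.update (wrAct α G g Y) i 1
  have hN : (0 : ℝ) < (Fintype.card (Ki α i) : ℝ) := by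
    exact_mod_cast Fintype.card_pos
  have hM : (0 : ℝ) < (2 * (q : ℝ)) ^ A.card := by
    have : (0 : ℝ) < q := by exact_mod_cast hq
    positivity
  have h1 : ∀ σ : Ki α i, ρ (wrAct α G (σ.1 * g) Y) v = ρ b (F (pt σ)) := by
    intro σ
    have h2 : wrAct α G (σ.1 * g) Y = b * dniE G i (wrAct α G (σ.1 * g) Y i) := by
      funext j
      by_cases hj : j = i
      · subst hj
        rw [Pi.mul_apply, dni_same]
        simp [b]
      · rw [Pi.mul_apply, dni_ne G i _ j hj, mul_one]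
        funext x
        simp only [b, Function.update_of_ne hj]
        rw [wrAct_apply, wrAct_apply, map_mul, σ.2 j hj, one_mul]
    have h3 : ρ (dniE G i (wrAct α G (σ.1 * g) Y i)) v = F (pt σ) := by
      refine dni_congr G ρ v i A hfix _ _ fun x hx => ?_
      rw [dni_mem _ _ _ _ hx, wrAct_apply, hω]
    rw [← h3]
    conv_lhs => rw [h2]
    rw [map_mul]
    rfl
  have h2 : ‖∑ σ : Ki α i, ρ (wrAct α G (σ.1 * g) Y) v‖ = ‖∑ σ : Ki α i, F (pt σ)‖ := by
    rw [Finset.sum_congr rfl fun σ _ => h1 σ, ← map_sum, LinearIsometryEquiv.norm_map]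
  let c : (A → Bool × Fin q) → ℝ := fun π => ∑ σ : Ki α i, ind (∀ x : A, pt σ x = π x)
  have h3 : ∑ σ : Ki α i, F (pt σ) = ∑ π, (c π : ℂ) • F π := by
    have h4 : ∀ σ, F (pt σ) = ∑ π, ((ind (∀ x : A, pt σ x = π x) : ℝ) : ℂ) • F π := by
      intro σ
      rw [Finset.sum_eq_single (pt σ)]
      · rw [ind_true fun _ => rfl, Complex.ofReal_one, one_smul]
      · intro π _ hπ
        rw [ind_false, Complex.ofReal_zero, zero_smul]
        intro h
        exact hπ (funext fun x => (h x).symm)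
      · intro h
        exact absurd (Finset.mem_univ _) h
    rw [Finset.sum_congr rfl fun σ _ => h4 σ, Finset.sum_comm]
    refine Finset.sum_congr rfl fun π _ => ?_
    rw [← Finset.sum_smul]
    simp only [c, Complex.ofReal_sum]
  set N : ℝ := (Fintype.card (Ki α i) : ℝ) with hNdef
  set M : ℝ := (2 * (q : ℝ)) ^ A.card with hMdef
  have hc : ∀ π, |c π - N * M⁻¹| ≤ N * (1 / 4 * M⁻¹) := by
    intro π
    have h4 := hfr π
    have h5 : c π = N * mn (fun σ : Ki α i =>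
        ind (∀ x : A, ω ((α i (σ.1 * g))⁻¹ x.1) = π x)) := by
      rw [mn, ← mul_assoc, mul_inv_cancel₀ hN.ne', one_mul]
    rw [h5, ← mul_sub, abs_mul, abs_of_pos hN]
    exact mul_le_mul_of_nonneg_left h4 hN.le
  have h4 : ∑ π, (c π : ℂ) • F π = ((N * M⁻¹ : ℝ) : ℂ) • ∑ π, F π +
      ∑ π, ((c π - N * M⁻¹ : ℝ) : ℂ) • F π := by
    rw [Finset.smul_sum, ← Finset.sum_add_distrib]
    refine Finset.sum_congr rfl fun π _ => ?_
    rw [← add_smul, ← Complex.ofReal_add]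
    congr 2
    ring
  have h5 : ‖((N * M⁻¹ : ℝ) : ℂ) • ∑ π, F π‖ ≤ 101 / 200 * N * ‖v‖ := by
    rw [norm_smul, Complex.norm_real, Real.norm_eq_abs, abs_of_pos (by positivity)]
    calc N * M⁻¹ * ‖∑ π, F π‖ ≤ N * M⁻¹ * (101 / 200 * M * ‖v‖) :=
          mul_le_mul_of_nonneg_left hmean (by positivity)
      _ = 101 / 200 * N * ‖v‖ := by
          field_simp
  have h6 : ‖∑ π, ((c π - N * M⁻¹ : ℝ) : ℂ) • F π‖ ≤ 1 / 4 * N * ‖v‖ := by
    refine (norm_sum_le _ _).trans ?_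
    calc ∑ π, ‖((c π - N * M⁻¹ : ℝ) : ℂ) • F π‖
        ≤ ∑ _π : A → Bool × Fin q, N * (1 / 4 * M⁻¹) * ‖v‖ := by
          refine Finset.sum_le_sum fun π _ => ?_
          rw [norm_smul, Complex.norm_real, Real.norm_eq_abs]
          have h7 : ‖F π‖ = ‖v‖ := LinearIsometryEquiv.norm_map _ _
          rw [h7]
          exact mul_le_mul_of_nonneg_right (hc π) (norm_nonneg _)
      _ = 1 / 4 * N * ‖v‖ := by
          have h8 : (Fintype.card (A → Bool × Fin q) : ℝ) = M := by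
            rw [Fintype.card_fun, Fintype.card_coe, Fintype.card_prod, Fintype.card_bool,
              Fintype.card_fin]
            push_cast
            rfl
          rw [Finset.sum_const, Finset.card_univ, nsmul_eq_mul, h8]
          field_simp
  rw [h2, h3, h4]
  refine (norm_add_le _ _).trans ?_
  have h7 : 0 ≤ N * ‖v‖ := by positivity
  nlinarith

/-- The inequality for few coordinates.

Proof. Let `K = Ki α i`, `Ω = Bool × Fin q`, `let a : Ω → G i` be the letters, `ω` from `hY`. For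
`π : A → Ω` (`A` as a subtype) let `e π` be the element with the coordinate `a (π x)` at `(i, x)`,
`x ∈ A`, and `1` elsewhere, and `F π = ρ (e π) v`.
(1) `‖mean over π of F π‖ ≤ (1/2 + 1/200) ‖v‖`: fix `x₀ ∈ A`; for fixed values of `π` at the other
points, `e π = e' * sgl G i x₀ (a (π x₀))` with `e'` fixed, and the mean over the value at `x₀` is
`ρ e' ((1/2) • v + (1/2) • (mean_j ρ (sgl G i x₀ (y j)) v))`, of norm
`≤ (1/2 + (1/2) (1/100)) ‖v‖` by `hy` (`hkill`).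
(2) For fixed `g : P` let `b` be `wrAct α G g Y` with the component `i` replaced by `1`. For `σ ∈ K`:
`ρ (wrAct α G (σ * g) Y) v = ρ b (F (π_σ))`, `π_σ x = ω ((α i (σ * g))⁻¹ x)`, because the components
`j ≠ i` of `wrAct α G (σ * g) Y` and `wrAct α G g Y` agree and the coordinates `(i, x)`, `x ∉ A`, fix
`v` (compare `fam_fix`). With `σ' = g⁻¹ σ g ∈ K`: `(α i (σ * g))⁻¹ x = (α i σ')⁻¹ ((α i g)⁻¹ x)`, so the
frequency of a pattern `π` among the `π_σ` is the frequency in `hY` of a pattern on the set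
`(α i g)⁻¹ A` with `card A ≤ w` elements: it differs from `(2 q) ^ (- card A)` by at most
`(1/4) (2 q) ^ (- card A)`. So
`‖mean_σ F (π_σ) - mean_π F π‖ ≤ ∑ π, (1/4) (2 q) ^ (- card A) ‖v‖ = ‖v‖ / 4`, and
`‖mean_σ ρ (wrAct α G (σ * g) Y) v‖ ≤ (4/5) ‖v‖` for every `g`.
(3) Hence `‖v‖ / 5 ≤ ‖mean_{g, σ} (ρ (wrAct α G (σ * g) Y) v - v)‖ ≤ mn_g ‖ρ (wrAct α G g Y) v - v‖`
(`g ↦ σ * g` is a bijection of `P`), and the mean of squares is at least the square of the mean. -/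
theorem dns_ineq {P I : Type} [Group P] [Fintype P] [Finite I] {X : I → Type}
    [∀ i, Fintype (X i)] (α : ∀ i, P →* Equiv.Perm (X i)) (G : I → Type) [∀ i, Group (G i)]
    [∀ i, Fintype (G i)] (i : I) [Fintype (Ki α i)] {q : ℕ} (hq : 0 < q) (y : Fin q → G i)
    (hy : Mix y (1 / 100)) (w : ℕ) (Y : ∀ i, X i → G i)
    (hY : Dns ((α i).comp (Ki α i).subtype) y w (Y i)) {V : Type}
    [NormedAddCommGroup V] [InnerProductSpace ℂ V] [FiniteDimensional ℂ V]
    (ρ : (∀ i, X i → G i) →* (V ≃ₗᵢ[ℂ] V)) (v : V) (A : Finset (X i)) (hA : A.Nonempty)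
    (hAw : A.card ≤ w) (hfix : ∀ x, x ∉ A → ∀ a, ρ (sgl G i x a) v = v)
    (hkill : ∀ x ∈ A, av (ρ.comp (sgl G i x)) v = 0) :
    ‖v‖ ^ 2 ≤ 25 * mn (fun g : P => ‖ρ (wrAct α G g Y) v - v‖ ^ 2) := by
  classical
  have hK : (0 : ℝ) < (Fintype.card (Ki α i) : ℝ) := by
    exact_mod_cast Fintype.card_pos
  have hP : (0 : ℝ) < (Fintype.card P : ℝ) := by
    exact_mod_cast Fintype.card_pos
  have h1 := dni_coset α G i hq y hy w Y hY ρ v A hA hAw hfix hkill
  set N : ℝ := (Fintype.card (Ki α i) : ℝ) with hN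
  set R : ℝ := (Fintype.card P : ℝ) with hR
  have h2 : ∑ g : P, ∑ σ : Ki α i, ρ (wrAct α G (σ.1 * g) Y) v =
      (N : ℂ) • ∑ g : P, ρ (wrAct α G g Y) v := by
    rw [Finset.sum_comm]
    have h3 : ∀ σ : Ki α i, ∑ g : P, ρ (wrAct α G (σ.1 * g) Y) v =
        ∑ g : P, ρ (wrAct α G g Y) v := fun σ =>
      Fintype.sum_equiv (Equiv.mulLeft σ.1) _ _ fun g => rfl
    rw [Finset.sum_congr rfl fun σ _ => h3 σ, Finset.sum_const, Finset.card_univ,
      ← Nat.cast_smul_eq_nsmul ℂ]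
    simp [hN]
  have h3 : ‖∑ g : P, ρ (wrAct α G g Y) v‖ ≤ 4 / 5 * R * ‖v‖ := by
    have h4 : N * ‖∑ g : P, ρ (wrAct α G g Y) v‖ ≤ R * (4 / 5 * N * ‖v‖) := by
      calc N * ‖∑ g : P, ρ (wrAct α G g Y) v‖
          = ‖∑ g : P, ∑ σ : Ki α i, ρ (wrAct α G (σ.1 * g) Y) v‖ := by
            rw [h2, norm_smul, Complex.norm_real, Real.norm_eq_abs, abs_of_pos hK]
        _ ≤ ∑ g : P, ‖∑ σ : Ki α i, ρ (wrAct α G (σ.1 * g) Y) v‖ := norm_sum_le _ _
        _ ≤ ∑ _g : P, 4 / 5 * N * ‖v‖ := Finset.sum_le_sum fun g _ => h1 g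
        _ = R * (4 / 5 * N * ‖v‖) := by
            rw [Finset.sum_const, Finset.card_univ, nsmul_eq_mul]
    have h5 : N * ‖∑ g : P, ρ (wrAct α G g Y) v‖ ≤ N * (4 / 5 * R * ‖v‖) := by
      refine h4.trans (le_of_eq ?_)
      ring
    exact le_of_mul_le_mul_left h5 hK
  have h4 : R * ‖v‖ ≤ ∑ g : P, ‖ρ (wrAct α G g Y) v - v‖ + 4 / 5 * R * ‖v‖ := by
    calc R * ‖v‖ = ‖∑ _g : P, v‖ := by
          rw [Finset.sum_const, Finset.card_univ, ← Nat.cast_smul_eq_nsmul ℂ, norm_smul,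
            Complex.norm_natCast]
      _ = ‖∑ g : P, ρ (wrAct α G g Y) v - ∑ g : P, (ρ (wrAct α G g Y) v - v)‖ := by
          rw [Finset.sum_sub_distrib, sub_sub_cancel]
      _ ≤ ‖∑ g : P, ρ (wrAct α G g Y) v‖ + ‖∑ g : P, (ρ (wrAct α G g Y) v - v)‖ :=
          norm_sub_le _ _
      _ ≤ 4 / 5 * R * ‖v‖ + ∑ g : P, ‖ρ (wrAct α G g Y) v - v‖ :=
          add_le_add h3 (norm_sum_le _ _)
      _ = _ := add_comm _ _
  have h5 : R * ‖v‖ ≤ 5 * ∑ g : P, ‖ρ (wrAct α G g Y) v - v‖ := by linarith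
  have h6 : (∑ g : P, ‖ρ (wrAct α G g Y) v - v‖) ^ 2 ≤
      R * ∑ g : P, ‖ρ (wrAct α G g Y) v - v‖ ^ 2 := by
    have h7 := sq_sum_le_card_mul_sum_sq (s := (Finset.univ : Finset P))
      (f := fun g => ‖ρ (wrAct α G g Y) v - v‖)
    rw [Finset.card_univ] at h7
    exact h7
  have h7 : (R * ‖v‖) ^ 2 ≤ (5 * ∑ g : P, ‖ρ (wrAct α G g Y) v - v‖) ^ 2 :=
    pow_le_pow_left₀ (by positivity) h5 2
  have h8 : R * (R * ‖v‖ ^ 2) ≤ R * (25 * ∑ g : P, ‖ρ (wrAct α G g Y) v - v‖ ^ 2) := by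
    nlinarith
  have h9 := le_of_mul_le_mul_left h8 hP
  rw [mn]
  calc ‖v‖ ^ 2 = R⁻¹ * (R * ‖v‖ ^ 2) := by rw [inv_mul_cancel_left₀ hP.ne']
    _ ≤ R⁻¹ * (25 * ∑ g : P, ‖ρ (wrAct α G g Y) v - v‖ ^ 2) :=
        mul_le_mul_of_nonneg_left h9 (inv_nonneg.2 hP.le)
    _ = 25 * (R⁻¹ * ∑ g : P, ‖ρ (wrAct α G g Y) v - v‖ ^ 2) := by ring

end Pool.Agent.MPfe8e9bV
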