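import Mathlib
import Pool.Agent.Lib.MP_fe8e9b_al_V.Defs

/-!
# MP_fe8e9b_al, wreath products over sets of large degree: one step
-/

set_option autoImplicit false

open scoped BigOperators

namespace Pool.Agent.MPfe8e9bV

open Pool.Agent.MPfe8e9b Pool.Agent.MPfe8e9bA Pool.Agent.MPfe8e9bW

theorem fams_norm {Γ : Type} [Group Γ] {V : Type} [NormedAddCommGroup V] [InnerProductSpace ℂ V]
    (ρ : Γ →* (V ≃ₗᵢ[ℂ] V)) (v : V) (a b : Γ) :
    ‖ρ (cm a b) v - v‖ ≤ 2 * ‖ρ a v - v‖ + 2 * ‖ρ b v - v‖ := by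
  have hab : ρ (a * b) v = ρ (cm a b) (ρ (b * a) v) := by
    have h0 : a * b = cm a b * (b * a) := by
      simp only [cm]
      group
    conv_lhs => rw [h0, map_mul]
    rfl
  have h1 : ‖ρ (cm a b) v - v‖ ≤ ‖ρ (b * a) v - v‖ + ‖ρ (a * b) v - v‖ := by
    have e : ρ (cm a b) v - v =
        ρ (cm a b) (v - ρ (b * a) v) + (ρ (a * b) v - v) := by
      rw [hab, map_sub]
      abel
    rw [e]
    refine (norm_add_le _ _).trans ?_
    rw [LinearIsometryEquiv.norm_map, norm_sub_rev]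
  have h2 : ∀ x y : Γ, ‖ρ (x * y) v - v‖ ≤ ‖ρ x v - v‖ + ‖ρ y v - v‖ := by
    intro x y
    have e : ρ (x * y) v - v = ρ x (ρ y v - v) + (ρ x v - v) := by
      rw [map_mul, map_sub]
      change ρ x (ρ y v) - v = _
      abel
    rw [e]
    refine (norm_add_le _ _).trans ?_
    rw [LinearIsometryEquiv.norm_map]
    linarith
  have h3 := h2 a b
  have h4 := h2 b a
  linarith

theorem fams_sq {a b x : ℝ} (hx0 : 0 ≤ x) (h : x ≤ 2 * a + 2 * b) :
    x ^ 2 ≤ 8 * a ^ 2 + 8 * b ^ 2 := by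
  have h1 : x ^ 2 ≤ (2 * a + 2 * b) ^ 2 := by
    apply pow_le_pow_left₀ hx0 h
  nlinarith [sq_nonneg (a - b)]

theorem fams_low {X : Type} [Fintype X] {G : Type} [Group G] {r : ℕ} (c : Fin r → G) (Y : X → G)
    (U : Finset X) (l : X → Fin r) (hU1 : ∀ x ∈ U, Y x = c (l x)) (θ : ℝ)
    (hl : ∀ m, θ / (2 * r) ≤ mn (fun x => ind (x ∈ U ∧ l x = m))) (F : G → ℝ)
    (hF : ∀ u, 0 ≤ F u) (u : G) :
    θ / 2 * cav c F u ≤ mn (fun x => ind (x ∈ U) * F (cm (Y x) u)) := by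
  have h1 : ∀ x, ind (x ∈ U) * F (cm (Y x) u) =
      ∑ m : Fin r, F (cm (c m) u) * ind (x ∈ U ∧ l x = m) := by
    intro x
    by_cases hx : x ∈ U
    · rw [Finset.sum_eq_single (l x)]
      · rw [ind_true hx, ind_true ⟨hx, rfl⟩, hU1 x hx, one_mul, mul_one]
      · intro m _ hm
        rw [ind_false (fun h => hm h.2.symm), mul_zero]
      · intro h
        exact absurd (Finset.mem_univ _) h
    · rw [ind_false hx, zero_mul]
      symm
      apply Finset.sum_eq_zero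
      intro m _
      rw [ind_false (fun h => hx h.1), mul_zero]
  have h2 : mn (fun x => ind (x ∈ U) * F (cm (Y x) u)) =
      ∑ m : Fin r, F (cm (c m) u) * mn (fun x => ind (x ∈ U ∧ l x = m)) := by
    simp only [h1]
    rw [mn_sum]
    refine Finset.sum_congr rfl fun m _ => ?_
    rw [mn_mul_left]
  rw [h2]
  have h3 : θ / 2 * cav c F u = ∑ m : Fin r, F (cm (c m) u) * (θ / (2 * r)) := by
    rw [cav, mn, Fintype.card_fin, ← Finset.sum_mul, div_eq_mul_inv θ (2 * (r : ℝ)), mul_inv,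
      div_eq_mul_inv]
    ring
  rw [h3]
  exact Finset.sum_le_sum fun m _ => mul_le_mul_of_nonneg_left (hl m) (hF _)

/-- One step: commutators with the translates of a sparse vector.

Proof. Given `T`, `W`, `H` take `P × T`, `W' (g, t) = cm (wrAct α G g Y) (W t)`,
`H' (g, t) = {x ∈ H t | g⁻¹ x ∈ U}`. Outside `X i` and outside `H'` the commutator is `1`
(`cm_one_left`, `cm_one_right`). `‖ρ (cm a b) v - v‖ ≤ 2 ‖ρ a v - v‖ + 2 ‖ρ b v - v‖`, so the square is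
at most `8 ‖ρ a v - v‖ ^ 2 + 8 ‖ρ b v - v‖ ^ 2` (`mn_prod`, `mn_const`). For `x ∈ A`, `F ≥ 0`:
`ind (x ∈ H' (g, t)) * F (W' (g, t) i x) =
ind (x ∈ H t) * (ind (g⁻¹ x ∈ U) * F (cm (c (l (g⁻¹ x))) (W t i x)))`, and for fixed `u`
`mn_g (ind (g⁻¹ x ∈ U) * F (cm (c (l (g⁻¹ x))) u)) = mn_x' (ind (x' ∈ U) * F (cm (c (l x')) u))`
(`mn_tr`) `= ∑ m, F (cm (c m) u) * mn_x' ind (x' ∈ U ∧ l x' = m) ≥ θ / 2 * cav c F u`
(`r ≠ 0` if there is an `x`). So the mean is `≥ θ / 2 * mn_t (ind (x ∈ H t) * cav c F (W t i x)) ≥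
θ / 2 * w * Ψ (cav c F)` (`cav c F ≥ 0`; `mn_comm`). The pair probability is a product. -/
theorem fam_step {P I : Type} [Group P] [Fintype P] {X : I → Type} [∀ i, Fintype (X i)]
    (α : ∀ i, P →* Equiv.Perm (X i)) (hα : Ind α) (G : I → Type) [∀ i, Group (G i)] (i : I)
    (A : Finset (X i)) {V : Type} [NormedAddCommGroup V] [InnerProductSpace ℂ V]
    (ρ : (∀ i, X i → G i) →* (V ≃ₗᵢ[ℂ] V)) (v : V) {Ψ : (G i → ℝ) → ℝ} {B w p : ℝ}
    (hF : Fam G ρ v i A Ψ B w p) {r : ℕ} (c : Fin r → G i) (Y : ∀ i, X i → G i)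
    (U : Finset (X i)) (l : X i → Fin r) (hU1 : ∀ x ∈ U, Y i x = c (l x))
    (hU2 : ∀ x, x ∉ U → Y i x = 1) (θ : ℝ) (hθ : 0 ≤ θ)
    (hl : ∀ m, θ / (2 * r) ≤ mn (fun x => ind (x ∈ U ∧ l x = m)))
    (hp : ∀ x x' : X i, x ≠ x' →
      mn (fun g : P => ind ((α i g)⁻¹ x ∈ U ∧ (α i g)⁻¹ x' ∈ U)) ≤ 2 * θ ^ 2)
    (B' : ℝ) (hB' : mn (fun g : P => ‖ρ (wrAct α G g Y) v - v‖ ^ 2) ≤ B') :
    Fam G ρ v i A (fun F => Ψ (cav c F)) (8 * B' + 8 * B) (θ / 2 * w) (2 * θ ^ 2 * p) := by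
  classical
  obtain ⟨T, iT, nT, W, H, h1, h2, h3, h4, h5⟩ := hF
  refine ⟨P × T, inferInstance, inferInstance, fun s => cm (wrAct α G s.1 Y) (W s.2),
    fun s => (H s.2).filter (fun x => (α i s.1)⁻¹ x ∈ U), ?_, ?_, ?_, ?_, ?_⟩
  · rintro ⟨g, t⟩ j hj
    funext x
    change cm (wrAct α G g Y j x) (W t j x) = 1
    rw [h1 t j hj]
    exact cm_one_right _
  · rintro ⟨g, t⟩ x hx
    change cm (wrAct α G g Y i x) (W t i x) = 1
    by_cases h : x ∈ H t
    · have h' : (α i g)⁻¹ x ∉ U := fun h' => hx (Finset.mem_filter.2 ⟨h, h'⟩)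
      rw [wrAct_apply, hU2 _ h']
      exact cm_one_left _
    · rw [h2 t x h]
      exact cm_one_right _
  · rw [mn_prod]
    have e1 : mn (fun g : P => mn (fun t : T =>
        ‖ρ (cm (wrAct α G g Y) (W t)) v - v‖ ^ 2)) ≤
        mn (fun g : P => mn (fun t : T =>
          8 * ‖ρ (wrAct α G g Y) v - v‖ ^ 2 + 8 * ‖ρ (W t) v - v‖ ^ 2)) :=
      mn_mono fun g => mn_mono fun t => fams_sq (norm_nonneg _) (fams_norm ρ v _ _)
    refine e1.trans ?_
    have e2 : ∀ g : P, mn (fun t : T =>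
          8 * ‖ρ (wrAct α G g Y) v - v‖ ^ 2 + 8 * ‖ρ (W t) v - v‖ ^ 2) =
        8 * ‖ρ (wrAct α G g Y) v - v‖ ^ 2 + 8 * mn (fun t : T => ‖ρ (W t) v - v‖ ^ 2) := by
      intro g
      rw [mn_add, mn_const, mn_mul_left]
    simp only [e2]
    rw [mn_add, mn_const, mn_mul_left]
    linarith
  · intro x hx F hF0
    have htr : ∀ y z : X i, ∃ p, α i p y = z := fun y z => by
      obtain ⟨p, _, hp1⟩ := hα i y z
      exact ⟨p, hp1⟩
    have e1 : mn (fun s : P × T => ind (x ∈ (H s.2).filter (fun x => (α i s.1)⁻¹ x ∈ U)) *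
        F ((cm (wrAct α G s.1 Y) (W s.2)) i x)) =
        mn (fun t : T => ind (x ∈ H t) * mn (fun y : X i => ind (y ∈ U) *
          F (cm (Y i y) (W t i x)))) := by
      rw [mn_prod, mn_comm]
      congr 1
      funext t
      rw [← mn_tr (α i) htr x (fun y => ind (y ∈ U) * F (cm (Y i y) (W t i x))), ← mn_mul_left]
      congr 1
      funext g
      change ind (x ∈ (H t).filter (fun x => (α i g)⁻¹ x ∈ U)) *
        F (cm (Y i ((α i g)⁻¹ x)) (W t i x)) = _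
      rw [Finset.mem_filter, ind_and, mul_assoc]
    rw [e1]
    have e2 := h4 x hx (cav c F) (fun u => mn_nonneg fun m => hF0 _)
    have e3 : mn (fun t : T => ind (x ∈ H t) * (θ / 2 * cav c F (W t i x))) ≤
        mn (fun t : T => ind (x ∈ H t) * mn (fun y : X i => ind (y ∈ U) *
          F (cm (Y i y) (W t i x)))) :=
      mn_mono fun t => mul_le_mul_of_nonneg_left
        (fams_low c (Y i) U l hU1 θ hl F hF0 (W t i x)) (ind_nonneg _)
    refine le_trans ?_ e3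
    have e4 : mn (fun t : T => ind (x ∈ H t) * (θ / 2 * cav c F (W t i x))) =
        θ / 2 * mn (fun t : T => ind (x ∈ H t) * cav c F (W t i x)) := by
      rw [← mn_mul_left]
      congr 1
      funext t
      ring
    rw [e4, mul_assoc]
    exact mul_le_mul_of_nonneg_left e2 (by linarith)
  · intro x hx x' hx' hne
    have e1 : mn (fun s : P × T => ind (x ∈ (H s.2).filter (fun x => (α i s.1)⁻¹ x ∈ U) ∧
        x' ∈ (H s.2).filter (fun x => (α i s.1)⁻¹ x ∈ U))) =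
        mn (fun g : P => ind ((α i g)⁻¹ x ∈ U ∧ (α i g)⁻¹ x' ∈ U)) *
        mn (fun t : T => ind (x ∈ H t ∧ x' ∈ H t)) := by
      rw [mn_prod, ← mn_mul_right]
      congr 1
      funext g
      rw [← mn_mul_left]
      congr 1
      funext t
      change ind (x ∈ (H t).filter (fun x => (α i g)⁻¹ x ∈ U) ∧
        x' ∈ (H t).filter (fun x => (α i g)⁻¹ x ∈ U)) = _
      rw [Finset.mem_filter, Finset.mem_filter, ← ind_and]
      congr 1
      apply propext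
      tauto
    rw [e1]
    have e2 := hp x x' hne
    have e3 := h5 x hx x' hx' hne
    have e4 : 0 ≤ mn (fun t : T => ind (x ∈ H t ∧ x' ∈ H t)) :=
      mn_nonneg fun t => ind_nonneg _
    exact mul_le_mul e2 e3 e4 (by positivity)

end Pool.Agent.MPfe8e9bV
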