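import Mathlib
import Pool.Agent.Lib.MP_fe8e9b_al_V.Defs

/-!
# MP_fe8e9b_al, wreath products over sets of large degree: the first family
-/

set_option autoImplicit false

open scoped BigOperators

namespace Pool.Agent.MPfe8e9bV

open Pool.Agent.MPfe8e9b Pool.Agent.MPfe8e9bA Pool.Agent.MPfe8e9bW

/-- the letters of a quotient of translates -/
theorem famz_val {I P : Type} [Group P] {X : I → Type}
    (α : ∀ i, P →* Equiv.Perm (X i)) (G : I → Type) [∀ i, Group (G i)] (i : I)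
    (Y : ∀ i, X i → G i) (g σ : P) (x : X i) :
    (wrAct α G g Y * (wrAct α G (σ * g) Y)⁻¹) i x =
      Y i ((α i g)⁻¹ x) * (Y i ((α i g)⁻¹ ((α i σ)⁻¹ x)))⁻¹ := by
  have h : (α i (σ * g))⁻¹ x = (α i g)⁻¹ ((α i σ)⁻¹ x) := by
    rw [map_mul, mul_inv_rev]
    rfl
  rw [← h]
  rfl

/-- the value at a point, bounded by the labels -/
theorem famz_lab {G : Type} [Group G] {q : ℕ} (y : Fin q → G) (a b : Option (Fin q)) (F : G → ℝ)
    (hF : ∀ u, 0 ≤ F u) :
    ∑ j, ind (a = some j) * (ind (b = none) * F (y j)) ≤ F (a.elim 1 y * (b.elim 1 y)⁻¹) := by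
  by_cases hb : b = none
  · subst hb
    rcases a with _ | j0
    · have h0 : ∑ j, ind ((none : Option (Fin q)) = some j) *
          (ind ((none : Option (Fin q)) = none) * F (y j)) = 0 := by
        refine Finset.sum_eq_zero fun j _ => ?_
        rw [ind_false (by simp), zero_mul]
      rw [h0]
      exact hF _
    · have h1 : ∑ j, ind (some j0 = some j) * (ind ((none : Option (Fin q)) = none) * F (y j)) =
          F (y j0) := by
        rw [Finset.sum_eq_single j0]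
        · rw [ind_true rfl, ind_true rfl, one_mul, one_mul]
        · intro j _ hj
          rw [ind_false (fun h => hj (Option.some.inj h).symm), zero_mul]
        · intro h
          exact absurd (Finset.mem_univ _) h
      rw [h1]
      simp
  · have h0 : ∑ j, ind (a = some j) * (ind (b = none) * F (y j)) = 0 := by
      refine Finset.sum_eq_zero fun j _ => ?_
      rw [ind_false hb, zero_mul, mul_zero]
    rw [h0]
    exact hF _

/-- the displacement of a quotient -/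
theorem famz_disp {M V : Type} [Group M] [NormedAddCommGroup V] [InnerProductSpace ℂ V]
    (ρ : M →* (V ≃ₗᵢ[ℂ] V)) (a b : M) (v : V) :
    ‖ρ (a * b⁻¹) v - v‖ ^ 2 ≤ 2 * ‖ρ a v - v‖ ^ 2 + 2 * ‖ρ b v - v‖ ^ 2 := by
  have h1 : ρ (a * b⁻¹) v - v = ρ a (ρ b⁻¹ v - v) + (ρ a v - v) := by
    rw [map_mul, map_sub]
    change ρ a (ρ b⁻¹ v) - v = _
    abel
  have h2 : ‖ρ b⁻¹ v - v‖ = ‖ρ b v - v‖ := by
    have h3 : ρ b (ρ b⁻¹ v - v) = v - ρ b v := by
      rw [map_sub]
      congr 1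
      change (ρ b * ρ b⁻¹) v = v
      rw [← map_mul, mul_inv_cancel, map_one]
      rfl
    rw [← (ρ b).norm_map, h3, norm_sub_rev]
  have h4 : ‖ρ (a * b⁻¹) v - v‖ ≤ ‖ρ b v - v‖ + ‖ρ a v - v‖ := by
    rw [h1]
    refine (norm_add_le _ _).trans ?_
    rw [(ρ a).norm_map, h2]
  have h5 : 0 ≤ ‖ρ (a * b⁻¹) v - v‖ := norm_nonneg _
  nlinarith [sq_nonneg (‖ρ b v - v‖ - ‖ρ a v - v‖), norm_nonneg (ρ b v - v),
    norm_nonneg (ρ a v - v)]

/-- the mean displacement of the quotients -/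
theorem famz_mean {P M V : Type} [Group P] [Fintype P] [Group M] [NormedAddCommGroup V]
    [InnerProductSpace ℂ V] (K : Subgroup P) [Fintype K] (w : P → M) (ρ : M →* (V ≃ₗᵢ[ℂ] V))
    (v : V) (δ : ℝ) (hδ : mn (fun g : P => ‖ρ (w g) v - v‖ ^ 2) ≤ δ) :
    mn (fun t : P × K => ‖ρ (w t.1 * (w ((t.2 : P) * t.1))⁻¹) v - v‖ ^ 2) ≤ 4 * δ := by
  have hd : ∀ t : P × K, ‖ρ (w t.1 * (w ((t.2 : P) * t.1))⁻¹) v - v‖ ^ 2 ≤
      2 * ‖ρ (w t.1) v - v‖ ^ 2 + 2 * ‖ρ (w ((t.2 : P) * t.1)) v - v‖ ^ 2 :=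
    fun t => famz_disp ρ _ _ v
  refine (mn_mono hd).trans ?_
  generalize hf : (fun g : P => ‖ρ (w g) v - v‖ ^ 2) = f at hδ
  have hf' : ∀ g : P, ‖ρ (w g) v - v‖ ^ 2 = f g := fun g => congrFun hf g
  simp only [hf']
  rw [mn_add, mn_mul_left, mn_mul_left, mn_prod, mn_prod]
  have h1 : mn (fun t : P => mn (fun _ : K => f t)) ≤ δ := by
    refine le_trans (mn_mono (fun t => ?_)) hδ
    exact (mn_const _).le
  have h2 : mn (fun t : P => mn (fun s : K => f ((s : P) * t))) ≤ δ := by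
    rw [mn_comm]
    refine mn_le fun s => ?_
    exact (le_of_eq (mn_equiv (Equiv.mulLeft (s : P)) f)).trans hδ
  have h3 : 2 * mn (fun t : P => mn (fun _ : K => f t)) +
      2 * mn (fun t : P => mn (fun s : K => f ((s : P) * t))) ≤ 4 * δ := by linarith
  exact h3

/-- The first family: the differences of the translates of an equidistributed vector.

Proof. `T = P × Ki α i` (`Fintype.ofFinite` for the subgroup),
`W (g, σ) = wrAct α G g Y * (wrAct α G (σ * g) Y)⁻¹`, `H = univ`. For `j ≠ i`, `α j (σ * g) = α j g`,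
so `W j = 1`. `‖ρ (a * b⁻¹) v - v‖ ≤ ‖ρ b⁻¹ v - v‖ + ‖ρ a v - v‖`, `‖ρ b⁻¹ v - v‖ = ‖ρ b v - v‖`, and
`g ↦ σ * g` is a bijection of `P`, so the mean of the squares is at most `2 δ + 2 δ`.
With the labels `lam` of `Frq`: `W (g, σ) i x = y j` if `lam (g⁻¹ x) = some j` and
`lam (g⁻¹ (σ⁻¹ x)) = none`. So
`F (W i x) ≥ ∑ j, ind (lam (g⁻¹ x) = some j) * ind (lam (g⁻¹ (σ⁻¹ x)) = none) * F (y j)`. For fixed `g`
the mean over `σ` of the second indicator is `mn_x' ind (lam (g⁻¹ x') = none)` (`mn_tr` for the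
transitive action of `Ki α i`) `= mn ind (lam = none) ≥ 1/4` (`mn_equiv`), and the mean over `g` of
the first is `≥ 1 / (4 q)` (`mn_tr` for `P`). The sum is `≥ 1/16 * mn_j F (y j)`. -/
theorem fam_zero {P I : Type} [Group P] [Fintype P] {X : I → Type} [∀ i, Fintype (X i)]
    (α : ∀ i, P →* Equiv.Perm (X i)) (hα : Ind α) (G : I → Type) [∀ i, Group (G i)] (i : I)
    {q : ℕ} (hq : 0 < q) (y : Fin q → G i) (Y : ∀ i, X i → G i) (hY : Frq y (Y i)) {V : Type}
    [NormedAddCommGroup V] [InnerProductSpace ℂ V] (ρ : (∀ i, X i → G i) →* (V ≃ₗᵢ[ℂ] V)) (v : V)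
    (δ : ℝ) (hδ : mn (fun g : P => ‖ρ (wrAct α G g Y) v - v‖ ^ 2) ≤ δ) (A : Finset (X i)) :
    Fam G ρ v i A (fun F => mn (fun j => F (y j))) (4 * δ) (1 / 16) 1 := by
  classical
  obtain ⟨lam, hlam, hj, hn⟩ := hY
  have : Fintype (Ki α i) := Fintype.ofFinite _
  refine ⟨P × Ki α i, inferInstance, inferInstance,
    fun t => wrAct α G t.1 Y * (wrAct α G ((t.2 : P) * t.1) Y)⁻¹, fun _ => Finset.univ,
    ?_, ?_, ?_, ?_, ?_⟩
  · rintro ⟨g, σ⟩ j hji
    funext x
    have h1 : α j ((σ : P)) = 1 := σ.2 j hji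
    refine (famz_val α G j Y g σ x).trans ?_
    rw [h1]
    simp
  · intro t x hx
    exact absurd (Finset.mem_univ _) hx
  · exact famz_mean (Ki α i) (fun g => wrAct α G g Y) ρ v δ hδ
  · intro x _ F hF
    have hY' : ∀ t : P × Ki α i, ∑ j, ind (lam ((α i t.1)⁻¹ x) = some j) *
        (ind (lam ((α i t.1)⁻¹ ((α i (t.2 : P))⁻¹ x)) = none) * F (y j)) ≤
        ind (x ∈ (Finset.univ : Finset (X i))) *
          F ((wrAct α G t.1 Y * (wrAct α G ((t.2 : P) * t.1) Y)⁻¹) i x) := by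
      intro t
      rw [ind_true (Finset.mem_univ _), one_mul, famz_val, hlam, hlam]
      exact famz_lab y _ _ F hF
    refine le_trans ?_ (mn_mono hY')
    rw [mn_sum]
    have htr : ∀ x₁ x₂ : X i, ∃ p : Ki α i, ((α i).comp (Ki α i).subtype) p x₁ = x₂ := by
      intro x₁ x₂
      obtain ⟨p, hp, hx⟩ := hα i x₁ x₂
      exact ⟨⟨p, hp⟩, hx⟩
    have htr' : ∀ x₁ x₂ : X i, ∃ p : P, α i p x₁ = x₂ := by
      intro x₁ x₂
      obtain ⟨p, _, hx⟩ := hα i x₁ x₂
      exact ⟨p, hx⟩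
    have hσ : ∀ g : P, 1 / 4 ≤ mn (fun σ : Ki α i =>
        ind (lam ((α i g)⁻¹ ((α i (σ : P))⁻¹ x)) = none)) := by
      intro g
      have h1 := mn_tr ((α i).comp (Ki α i).subtype) htr x
        (fun x' => ind (lam ((α i g)⁻¹ x') = none))
      have h2 := mn_equiv ((α i g)⁻¹) (fun x' => ind (lam x' = none))
      refine hn.trans (le_of_eq ?_)
      exact h2.symm.trans h1.symm
    have hterm : ∀ j : Fin q, 1 / (4 * (q : ℝ)) * (1 / 4) * F (y j) ≤
        mn (fun t : P × Ki α i => ind (lam ((α i t.1)⁻¹ x) = some j) *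
          (ind (lam ((α i t.1)⁻¹ ((α i (t.2 : P))⁻¹ x)) = none) * F (y j))) := by
      intro j
      rw [mn_prod]
      have h1 : mn (fun g : P => ind (lam ((α i g)⁻¹ x) = some j) * (1 / 4 * F (y j))) ≤
          mn (fun g : P => mn (fun s : Ki α i => ind (lam ((α i g)⁻¹ x) = some j) *
            (ind (lam ((α i g)⁻¹ ((α i (s : P))⁻¹ x)) = none) * F (y j)))) := by
        refine mn_mono fun g => ?_
        rw [mn_mul_left, mn_mul_right]
        exact mul_le_mul_of_nonneg_left (mul_le_mul_of_nonneg_right (hσ g) (hF _))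
          (ind_nonneg _)
      refine le_trans ?_ h1
      rw [mn_mul_right, mn_tr (α i) htr' x (fun x' => ind (lam x' = some j)), mul_assoc]
      exact mul_le_mul_of_nonneg_right (hj j) (mul_nonneg (by norm_num) (hF _))
    refine le_trans (le_of_eq ?_) (Finset.sum_le_sum fun j _ => hterm j)
    rw [← Finset.mul_sum]
    change 1 / 16 * ((Fintype.card (Fin q) : ℝ)⁻¹ * ∑ j, F (y j)) = _
    rw [Fintype.card_fin]
    have hq' : (q : ℝ) ≠ 0 := by exact_mod_cast hq.ne'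
    field_simp
    ring
  · intro x _ x' _ _
    exact mn_le fun t => ind_le_one _

end Pool.Agent.MPfe8e9bV
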