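import Mathlib
import Pool.Agent.Lib.MP_fe8e9b_al_V.Defs
import Pool.Agent.Lib.MP_fe8e9b_al_V.FamZ
import Pool.Agent.Lib.MP_fe8e9b_al_V.FamS
import Pool.Agent.Lib.MP_fe8e9b_al_V.FamE

/-!
# MP_fe8e9b_al, wreath products over sets of large degree: five steps
-/

set_option autoImplicit false

open scoped BigOperators

namespace Pool.Agent.MPfe8e9bV

open Pool.Agent.MPfe8e9b Pool.Agent.MPfe8e9bA Pool.Agent.MPfe8e9bW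

/-- Five steps.

Proof. `fam_zero`, five times `fam_step` with `B' = 16 * δ'` where `δ' = δ * ‖v‖ ^ 2`:
`B₀ = 4 δ'`, `B_{k+1} = 128 δ' + 8 B_k`, `B₅ = 730240 δ' ≤ 10 ^ 6 δ'`; `w₅ = (θ / 2) ^ 5 / 16`,
`p₅ = (2 θ ^ 2) ^ 5`; the functional is `F ↦ mn_j (cav c)^[5] F (y j)`. `fam_end`:
`card A * ((θ/2)^5 / 16 * m - 4 card A (2 θ^2)^5) ‖v‖ ^ 2 ≤ 10 ^ 6 * δ * ‖v‖ ^ 2`. -/
theorem fam_five {P I : Type} [Group P] [Fintype P] [Finite I] {X : I → Type}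
    [∀ i, Fintype (X i)]
    (α : ∀ i, P →* Equiv.Perm (X i)) (hα : Ind α) (G : I → Type) [∀ i, Group (G i)] (i : I)
    {q : ℕ} (hq : 0 < q) (y : Fin q → G i) (Y₀ : ∀ i, X i → G i) (hY₀ : Frq y (Y₀ i))
    {r : ℕ} (c : Fin r → G i) (Y : ∀ i, X i → G i)
    (U : Finset (X i)) (l : X i → Fin r) (hU1 : ∀ x ∈ U, Y i x = c (l x))
    (hU2 : ∀ x, x ∉ U → Y i x = 1) (θ : ℝ) (hθ : 0 ≤ θ)
    (hl : ∀ m, θ / (2 * r) ≤ mn (fun x => ind (x ∈ U ∧ l x = m)))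
    (hp : ∀ x x' : X i, x ≠ x' →
      mn (fun g : P => ind ((α i g)⁻¹ x ∈ U ∧ (α i g)⁻¹ x' ∈ U)) ≤ 2 * θ ^ 2)
    {V : Type} [NormedAddCommGroup V] [InnerProductSpace ℂ V]
    (ρ : (∀ i, X i → G i) →* (V ≃ₗᵢ[ℂ] V)) (v : V) (A : Finset (X i))
    (hfix : ∀ x, x ∉ A → ∀ a, ρ (sgl G i x a) v = v) (δ : ℝ)
    (hδ₀ : mn (fun g : P => ‖ρ (wrAct α G g Y₀) v - v‖ ^ 2) ≤ δ * ‖v‖ ^ 2)
    (hδ : mn (fun g : P => ‖ρ (wrAct α G g Y) v - v‖ ^ 2) ≤ 16 * (δ * ‖v‖ ^ 2)) (m : ℝ)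
    (hm : ∀ x ∈ A, m * ‖v‖ ^ 2 ≤
      mn (fun j => (cav c)^[5] (fun u => ‖ρ (sgl G i x u) v - v‖ ^ 2) (y j))) :
    (A.card : ℝ) * ((θ / 2) ^ 5 / 16 * m - 4 * (A.card : ℝ) * (2 * θ ^ 2) ^ 5) * ‖v‖ ^ 2 ≤
      10 ^ 6 * (δ * ‖v‖ ^ 2) := by
  classical
  have hpos : 0 ≤ δ * ‖v‖ ^ 2 := (mn_nonneg fun g => sq_nonneg _).trans hδ₀
  have f0 := fam_zero α hα G i hq y Y₀ hY₀ ρ v (δ * ‖v‖ ^ 2) hδ₀ A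
  have f1 := fam_step α hα G i A ρ v f0 c Y U l hU1 hU2 θ hθ hl hp (16 * (δ * ‖v‖ ^ 2)) hδ
  have f2 := fam_step α hα G i A ρ v f1 c Y U l hU1 hU2 θ hθ hl hp (16 * (δ * ‖v‖ ^ 2)) hδ
  have f3 := fam_step α hα G i A ρ v f2 c Y U l hU1 hU2 θ hθ hl hp (16 * (δ * ‖v‖ ^ 2)) hδ
  have f4 := fam_step α hα G i A ρ v f3 c Y U l hU1 hU2 θ hθ hl hp (16 * (δ * ‖v‖ ^ 2)) hδ
  have f5 := fam_step α hα G i A ρ v f4 c Y U l hU1 hU2 θ hθ hl hp (16 * (δ * ‖v‖ ^ 2)) hδ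
  have hE := fam_end G ρ v i A hfix f5 (by positivity) (by positivity) m hm
  have e1 : θ / 2 * (θ / 2 * (θ / 2 * (θ / 2 * (θ / 2 * (1 / 16))))) = (θ / 2) ^ 5 / 16 := by ring
  have e2 : 2 * θ ^ 2 * (2 * θ ^ 2 * (2 * θ ^ 2 * (2 * θ ^ 2 * (2 * θ ^ 2 * 1)))) =
      (2 * θ ^ 2) ^ 5 := by ring
  rw [e1, e2] at hE
  refine hE.trans ?_
  generalize δ * ‖v‖ ^ 2 = d at hpos ⊢
  linarith

end Pool.Agent.MPfe8e9bV
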