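import Mathlib
import Pool.Agent.Lib.MP_fe8e9b_al_V.Defs
import Pool.Agent.Lib.MP_fe8e9b_al_W.Fr
import Pool.Agent.Lib.MP_fe8e9b_al_V.Irr

/-!
# MP_fe8e9b_al, wreath products over sets of large degree: the tracial lemma
-/

set_option autoImplicit false

open scoped BigOperators

namespace Pool.Agent.MPfe8e9bV

open Pool.Agent.MPfe8e9b Pool.Agent.MPfe8e9bA Pool.Agent.MPfe8e9bW

/-- Translations of both indices, as permutations. -/
def ttP (G : Type) [Group G] : (G × G) →* Equiv.Perm (G × G) where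
  toFun c :=
    { toFun := fun p => (p.1 * c.1⁻¹, p.2 * c.2⁻¹)
      invFun := fun p => (p.1 * c.1, p.2 * c.2)
      left_inv := fun p => by simp
      right_inv := fun p => by simp }
  map_one' := by
    ext p <;> simp
  map_mul' a b := by
    ext p <;> simp [mul_assoc]

/-- Translations of both indices, as a representation of `G × G`. -/
noncomputable def tt (G : Type) [Group G] [Fintype G] :
    G × G →* (EuclideanSpace ℂ (G × G) ≃ₗᵢ[ℂ] EuclideanSpace ℂ (G × G)) := prm (ttP G)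

theorem tt_apply (G : Type) [Group G] [Fintype G] (c : G × G) (x : EuclideanSpace ℂ (G × G))
    (a b : G) : tt G c x (a, b) = x (a * c.1, b * c.2) := by
  rw [tt, prm_apply]
  rfl

theorem lm_eq_tt (G : Type) [Group G] [Fintype G] (c : G) (x : EuclideanSpace ℂ (G × G)) :
    lm G c x = tt G (c, 1) x := by
  ext ⟨a, b⟩
  rw [lm_apply, tt_apply, mul_one]

theorem ad_eq_tt (G : Type) [Group G] [Fintype G] (c : G) (x : EuclideanSpace ℂ (G × G)) :
    ad G c x = tt G (c, c) x := by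
  ext ⟨a, b⟩
  rw [ad_apply, tt_apply]

theorem cav_mono {G : Type} [Group G] {L : Type} [Fintype L] (c : L → G) {F F' : G → ℝ}
    (h : ∀ u, F u ≤ F' u) (u : G) : cav c F u ≤ cav c F' u := mn_mono fun _ => h _

theorem trc_cav_iter_mono {G : Type} [Group G] {L : Type} [Fintype L] (c : L → G)
    {F F' : G → ℝ} (h : ∀ u, F u ≤ F' u) (n : ℕ) (u : G) :
    (cav c)^[n] F u ≤ (cav c)^[n] F' u := by
  induction n generalizing u with
  | zero => exact h u
  | succ n ih =>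
    rw [Function.iterate_succ_apply', Function.iterate_succ_apply']
    exact cav_mono c ih u

theorem trc_cav_smul {G : Type} [Group G] {L : Type} [Fintype L] (c : L → G) (a : ℝ)
    (F : G → ℝ) (u : G) : cav c (fun v => a * F v) u = a * cav c F u := mn_mul_left _ _

theorem trc_cav_add {G : Type} [Group G] {L : Type} [Fintype L] (c : L → G)
    (F F' : G → ℝ) : cav c (fun v => F v + F' v) = fun u => cav c F u + cav c F' u := by
  funext u
  exact mn_add _ _

theorem trc_cav_iter_add {G : Type} [Group G] {L : Type} [Fintype L] (c : L → G)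
    (F F' : G → ℝ) (n : ℕ) :
    (cav c)^[n] (fun v => F v + F' v) = fun u => (cav c)^[n] F u + (cav c)^[n] F' u := by
  induction n with
  | zero => rfl
  | succ n ih =>
    rw [Function.iterate_succ_apply', ih, Function.iterate_succ_apply',
      Function.iterate_succ_apply']
    exact trc_cav_add c _ _

theorem trc_cav_iter_nonneg {G : Type} [Group G] {L : Type} [Fintype L] (c : L → G)
    {F : G → ℝ} (h : ∀ u, 0 ≤ F u) (n : ℕ) (u : G) : 0 ≤ (cav c)^[n] F u := by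
  induction n generalizing u with
  | zero => exact h u
  | succ n ih =>
    rw [Function.iterate_succ_apply']
    exact mn_nonneg fun _ => ih _

theorem trc_iter {G : Type} [Group G] {L : Type} [Fintype L] (c : L → G) {a : ℝ} (ha : 0 ≤ a)
    {D : G → ℝ} (h : ∀ u, a * D u ≤ cav c D u) (n : ℕ) (u : G) :
    a ^ n * D u ≤ (cav c)^[n] D u := by
  induction n generalizing u with
  | zero => simp
  | succ n ih =>
    rw [Function.iterate_succ_apply']
    calc a ^ (n + 1) * D u = a ^ n * (a * D u) := by ring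
      _ ≤ a ^ n * cav c D u := mul_le_mul_of_nonneg_left (h u) (pow_nonneg ha n)
      _ = cav c (fun v => a ^ n * D v) u := (trc_cav_smul c _ _ _).symm
      _ ≤ cav c ((cav c)^[n] D) u := cav_mono c ih u

theorem trc_norm_sub_av {H : Type} [Group H] [Fintype H] {V : Type} [NormedAddCommGroup V]
    [InnerProductSpace ℂ V] (ρ : H →* (V ≃ₗᵢ[ℂ] V)) (v : V) : ‖v - av ρ v‖ ^ 2 ≤ ‖v‖ ^ 2 := by
  have h1 : inner ℂ (av ρ v) (v - av ρ v) = 0 := by
    rw [av_symm ρ v (v - av ρ v), map_sub, av_idem, sub_self, inner_zero_right]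
  have h2 : ‖av ρ v + (v - av ρ v)‖ ^ 2 = ‖av ρ v‖ ^ 2 + ‖v - av ρ v‖ ^ 2 := by
    have := norm_add_sq_eq_norm_sq_add_norm_sq_of_inner_eq_zero (av ρ v) (v - av ρ v) h1
    rw [pow_two, pow_two, pow_two]
    exact this
  rw [add_sub_cancel] at h2
  rw [h2]
  have := sq_nonneg ‖av ρ v‖
  linarith

/-- Distance to the multiples of a vector. -/
theorem trc_dist {V : Type} [NormedAddCommGroup V] [InnerProductSpace ℂ V] {x X : V}
    (hx : x ≠ 0) (hX : ‖X‖ = ‖x‖) : ∃ D : ℝ, 0 ≤ D ∧ (∀ z : ℂ, D ≤ ‖X - z • x‖ ^ 2) ∧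
      ∃ z : ℂ, ‖z‖ = 1 ∧ ‖X - z • x‖ ^ 2 ≤ 2 * D := by
  have hN : (0 : ℝ) < ‖x‖ ^ 2 := by
    have := norm_pos_iff.2 hx
    positivity
  obtain ⟨a, ha⟩ : ∃ a : ℂ, a = inner ℂ x X / ((‖x‖ ^ 2 : ℝ) : ℂ) := ⟨_, rfl⟩
  have hN' : ((‖x‖ ^ 2 : ℝ) : ℂ) ≠ 0 := by exact_mod_cast hN.ne'
  have h1 : inner ℂ x (X - a • x) = 0 := by
    rw [inner_sub_right, inner_smul_right, inner_self_eq_norm_sq_to_K, ha]
    have e : ((‖x‖ : ℂ)) ^ 2 = ((‖x‖ ^ 2 : ℝ) : ℂ) := by push_cast; rfl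
    change inner ℂ x X - inner ℂ x X / ((‖x‖ ^ 2 : ℝ) : ℂ) * ((‖x‖ : ℂ)) ^ 2 = 0
    rw [e, div_mul_cancel₀ _ hN', sub_self]
  have key : ∀ z : ℂ, ‖X - z • x‖ ^ 2 = ‖X - a • x‖ ^ 2 + ‖a - z‖ ^ 2 * ‖x‖ ^ 2 := by
    intro z
    have e1 : X - z • x = (X - a • x) + (a - z) • x := by
      rw [sub_smul]
      abel
    have e2 : inner ℂ (X - a • x) ((a - z) • x) = 0 := by
      rw [inner_smul_right, inner_eq_zero_symm.1 h1, mul_zero]
    have e3 := norm_add_sq_eq_norm_sq_add_norm_sq_of_inner_eq_zero _ _ e2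
    rw [e1, pow_two, e3, norm_smul]
    ring
  have h2 : ‖x‖ ^ 2 = ‖X - a • x‖ ^ 2 + ‖a‖ ^ 2 * ‖x‖ ^ 2 := by
    have h3 := key 0
    rw [zero_smul, sub_zero, sub_zero, hX] at h3
    exact h3
  have ha1 : ‖a‖ ^ 2 ≤ 1 := by
    have h3 := sq_nonneg ‖X - a • x‖
    by_contra h4
    push Not at h4
    nlinarith
  have ha2 : ‖a‖ ≤ 1 := by
    have := norm_nonneg a
    nlinarith
  refine ⟨‖X - a • x‖ ^ 2, sq_nonneg _, fun z => ?_, ?_⟩
  · rw [key z]
    have := mul_nonneg (sq_nonneg ‖a - z‖) hN.le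
    linarith
  · have h5 : ∃ z : ℂ, ‖z‖ = 1 ∧ ‖a - z‖ = 1 - ‖a‖ := by
      by_cases h0 : a = 0
      · refine ⟨1, norm_one, ?_⟩
        rw [h0, zero_sub, norm_neg, norm_one, norm_zero, sub_zero]
      · have hpos : 0 < ‖a‖ := norm_pos_iff.2 h0
        have hne : ((‖a‖ : ℝ) : ℂ) ≠ 0 := by exact_mod_cast hpos.ne'
        refine ⟨a / ((‖a‖ : ℝ) : ℂ), ?_, ?_⟩
        · rw [norm_div, Complex.norm_real, norm_norm, div_self hpos.ne']
        · have e : a - a / ((‖a‖ : ℝ) : ℂ) = -((((1 - ‖a‖) : ℝ) : ℂ) * (a / ((‖a‖ : ℝ) : ℂ))) := by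
            push_cast
            field_simp
            ring
          rw [e, norm_neg, norm_mul, norm_div, Complex.norm_real, Complex.norm_real, norm_norm,
            div_self hpos.ne', mul_one, Real.norm_eq_abs, abs_of_nonneg (by linarith)]
    obtain ⟨z, hz, hz'⟩ := h5
    refine ⟨z, hz, ?_⟩
    rw [key z, hz']
    have h6 : ‖X - a • x‖ ^ 2 = (1 - ‖a‖ ^ 2) * ‖x‖ ^ 2 := by linarith
    rw [h6]
    have h7 : (1 - ‖a‖) ^ 2 ≤ 1 - ‖a‖ ^ 2 := by
      have := norm_nonneg a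
      nlinarith
    have h8 := mul_le_mul_of_nonneg_right h7 hN.le
    linarith

theorem trc_tt_mul (G : Type) [Group G] [Fintype G] (c d : G × G)
    (x : EuclideanSpace ℂ (G × G)) : tt G c (tt G d x) = tt G (c * d) x := by
  rw [map_mul]
  rfl

/-- The tracial lemma in a minimal invariant subspace.

Proof. Let `x ≠ 0`; both sides are homogeneous of degree two, so assume `‖x‖ = 1`. Put
`X u = lm G u x = tt G (u, 1) x ∈ U`, `R u = tt G (1, u⁻¹)` (isometric). Since `ad G h x = x`: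
`ad G c (X u) = X (c * u * c⁻¹)`, `R u (X w) = X (w * u)`, so `R u (X (cm c u)) = X (c * u * c⁻¹)`
and `R u x = X u`; hence `‖X (cm c u) - z • x‖ = ‖ad G c (X u) - z • X u‖` for all `z`.
`av (ad G) (X u) = T x` with `T = (card G)⁻¹ • ∑ h, lm G (h * u * h⁻¹)`, a linear map which
commutes with all `tt G γ` (with `tt G (g, 1)` since it is a class sum, with `tt G (1, g)` trivially)
and maps `U` to `U`; by `schur` `av (ad G) (X u) = z u • x`.
Let `D u = 1 - ‖inner ℂ x (X u)‖ ^ 2`. (1) `D u ≤ ‖X u - z • x‖ ^ 2` for all `z`. (2) There is `z`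
with `‖z‖ = 1` and `‖X u - z • x‖ ^ 2 ≤ 2 * D u` (with `a = inner ℂ x (X u)`, `z = a / ‖a‖` or `z = 1`
if `a = 0`: `‖X u - z • x‖ ^ 2 = 2 - 2 ‖a‖ ≤ 2 (1 - ‖a‖ ^ 2)`, `‖a‖ ≤ 1`). (3) The vector
`w = X u - av (ad G) (X u)` has `av (ad G) w = 0` and
`ad G c w - z • w = (1 - av) (ad G c (X u) - z • X u)`, so `hc` gives
`κ₁ * D u ≤ κ₁ * ‖w‖ ^ 2 ≤ mn_l ‖ad G (c l) (X u) - z l • X u‖ ^ 2 = mn_l ‖X (cm (c l) u) - z l • x‖ ^ 2
≤ 2 * cav c D u`, where `z l` is from (2) for `cm (c l) u`. Hence `(κ₁ / 2) ^ 5 * D ≤ (cav c)^[5] D`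
(`cav_mono`), and `D ≤ F` with `F u = ‖X u - x‖ ^ 2` by (1), so `(κ₁ / 2) ^ 5 * D ≤ (cav c)^[5] F`.
(4) `hy` for `lm G`, the vector `x` and the `z j` of (2) for `y j`:
`1/1024 ≤ mn_j ‖X (y j) - z j • x‖ ^ 2 ≤ 2 * mn_j D (y j)`. -/
theorem trc_min {κ₁ : ℝ} (hκ₁ : 0 ≤ κ₁) {G : Type} [Group G] [Fintype G] {L J : Type}
    [Fintype L] [Fintype J] {c : L → G} (hc : PG c κ₁) {y : J → G} (hy : PG y (1 / 1024))
    (U : Submodule ℂ (EuclideanSpace ℂ (G × G))) (hU : MinS (tt G) U)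
    (x : EuclideanSpace ℂ (G × G)) (hxU : x ∈ U) (hx : ∀ h, ad G h x = x)
    (h0 : av (lm G) x = 0) :
    mu κ₁ * ‖x‖ ^ 2 ≤ mn (fun j => (cav c)^[5] (fun u => ‖lm G u x - x‖ ^ 2) (y j)) := by
  have hFnn : 0 ≤ mn (fun j => (cav c)^[5] (fun u => ‖lm G u x - x‖ ^ 2) (y j)) :=
    mn_nonneg fun _ => trc_cav_iter_nonneg c (fun _ => sq_nonneg _) 5 _
  by_cases hx0 : x = 0
  · rw [hx0, norm_zero]
    rw [hx0] at hFnn
    simpa using hFnn
  -- the orbit
  have hD : ∀ u : G, ∃ D : ℝ, 0 ≤ D ∧ (∀ z : ℂ, D ≤ ‖lm G u x - z • x‖ ^ 2) ∧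
      ∃ z : ℂ, ‖z‖ = 1 ∧ ‖lm G u x - z • x‖ ^ 2 ≤ 2 * D := fun u =>
    trc_dist hx0 (LinearIsometryEquiv.norm_map _ _)
  choose D hD0 hD1 z hz hz2 using hD
  have hinv : ∀ h : G, tt G (h, h) x = x := fun h => by
    rw [← ad_eq_tt]
    exact hx h
  have hconj : ∀ h u : G, ad G h (lm G u x) = lm G (h * u * h⁻¹) x := by
    intro h u
    rw [ad_eq_tt, lm_eq_tt, lm_eq_tt, trc_tt_mul]
    conv_rhs => rw [← hinv h, trc_tt_mul]
    congr 2
    simp
  have hR : ∀ u w : G, tt G (1, u⁻¹) (lm G w x) = lm G (w * u) x := by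
    intro u w
    rw [lm_eq_tt, lm_eq_tt, trc_tt_mul]
    conv_rhs => rw [← hinv u⁻¹, trc_tt_mul]
    congr 2
    simp
  have hR1 : ∀ u : G, tt G (1, u⁻¹) x = lm G u x := by
    intro u
    have h1 := hR u 1
    rw [map_one, one_mul] at h1
    exact h1
  have hnorm : ∀ (l : L) (u : G) (ζ : ℂ), ‖ad G (c l) (lm G u x) - ζ • lm G u x‖ ^ 2 =
      ‖lm G (cm (c l) u) x - ζ • x‖ ^ 2 := by
    intro l u ζ
    have e : ad G (c l) (lm G u x) - ζ • lm G u x =
        tt G (1, u⁻¹) (lm G (cm (c l) u) x - ζ • x) := by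
      rw [map_sub, map_smul, hR, hR1, hconj]
      congr 3
      simp [cm]
    rw [e, LinearIsometryEquiv.norm_map]
  -- Schur's lemma
  have hsch : ∀ u : G, ∃ ζ : ℂ, av (ad G) (lm G u x) = ζ • x := by
    intro u
    let T : EuclideanSpace ℂ (G × G) →ₗ[ℂ] EuclideanSpace ℂ (G × G) :=
      ((Fintype.card G : ℂ))⁻¹ • ∑ h : G,
        (lm G (h * u * h⁻¹)).toLinearEquiv.toLinearMap
    have hT : ∀ v, T v = ((Fintype.card G : ℂ))⁻¹ • ∑ h : G, lm G (h * u * h⁻¹) v := by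
      intro v
      simp [T, LinearMap.sum_apply]
    obtain ⟨ζ, hζ⟩ := schur (tt G) U hU T (by
      intro γ v
      rw [hT, hT, map_smul, map_sum]
      congr 1
      refine Fintype.sum_equiv (Equiv.mulLeft γ.1⁻¹) _ _ fun h => ?_
      rw [lm_eq_tt, lm_eq_tt, trc_tt_mul, trc_tt_mul]
      congr 2
      ext
      · simp only [Equiv.coe_mulLeft, Prod.fst_mul]
        group
      · simp) (by
      intro v hv
      rw [hT]
      refine U.smul_mem _ (U.sum_mem fun h _ => ?_)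
      rw [lm_eq_tt]
      exact hU.1 _ _ hv)
    refine ⟨ζ, ?_⟩
    rw [← hζ x hxU, hT, av_apply]
    congr 1
    exact Finset.sum_congr rfl fun h _ => hconj h u
  -- one step
  have hstep : ∀ u : G, κ₁ / 2 * D u ≤ cav c D u := by
    intro u
    obtain ⟨ζ, hζ⟩ := hsch u
    have h1 : D u ≤ ‖lm G u x - av (ad G) (lm G u x)‖ ^ 2 := by
      rw [hζ]
      exact hD1 u ζ
    have h2 : av (ad G) (lm G u x - av (ad G) (lm G u x)) = 0 := by
      rw [map_sub, av_idem, sub_self]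
    have h3 := hc (EuclideanSpace ℂ (G × G)) (ad G) (fun l => z (cm (c l) u))
      (fun l => hz _) _ h2
    have h4 : ∀ l, ‖ad G (c l) (lm G u x - av (ad G) (lm G u x)) -
        z (cm (c l) u) • (lm G u x - av (ad G) (lm G u x))‖ ^ 2 ≤ 2 * D (cm (c l) u) := by
      intro l
      refine le_trans ?_ (hz2 (cm (c l) u))
      rw [← hnorm]
      have e : ad G (c l) (lm G u x - av (ad G) (lm G u x)) -
          z (cm (c l) u) • (lm G u x - av (ad G) (lm G u x)) =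
          (ad G (c l) (lm G u x) - z (cm (c l) u) • lm G u x) -
            av (ad G) (ad G (c l) (lm G u x) - z (cm (c l) u) • lm G u x) := by
        have e1 : av (ad G) (ad G (c l) (lm G u x)) = av (ad G) (lm G u x) := by
          rw [av_apply, av_apply]
          congr 1
          exact Fintype.sum_equiv (Equiv.mulRight (c l)) _ _ (fun h => by
            simp only [Equiv.coe_mulRight, map_mul]
            rfl)
        rw [map_sub, map_sub, map_smul, rho_av, e1, smul_sub]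
        abel
      rw [e]
      exact trc_norm_sub_av _ _
    have h5 : κ₁ * D u ≤ 2 * cav c D u := by
      calc κ₁ * D u ≤ κ₁ * ‖lm G u x - av (ad G) (lm G u x)‖ ^ 2 :=
            mul_le_mul_of_nonneg_left h1 hκ₁
        _ ≤ _ := h3
        _ ≤ mn (fun l => 2 * D (cm (c l) u)) := mn_mono h4
        _ = 2 * cav c D u := mn_mul_left _ _
    linarith
  have hit : ∀ u : G, (κ₁ / 2) ^ 5 * D u ≤ (cav c)^[5] (fun u => ‖lm G u x - x‖ ^ 2) u := by
    intro u
    refine (trc_iter c (by linarith) hstep 5 u).trans (trc_cav_iter_mono c (fun v => ?_) 5 u)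
    have := hD1 v 1
    rwa [one_smul] at this
  have hlast := hy (EuclideanSpace ℂ (G × G)) (lm G) (fun j => z (y j)) (fun j => hz _) x h0
  have hlast2 : 1 / 1024 * ‖x‖ ^ 2 ≤ 2 * mn (fun j => D (y j)) := by
    refine hlast.trans ?_
    rw [← mn_mul_left]
    exact mn_mono fun j => hz2 (y j)
  have hk : 0 ≤ (κ₁ / 2) ^ 5 := by positivity
  calc mu κ₁ * ‖x‖ ^ 2 = (κ₁ / 2) ^ 5 * (1 / 2 * (1 / 1024 * ‖x‖ ^ 2)) := by
        rw [mu]
        ring
    _ ≤ (κ₁ / 2) ^ 5 * mn (fun j => D (y j)) :=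
        mul_le_mul_of_nonneg_left (by linarith) hk
    _ = mn (fun j => (κ₁ / 2) ^ 5 * D (y j)) := (mn_mul_left _ _).symm
    _ ≤ _ := mn_mono fun j => hit (y j)

/-- The tracial lemma.

Proof. `irr_ind` for `tt G`, `C x = (∀ h, ad G h x = x) ∧ av (lm G) x = 0` (a linear map which
commutes with all `tt G γ` commutes with `ad G h = tt G (h, h)` and with `av (lm G)`) and `Q x` the
inequality. `hmin` is `trc_min`. For `hadd`: `‖x + y‖ ^ 2 = ‖x‖ ^ 2 + ‖y‖ ^ 2` and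
`‖lm G u (x + y) - (x + y)‖ ^ 2 = ‖lm G u x - x‖ ^ 2 + ‖lm G u y - y‖ ^ 2` (orthogonal orbits),
and `(cav c)^[5]` and `mn` are additive. -/
theorem trc {κ₁ : ℝ} (hκ₁ : 0 ≤ κ₁) {G : Type} [Group G] [Fintype G] {L J : Type}
    [Fintype L] [Fintype J] {c : L → G} (hc : PG c κ₁) {y : J → G} (hy : PG y (1 / 1024))
    (x : EuclideanSpace ℂ (G × G)) (hx : ∀ h, ad G h x = x) (h0 : av (lm G) x = 0) :
    mu κ₁ * ‖x‖ ^ 2 ≤ mn (fun j => (cav c)^[5] (fun u => ‖lm G u x - x‖ ^ 2) (y j)) := by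
  refine irr_ind (tt G) (fun x => (∀ h, ad G h x = x) ∧ av (lm G) x = 0)
    (fun x => mu κ₁ * ‖x‖ ^ 2 ≤
      mn (fun j => (cav c)^[5] (fun u => ‖lm G u x - x‖ ^ 2) (y j))) ?_ ?_ ?_ x ⟨hx, h0⟩
  · rintro T hT v ⟨h1, h2⟩
    refine ⟨fun h => ?_, ?_⟩
    · rw [ad_eq_tt, ← hT, ← ad_eq_tt, h1]
    · have e : av (lm G) (T v) = T (av (lm G) v) := by
        rw [av_apply, av_apply, map_smul, map_sum]
        congr 1
        refine Finset.sum_congr rfl fun h _ => ?_
        rw [lm_eq_tt, lm_eq_tt, hT]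
      rw [e, h2, map_zero]
  · rintro U hU v hv ⟨h1, h2⟩
    exact trc_min hκ₁ hc hy U hU v hv h1 h2
  · intro v w _ _ horth hv hw
    have hor : ∀ γ γ' : G, inner ℂ (lm G γ v) (lm G γ' w) = 0 := fun γ γ' => by
      rw [lm_eq_tt, lm_eq_tt]
      exact horth _ _
    have h1 : inner ℂ v w = 0 := by
      have := hor 1 1
      rwa [map_one] at this
    have h1' : ‖v + w‖ ^ 2 = ‖v‖ ^ 2 + ‖w‖ ^ 2 := by
      have := norm_add_sq_eq_norm_sq_add_norm_sq_of_inner_eq_zero _ _ h1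
      rw [pow_two, pow_two, pow_two]
      exact this
    have h2 : (fun u => ‖lm G u (v + w) - (v + w)‖ ^ 2) =
        fun u => ‖lm G u v - v‖ ^ 2 + ‖lm G u w - w‖ ^ 2 := by
      funext u
      have e : lm G u (v + w) - (v + w) = (lm G u v - v) + (lm G u w - w) := by
        rw [map_add]
        abel
      have h3 : inner ℂ (lm G u v - v) (lm G u w - w) = 0 := by
        have a1 := hor u u
        have a2 := hor u 1
        have a3 := hor 1 u
        rw [map_one] at a2 a3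
        have a2' : inner ℂ (lm G u v) w = 0 := a2
        have a3' : inner ℂ v (lm G u w) = 0 := a3
        rw [inner_sub_left, inner_sub_right, inner_sub_right, a1, a2', a3', h1]
        simp
      rw [e]
      have := norm_add_sq_eq_norm_sq_add_norm_sq_of_inner_eq_zero _ _ h3
      rw [pow_two, pow_two, pow_two]
      exact this
    change mu κ₁ * ‖v + w‖ ^ 2 ≤ mn (fun j =>
      (cav c)^[5] (fun u => ‖lm G u (v + w) - (v + w)‖ ^ 2) (y j))
    rw [h2, h1', trc_cav_iter_add, mn_add]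
    linarith

end Pool.Agent.MPfe8e9bV
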