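import Mathlib
import Pool.Agent.Lib.MP_fe8e9b_al_V.Defs
import Pool.Agent.Lib.MP_fe8e9b_al_W.DM
import Pool.Agent.Lib.MP_fe8e9b_al_V.CmlB
import Pool.Agent.Lib.MP_fe8e9b_al_V.Trc

/-!
# MP_fe8e9b_al, wreath products over sets of large degree: the local lower bound
-/

set_option autoImplicit false

open scoped BigOperators

namespace Pool.Agent.MPfe8e9bV

open Pool.Agent.MPfe8e9b Pool.Agent.MPfe8e9bA Pool.Agent.MPfe8e9bW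

theorem locT_cav_const {G : Type} [Group G] {L : Type} [Fintype L] (c : L → G) {a : ℝ}
    (ha : 0 ≤ a) (n : ℕ) (u : G) : (cav c)^[n] (fun _ => a) u ≤ a := by
  induction n generalizing u with
  | zero => exact le_refl _
  | succ n ih =>
    rw [Function.iterate_succ_apply']
    have h : cav c ((cav c)^[n] fun _ => a) u ≤ cav c (fun _ => a) u := cav_mono c ih u
    refine h.trans ?_
    rcases isEmpty_or_nonempty L with hL | hL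
    · simp only [cav, mn, Finset.univ_eq_empty, Finset.sum_empty, mul_zero]
      exact ha
    · exact (mn_const a).le

theorem locT_mn_sq {J : Type} [Fintype J] [Nonempty J] (f : J → ℝ) :
    (mn f) ^ 2 ≤ mn (fun j => f j ^ 2) := by
  have h := dm_cs f
  have hn : (0 : ℝ) < (Fintype.card J : ℝ) := by exact_mod_cast Fintype.card_pos
  rw [mn, mn, mul_pow]
  calc ((Fintype.card J : ℝ))⁻¹ ^ 2 * (∑ j, f j) ^ 2
      ≤ ((Fintype.card J : ℝ))⁻¹ ^ 2 * ((Fintype.card J : ℝ) * ∑ j, f j ^ 2) :=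
        mul_le_mul_of_nonneg_left h (by positivity)
    _ = ((Fintype.card J : ℝ))⁻¹ * ∑ j, f j ^ 2 := by
      field_simp

theorem locT_norm_sq_sub {V : Type} [NormedAddCommGroup V] [InnerProductSpace ℂ V]
    (U : V ≃ₗᵢ[ℂ] V) (x : V) :
    ‖U x - x‖ ^ 2 = 2 * ‖x‖ ^ 2 - 2 * (inner ℂ x (U x)).re := by
  have e5 := @norm_sub_sq ℂ V _ _ _ (U x) x
  rw [LinearIsometryEquiv.norm_map] at e5
  have e7 : RCLike.re (inner ℂ (U x) x) = (inner ℂ x (U x)).re := by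
    rw [← inner_conj_symm]
    exact Complex.conj_re _
  rw [e7] at e5
  linarith

theorem locT_av_lm {G : Type} [Group G] [Fintype G] (x : EuclideanSpace ℂ (G × G))
    (h0 : ∀ b, ∑ a, x (a, b) = 0) : av (lm G) x = 0 := by
  ext ⟨a, b⟩
  rw [av_apply, PiLp.smul_apply, smul_eq_mul]
  rw [show (∑ h, (lm G) h x) (a, b) = ∑ h, ((lm G) h x) (a, b) from by simp]
  have h1 : ∑ h, ((lm G) h x) (a, b) = ∑ h : G, x (h, b) := by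
    refine Fintype.sum_equiv (Equiv.mulLeft a) _ _ fun h => ?_
    rw [lm_apply]
    rfl
  rw [h1, h0 b, mul_zero]
  rfl

/-- The local lower bound.

Proof. Let `μ = mu κ₁ ∈ [0, 1]` (`0 < κ₁ ≤ 1`), `‖v‖ = 1` (scale; `v = 0` trivial). `dm_vec` gives
`x`, `‖x‖ = 1`, `inner ℂ x (lm G c x) = inner ℂ v (ρ c v)`,
`‖ad G (y j) x - x‖ ^ 2 ≤ 2 ‖ρ (y j) v - R j v‖`, columns of sum zero. Let `x₀ = av (ad G) x`. As in
the proof of `dm`: `mn_j ‖ad G (y j) x - x‖ ^ 2 ≤ 2 * (mn_j ‖ρ (y j) v - R j v‖ ^ 2) ^ (1/2) ≤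
2 * μ ^ 2 / 316`, `‖x - x₀‖ ≤ (1/100) ‖x - x₀‖ + mn_j ‖ad G (y j) x - x‖` (`Mix`), so
`‖x - x₀‖ ≤ μ / 10`. `x₀` is fixed by `ad G` and its columns have sum zero (`dm_cols`), so
`av (lm G) x₀ = 0`. `trc` with `pg_of_mix` (`m = 1`) for `y` gives
`μ * ‖x₀‖ ^ 2 ≤ mn_j (cav c)^[5] (fun u => ‖lm G u x₀ - x₀‖ ^ 2) (y j)`. For all `u`:
`‖ρ u v - v‖ ^ 2 = 2 - 2 re ⟨v, ρ u v⟩ = 2 - 2 re ⟨x, lm G u x⟩ = ‖lm G u x - x‖ ^ 2` and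
`2 ‖x₀‖ ^ 2 - 2 re ⟨x₀, lm G u x₀⟩ ≤ 2 - 2 re ⟨x, lm G u x⟩ + 4 ‖x - x₀‖` since
`re ⟨x, lm G u x⟩ - re ⟨x₀, lm G u x₀⟩ ≤ 2 ‖x - x₀‖` (`dm_near`): so
`‖lm G u x₀ - x₀‖ ^ 2 ≤ ‖ρ u v - v‖ ^ 2 + 4 ‖x - x₀‖`. `(cav c)^[5]` is monotone and maps `F + a`
(`a ≥ 0` constant) to at most `(cav c)^[5] F + a`. With `‖x₀‖ ^ 2 ≥ 1 - ‖x - x₀‖ ^ 2` the result is
`≥ μ (1 - 1/100) - 4 μ / 10 ≥ μ / 2`. -/
theorem loc_t {κ₁ : ℝ} (hκ₁ : 0 < κ₁) (hκ₁' : κ₁ ≤ 1) {G : Type} [Group G] [Fintype G]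
    (hG : commutator G = ⊤) {L : Type} [Fintype L] {c : L → G} (hc : PG c κ₁) {J : Type}
    [Fintype J] [Nonempty J] {y : J → G} (hy : Mix y (1 / 100)) {V : Type}
    [NormedAddCommGroup V] [InnerProductSpace ℂ V] [FiniteDimensional ℂ V]
    (ρ : G →* (V ≃ₗᵢ[ℂ] V)) (R : J → (V ≃ₗᵢ[ℂ] V)) (hR : ∀ j g u, R j (ρ g u) = ρ g (R j u))
    (v : V) (hv : av ρ v = 0)
    (h1 : mn (fun j => ‖ρ (y j) v - R j v‖ ^ 2) ≤ mu κ₁ ^ 4 / 10 ^ 5 * ‖v‖ ^ 2) :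
    mu κ₁ / 2 * ‖v‖ ^ 2 ≤ mn (fun j => (cav c)^[5] (fun u => ‖ρ u v - v‖ ^ 2) (y j)) := by
  obtain ⟨x, hx1, hx2, hx3, hx4⟩ := dm_vec ρ v
  have hμ0 : 0 < mu κ₁ := by
    unfold mu
    positivity
  have hμ1 : mu κ₁ ≤ 1 / 2 := by
    unfold mu
    have h2 : (κ₁ / 2) ^ 5 ≤ 1 := pow_le_one₀ (by linarith) (by linarith)
    linarith
  set μ : ℝ := mu κ₁ with hμd
  have hn : (0 : ℝ) < (Fintype.card J : ℝ) := by exact_mod_cast Fintype.card_pos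
  have hN : 0 ≤ ‖v‖ := norm_nonneg v
  set x₀ := av (ad G) x with hx0
  have hfix : ∀ h, ad G h x₀ = x₀ := fun h => rho_av (ad G) h x
  have hx0n : ‖x₀‖ ≤ ‖x‖ := dm_av_norm (ad G) x
  have hz : av (ad G) (x - x₀) = 0 := by
    rw [map_sub, hx0, av_idem, sub_self]
  have hmix := hy (EuclideanSpace ℂ (G × G)) (ad G) (x - x₀) hz
  -- the displacement
  have hA0 : 0 ≤ mn (fun j => ‖ρ (y j) v - R j v‖) := mn_nonneg fun j => norm_nonneg _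
  have hA : mn (fun j => ‖ρ (y j) v - R j v‖) ≤ μ ^ 2 * ‖v‖ / 316 := by
    have h2 := (locT_mn_sq fun j => ‖ρ (y j) v - R j v‖).trans h1
    have h3 : μ ^ 4 / 10 ^ 5 * ‖v‖ ^ 2 ≤ (μ ^ 2 * ‖v‖ / 316) ^ 2 := by
      have h4 : 0 ≤ μ ^ 4 * ‖v‖ ^ 2 := by positivity
      have h5 : (μ ^ 2 * ‖v‖ / 316) ^ 2 = μ ^ 4 * ‖v‖ ^ 2 / 99856 := by ring
      rw [h5]
      have h6 : μ ^ 4 / 10 ^ 5 * ‖v‖ ^ 2 = μ ^ 4 * ‖v‖ ^ 2 / 100000 := by ring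
      rw [h6]
      linarith
    exact (abs_le_of_sq_le_sq' (h2.trans h3) (by positivity)).2
  have hB : mn (fun j => ‖ad G (y j) x - x‖) ≤ μ * ‖v‖ / 12 := by
    have h2 : (mn fun j => ‖ad G (y j) x - x‖) ^ 2 ≤ (μ * ‖v‖ / 12) ^ 2 := by
      calc (mn fun j => ‖ad G (y j) x - x‖) ^ 2
          ≤ mn (fun j => ‖ad G (y j) x - x‖ ^ 2) := locT_mn_sq _
        _ ≤ mn (fun j => 2 * ‖v‖ * ‖ρ (y j) v - R j v‖) :=
          mn_mono fun j => hx3 (y j) (R j) (hR j)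
        _ = 2 * ‖v‖ * mn (fun j => ‖ρ (y j) v - R j v‖) := mn_mul_left _ _
        _ ≤ 2 * ‖v‖ * (μ ^ 2 * ‖v‖ / 316) := mul_le_mul_of_nonneg_left hA (by positivity)
        _ ≤ (μ * ‖v‖ / 12) ^ 2 := by
          have h4 : 0 ≤ μ ^ 2 * ‖v‖ ^ 2 := by positivity
          have h5 : (μ * ‖v‖ / 12) ^ 2 = μ ^ 2 * ‖v‖ ^ 2 / 144 := by ring
          have h6 : 2 * ‖v‖ * (μ ^ 2 * ‖v‖ / 316) = μ ^ 2 * ‖v‖ ^ 2 / 158 := by ring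
          rw [h5, h6]
          linarith
    exact (abs_le_of_sq_le_sq' h2 (by positivity)).2
  have hzn : ‖x - x₀‖ ≤ μ * ‖v‖ / 10 := by
    have hnC : (Fintype.card J : ℂ) ≠ 0 := by
      have : (Fintype.card J : ℕ) ≠ 0 := Fintype.card_ne_zero
      exact_mod_cast this
    have e1 : x - x₀ = ((Fintype.card J : ℂ))⁻¹ • (∑ j, ad G (y j) (x - x₀)) -
        ((Fintype.card J : ℂ))⁻¹ • ∑ j, (ad G (y j) x - x) := by
      rw [← smul_sub, ← Finset.sum_sub_distrib]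
      have e2 : ∀ j, ad G (y j) (x - x₀) - (ad G (y j) x - x) = x - x₀ := by
        intro j
        rw [map_sub, hfix]
        abel
      rw [Finset.sum_congr rfl fun j _ => e2 j, Finset.sum_const, Finset.card_univ,
        ← Nat.cast_smul_eq_nsmul ℂ, smul_smul, inv_mul_cancel₀ hnC, one_smul]
    have e3 : ‖((Fintype.card J : ℂ))⁻¹ • ∑ j, (ad G (y j) x - x)‖ ≤ μ * ‖v‖ / 12 := by
      rw [norm_smul, norm_inv, Complex.norm_natCast]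
      refine le_trans ?_ hB
      exact mul_le_mul_of_nonneg_left (norm_sum_le _ _) (inv_nonneg.2 hn.le)
    have e5 : ‖x - x₀‖ ≤ 1 / 100 * ‖x - x₀‖ + μ * ‖v‖ / 12 := by
      calc ‖x - x₀‖ = ‖((Fintype.card J : ℂ))⁻¹ • (∑ j, ad G (y j) (x - x₀)) -
            ((Fintype.card J : ℂ))⁻¹ • ∑ j, (ad G (y j) x - x)‖ := by rw [← e1]
        _ ≤ _ := le_trans (norm_sub_le _ _) (add_le_add hmix e3)
    have e6 : 0 ≤ μ * ‖v‖ := by positivity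
    linarith
  have hpg : PG y (1 / 1024) := by
    have h2 := pg_of_mix hG (by norm_num : (0 : ℝ) ≤ 1 / 100) hy 1 one_pos (by norm_num)
    have h3 : (1 : ℝ) / (1024 * ((1 : ℕ) : ℝ) ^ 2) = 1 / 1024 := by norm_num
    rw [h3] at h2
    exact h2
  have htrc := trc hκ₁.le hc hpg x₀ hfix (locT_av_lm x₀ (dm_cols x (hx4 hv)))
  have hpt : ∀ u, ‖lm G u x₀ - x₀‖ ^ 2 ≤ ‖ρ u v - v‖ ^ 2 + 4 * ‖v‖ * ‖x - x₀‖ := by
    intro u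
    rw [locT_norm_sq_sub, locT_norm_sq_sub, ← hx2, ← hx1]
    have h2 := dm_near (lm G u) x x₀ hx0n
    have h3 : ‖x₀‖ ^ 2 ≤ ‖x‖ ^ 2 := pow_le_pow_left₀ (norm_nonneg _) hx0n 2
    linarith
  have ha : 0 ≤ 4 * ‖v‖ * ‖x - x₀‖ := by positivity
  have hcav : ∀ j, (cav c)^[5] (fun u => ‖lm G u x₀ - x₀‖ ^ 2) (y j) ≤
      (cav c)^[5] (fun u => ‖ρ u v - v‖ ^ 2) (y j) + 4 * ‖v‖ * ‖x - x₀‖ := by
    intro j
    refine (trc_cav_iter_mono c hpt 5 (y j)).trans ?_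
    have h2 := congrFun (trc_cav_iter_add c (fun u => ‖ρ u v - v‖ ^ 2)
      (fun _ => 4 * ‖v‖ * ‖x - x₀‖) 5) (y j)
    rw [h2]
    exact add_le_add (le_refl _) (locT_cav_const c ha 5 (y j))
  have hmn : mn (fun j => (cav c)^[5] (fun u => ‖lm G u x₀ - x₀‖ ^ 2) (y j)) ≤
      mn (fun j => (cav c)^[5] (fun u => ‖ρ u v - v‖ ^ 2) (y j)) + 4 * ‖v‖ * ‖x - x₀‖ := by
    refine (mn_mono hcav).trans ?_
    rw [mn_add, mn_const]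
  have hx0l : (1 - μ / 10) * ‖v‖ ≤ ‖x₀‖ := by
    have h2 : ‖x‖ ≤ ‖x - x₀‖ + ‖x₀‖ := by
      have := norm_add_le (x - x₀) x₀
      rwa [sub_add_cancel] at this
    rw [hx1] at h2
    linarith
  have hx0s : (1 - μ / 5) * ‖v‖ ^ 2 ≤ ‖x₀‖ ^ 2 := by
    have h2 : 0 ≤ (1 - μ / 10) * ‖v‖ := mul_nonneg (by linarith) hN
    have h3 : ((1 - μ / 10) * ‖v‖) ^ 2 ≤ ‖x₀‖ ^ 2 := pow_le_pow_left₀ h2 hx0l 2
    refine le_trans ?_ h3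
    have h4 : ((1 - μ / 10) * ‖v‖) ^ 2 - (1 - μ / 5) * ‖v‖ ^ 2 = μ ^ 2 / 100 * ‖v‖ ^ 2 := by
      ring
    have h5 : 0 ≤ μ ^ 2 / 100 * ‖v‖ ^ 2 := by positivity
    linarith
  have hf1 : μ * ((1 - μ / 5) * ‖v‖ ^ 2) ≤ μ * ‖x₀‖ ^ 2 :=
    mul_le_mul_of_nonneg_left hx0s hμ0.le
  have hf2 : 4 * ‖v‖ * ‖x - x₀‖ ≤ 4 * ‖v‖ * (μ * ‖v‖ / 10) :=
    mul_le_mul_of_nonneg_left hzn (by positivity)
  have hf3 : μ / 2 * ‖v‖ ^ 2 + 4 * ‖v‖ * (μ * ‖v‖ / 10) ≤ μ * ((1 - μ / 5) * ‖v‖ ^ 2) := by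
    have h4 : μ * ((1 - μ / 5) * ‖v‖ ^ 2) -
        (μ / 2 * ‖v‖ ^ 2 + 4 * ‖v‖ * (μ * ‖v‖ / 10)) =
        μ * (1 / 10 - μ / 5) * ‖v‖ ^ 2 := by
      ring
    have h5 : 0 ≤ μ * (1 / 10 - μ / 5) * ‖v‖ ^ 2 := by
      have h6 : 0 ≤ 1 / 10 - μ / 5 := by linarith
      positivity
    linarith
  linarith

end Pool.Agent.MPfe8e9bV
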