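import Mathlib
import Pool.Agent.Lib.MP_fe8e9b_al_V.Defs

/-!
# MP_fe8e9b_al, wreath products over sets of large degree: the method of bounded differences
-/

set_option autoImplicit false

open scoped BigOperators

namespace Pool.Agent.MPfe8e9bV

open Pool.Agent.MPfe8e9b Pool.Agent.MPfe8e9bA Pool.Agent.MPfe8e9bW

/-- One variable.

Proof. Put `h x = g x - mn g`; `|h x| ≤ b` (the mean of `g x - g y` over `y`), `mn h = 0`. By
convexity, `exp (s * t) ≤ cosh (s * b) + (t / b) * sinh (s * b)` for `|t| ≤ b` (if `b = 0` then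
`h = 0`), so the mean is at most `cosh (s * b) ≤ exp ((s * b) ^ 2 / 2)`
(`Real.cosh_le_exp_half_sq`). -/
theorem mcd_one {Ω : Type} [Fintype Ω] [Nonempty Ω] (g : Ω → ℝ) (b s : ℝ)
    (hg : ∀ x y, |g x - g y| ≤ b) :
    mn (fun x => Real.exp (s * (g x - mn g))) ≤ Real.exp (s ^ 2 * b ^ 2 / 2) := by
  have hb : 0 ≤ b := by
    obtain ⟨x⟩ := (inferInstance : Nonempty Ω)
    have := hg x x
    simpa using this
  have hh : ∀ x, |g x - mn g| ≤ b := by
    intro x
    have h1 : g x - mn g = mn (fun y => g x - g y) := by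
      rw [mn_sub (fun _ => g x) g, mn_const]
    rw [h1, abs_le]
    exact ⟨le_mn fun y => (abs_le.1 (hg x y)).1, mn_le fun y => (abs_le.1 (hg x y)).2⟩
  have h0 : mn (fun x => g x - mn g) = 0 := by
    rw [mn_sub g (fun _ => mn g), mn_const, sub_self]
  rcases hb.eq_or_lt with hb0 | hb0
  · have h1 : ∀ x, g x - mn g = 0 := fun x => by
      have := hh x
      rw [← hb0] at this
      exact abs_nonpos_iff.1 this
    rw [← hb0]
    simp only [h1, mul_zero, Real.exp_zero, mn_const]
    norm_num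
  · have hc : ∀ x, Real.exp (s * (g x - mn g)) ≤
        Real.cosh (s * b) + Real.sinh (s * b) / b * (g x - mn g) := by
      intro x
      obtain ⟨h2, h3⟩ := abs_le.1 (hh x)
      obtain ⟨t, ht⟩ : ∃ t, t = g x - mn g := ⟨_, rfl⟩
      rw [← ht] at h2 h3 ⊢
      have h6 : 0 ≤ (1 + t / b) / 2 := by
        have : -1 ≤ t / b := by
          rw [le_div_iff₀ hb0]
          linarith
        linarith
      have h7 : 0 ≤ (1 - t / b) / 2 := by
        have : t / b ≤ 1 := by
          rw [div_le_iff₀ hb0]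
          linarith
        linarith
      have h8 : (1 + t / b) / 2 + (1 - t / b) / 2 = 1 := by ring
      have h4 := convexOn_exp.2 (Set.mem_univ (s * b)) (Set.mem_univ (-(s * b))) h6 h7 h8
      simp only [smul_eq_mul] at h4
      have h5 : (1 + t / b) / 2 * (s * b) + (1 - t / b) / 2 * (-(s * b)) = s * t := by
        field_simp
        ring
      rw [h5] at h4
      refine h4.trans (le_of_eq ?_)
      rw [Real.cosh_eq, Real.sinh_eq]
      field_simp
      ring
    calc mn (fun x => Real.exp (s * (g x - mn g)))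
        ≤ mn (fun x => Real.cosh (s * b) + Real.sinh (s * b) / b * (g x - mn g)) := mn_mono hc
      _ = Real.cosh (s * b) := by
          rw [mn_add (fun _ => Real.cosh (s * b)), mn_const, mn_mul_left, h0, mul_zero, add_zero]
      _ ≤ Real.exp ((s * b) ^ 2 / 2) := Real.cosh_le_exp_half_sq _
      _ = Real.exp (s ^ 2 * b ^ 2 / 2) := by rw [mul_pow]

private theorem mcd_fin {Ω : Type} [Fintype Ω] [Nonempty Ω] (b s : ℝ) :
    ∀ (n : ℕ) (f : (Fin n → Ω) → ℝ), (∀ ω x a, |f (Function.update ω x a) - f ω| ≤ b) →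
      mn (fun ω => Real.exp (s * (f ω - mn f))) ≤ Real.exp ((n : ℝ) * (s ^ 2 * b ^ 2 / 2)) := by
  intro n
  induction n with
  | zero =>
    intro f _
    have h1 : ∀ ω, f ω - mn f = 0 := by
      intro ω
      have h2 : f = fun _ => f ω := by
        funext ω'
        rw [Subsingleton.elim ω' ω]
      have h3 : mn f = f ω := by
        rw [h2, mn_const]
      rw [h3, sub_self]
    simp only [h1, mul_zero, Real.exp_zero, mn_const]
    norm_num
  | succ n ih =>
    intro f hf
    have hsplit : ∀ F : (Fin (n + 1) → Ω) → ℝ,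
        mn F = mn (fun a : Ω => mn (fun t : Fin n → Ω => F (Fin.cons a t : Fin (n + 1) → Ω))) := by
      intro F
      rw [← mn_equiv (Fin.consEquiv (fun _ : Fin (n + 1) => Ω)) F]
      exact mn_prod _
    obtain ⟨g, hg⟩ : ∃ g : Ω → ℝ,
        g = fun a => mn (fun t : Fin n → Ω => f (Fin.cons a t : Fin (n + 1) → Ω)) := ⟨_, rfl⟩
    have hmg : mn f = mn g := by
      rw [hsplit f, hg]
    have hgd : ∀ a a', |g a - g a'| ≤ b := by
      intro a a'
      have h1 : g a - g a' = mn (fun t : Fin n → Ω =>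
          f (Fin.cons a t : Fin (n + 1) → Ω) - f (Fin.cons a' t : Fin (n + 1) → Ω)) := by
        rw [mn_sub, hg]
      have h2 : ∀ t : Fin n → Ω,
          |f (Fin.cons a t : Fin (n + 1) → Ω) - f (Fin.cons a' t : Fin (n + 1) → Ω)| ≤ b := by
        intro t
        have h3 := hf (Fin.cons a' t : Fin (n + 1) → Ω) 0 a
        rwa [Fin.update_cons_zero] at h3
      rw [h1, abs_le]
      exact ⟨le_mn fun t => (abs_le.1 (h2 t)).1, mn_le fun t => (abs_le.1 (h2 t)).2⟩
    have hin : ∀ a : Ω, mn (fun t : Fin n → Ω =>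
        Real.exp (s * (f (Fin.cons a t : Fin (n + 1) → Ω) - mn f))) ≤
        Real.exp ((n : ℝ) * (s ^ 2 * b ^ 2 / 2)) * Real.exp (s * (g a - mn g)) := by
      intro a
      have h1 := ih (fun t => f (Fin.cons a t : Fin (n + 1) → Ω)) (by
        intro t x a'
        have h3 := hf (Fin.cons a t : Fin (n + 1) → Ω) x.succ a'
        rwa [← Fin.cons_update] at h3)
      have h2 : mn (fun t : Fin n → Ω => f (Fin.cons a t : Fin (n + 1) → Ω)) = g a := by rw [hg]
      rw [h2] at h1
      have h4 : (fun t : Fin n → Ω =>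
          Real.exp (s * (f (Fin.cons a t : Fin (n + 1) → Ω) - mn f))) =
          fun t => Real.exp (s * (f (Fin.cons a t : Fin (n + 1) → Ω) - g a)) *
            Real.exp (s * (g a - mn g)) := by
        funext t
        rw [← Real.exp_add, hmg]
        congr 1
        ring
      rw [h4, mn_mul_right]
      exact mul_le_mul_of_nonneg_right h1 (Real.exp_pos _).le
    rw [hsplit]
    calc mn (fun a : Ω => mn (fun t : Fin n → Ω =>
          Real.exp (s * (f (Fin.cons a t : Fin (n + 1) → Ω) - mn f))))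
        ≤ mn (fun a : Ω => Real.exp ((n : ℝ) * (s ^ 2 * b ^ 2 / 2)) *
            Real.exp (s * (g a - mn g))) := mn_mono hin
      _ = Real.exp ((n : ℝ) * (s ^ 2 * b ^ 2 / 2)) *
            mn (fun a : Ω => Real.exp (s * (g a - mn g))) := mn_mul_left _ _
      _ ≤ Real.exp ((n : ℝ) * (s ^ 2 * b ^ 2 / 2)) * Real.exp (s ^ 2 * b ^ 2 / 2) :=
          mul_le_mul_of_nonneg_left (mcd_one g b s hgd) (Real.exp_pos _).le
      _ = Real.exp (((n + 1 : ℕ) : ℝ) * (s ^ 2 * b ^ 2 / 2)) := by
          rw [← Real.exp_add]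
          congr 1
          push_cast
          ring

/-- The moment generating function.

Proof. Transport to `X = Fin n` (`Fintype.equivFin`, `mn_equiv`) and induct on `n`, for all `f`.
`n = 0`: `f` is constant, both sides are `1`. `n + 1`: `Fin.consEquiv` (or `Fin.insertNthEquiv`)
and `mn_prod`: for `a : Ω` let `f_a t = f (cons a t)`, `g a = mn f_a`, `mn g = mn f`,
`|g a - g a'| ≤ b` (the mean of `f (cons a t) - f (cons a' t)`), so
`mn (exp (s (f - mn f))) = mn_a (exp (s (g a - mn g)) * mn_t (exp (s (f_a t - g a))))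
≤ exp (n (s^2 b^2 / 2)) * mn_a (exp (s (g a - mn g)))`, and `mcd_one`. -/
theorem mcd_exp {X Ω : Type} [Fintype X] [DecidableEq X] [Fintype Ω] [Nonempty Ω]
    (f : (X → Ω) → ℝ) (b s : ℝ) (hf : ∀ ω x a, |f (Function.update ω x a) - f ω| ≤ b) :
    mn (fun ω => Real.exp (s * (f ω - mn f))) ≤
      Real.exp ((Fintype.card X : ℝ) * (s ^ 2 * b ^ 2 / 2)) := by
  obtain ⟨e, -⟩ : ∃ e : X ≃ Fin (Fintype.card X), e = Fintype.equivFin X := ⟨_, rfl⟩
  have h1 := mcd_fin b s (Fintype.card X) (fun ω : Fin (Fintype.card X) → Ω =>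
    f (fun x => ω (e x))) (by
      intro ω i a
      have h3 : (fun x => Function.update ω i a (e x)) =
          Function.update (fun x => ω (e x)) (e.symm i) a := by
        funext x
        by_cases hx : x = e.symm i
        · subst hx
          simp
        · have hx' : e x ≠ i := fun h => hx (by rw [← h, e.symm_apply_apply])
          rw [Function.update_of_ne hx, Function.update_of_ne hx']
      rw [h3]
      exact hf _ _ _)
  obtain ⟨E, hE⟩ : ∃ E : (Fin (Fintype.card X) → Ω) ≃ (X → Ω), ∀ ω x, E ω x = ω (e x) :=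
    ⟨Equiv.arrowCongr e.symm (Equiv.refl Ω), fun ω x => by simp [Equiv.arrowCongr]⟩
  have hE' : ∀ ω, E ω = fun x => ω (e x) := fun ω => funext (hE ω)
  have h2 : mn (fun ω : Fin (Fintype.card X) → Ω => f (fun x => ω (e x))) = mn f := by
    rw [← mn_equiv E f]
    simp only [hE']
  rw [h2] at h1
  rw [← mn_equiv E]
  simp only [hE']
  exact h1

/-- Bounded differences.

Proof. With `n = card X`, `s = τ / (n * b ^ 2)` (for `n = 0` the right hand side is `1`):
`ind (mn f + τ ≤ f ω) ≤ exp (s * (f ω - mn f)) * exp (- s * τ)`, and `mcd_exp` gives the bound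
`exp (n s^2 b^2 / 2 - s τ) = exp (- τ^2 / (2 n b^2))`. -/
theorem mcd {X Ω : Type} [Fintype X] [DecidableEq X] [Fintype Ω] [Nonempty Ω]
    (f : (X → Ω) → ℝ) (b τ : ℝ) (hb : 0 < b) (hτ : 0 ≤ τ)
    (hf : ∀ ω x a, |f (Function.update ω x a) - f ω| ≤ b) :
    mn (fun ω => ind (mn f + τ ≤ f ω)) ≤
      Real.exp (-(τ ^ 2 / (2 * (Fintype.card X : ℝ) * b ^ 2))) := by
  rcases Nat.eq_zero_or_pos (Fintype.card X) with h0 | h0
  · rw [h0]
    simp only [Nat.cast_zero, mul_zero, zero_mul, div_zero, neg_zero, Real.exp_zero]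
    exact mn_le fun ω => ind_le_one _
  · have hn : (0 : ℝ) < (Fintype.card X : ℝ) := by exact_mod_cast h0
    obtain ⟨n, hnn⟩ : ∃ n : ℝ, n = (Fintype.card X : ℝ) := ⟨_, rfl⟩
    obtain ⟨s, hs⟩ : ∃ s, s = τ / (n * b ^ 2) := ⟨_, rfl⟩
    have hn' : 0 < n := hnn ▸ hn
    have hs0 : 0 ≤ s := by
      rw [hs]
      positivity
    have h1 := mcd_exp f b s hf
    have h2 : ∀ ω, ind (mn f + τ ≤ f ω) ≤
        Real.exp (s * (f ω - mn f)) * Real.exp (-(s * τ)) := by
      intro ω
      rw [← Real.exp_add]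
      by_cases h : mn f + τ ≤ f ω
      · rw [ind_true h]
        refine Real.one_le_exp ?_
        have : 0 ≤ s * (f ω - mn f - τ) := mul_nonneg hs0 (by linarith)
        linarith
      · rw [ind_false h]
        exact (Real.exp_pos _).le
    rw [← hnn] at h1 ⊢
    calc mn (fun ω => ind (mn f + τ ≤ f ω))
        ≤ mn (fun ω => Real.exp (s * (f ω - mn f)) * Real.exp (-(s * τ))) := mn_mono h2
      _ = mn (fun ω => Real.exp (s * (f ω - mn f))) * Real.exp (-(s * τ)) := mn_mul_right _ _
      _ ≤ Real.exp (n * (s ^ 2 * b ^ 2 / 2)) * Real.exp (-(s * τ)) :=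
          mul_le_mul_of_nonneg_right h1 (Real.exp_pos _).le
      _ = Real.exp (-(τ ^ 2 / (2 * n * b ^ 2))) := by
          rw [← Real.exp_add, hs]
          congr 1
          field_simp
          ring

/-- The lower tail: `mcd` for `- f`. -/
theorem mcd_lower {X Ω : Type} [Fintype X] [DecidableEq X] [Fintype Ω] [Nonempty Ω]
    (f : (X → Ω) → ℝ) (b τ : ℝ) (hb : 0 < b) (hτ : 0 ≤ τ)
    (hf : ∀ ω x a, |f (Function.update ω x a) - f ω| ≤ b) :
    mn (fun ω => ind (f ω ≤ mn f - τ)) ≤
      Real.exp (-(τ ^ 2 / (2 * (Fintype.card X : ℝ) * b ^ 2))) := by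
  have h1 := mcd (fun ω => -f ω) b τ hb hτ (fun ω x a => by
    have h2 : -f (Function.update ω x a) - -f ω = -(f (Function.update ω x a) - f ω) := by ring
    rw [h2, abs_neg]
    exact hf ω x a)
  have h3 : mn (fun ω => -f ω) = -mn f := by
    have := mn_mul_left (-1) f
    simpa using this
  rw [h3] at h1
  refine le_trans (mn_mono fun ω => ind_mono fun h => ?_) h1
  linarith

end Pool.Agent.MPfe8e9bV
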