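import Mathlib
import Pool.Agent.Lib.MP_fe8e9b_al_V.Defs
import Pool.Agent.Lib.MP_fe8e9b_al_V.Mcd

/-!
# MP_fe8e9b_al, wreath products over large sets: existence of a dense vector
-/

set_option autoImplicit false

open scoped BigOperators

namespace Pool.Agent.MPfe8e9bV

open Pool.Agent.MPfe8e9b Pool.Agent.MPfe8e9bA Pool.Agent.MPfe8e9bW

/-- The mean of the indicator of a finite set. -/
theorem dna_card {T : Type} [Fintype T] [DecidableEq T] (s : Finset T) :
    mn (fun t => ind (t ∈ s)) = (Fintype.card T : ℝ)⁻¹ * s.card := by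
  rw [mn]
  congr 1
  have h1 : ∀ t, ind (t ∈ s) = if t ∈ s then (1 : ℝ) else 0 := by
    intro t
    by_cases h : t ∈ s
    · rw [ind_true h, if_pos h]
    · rw [ind_false h, if_neg h]
  rw [Finset.sum_congr rfl fun t _ => h1 t]
  simp

/-- The mean of a cylinder. -/
theorem dna_cyl {X Ω : Type} [Fintype X] [DecidableEq X] [Fintype Ω] [Nonempty Ω]
    (B : Finset X) (π : X → Ω) :
    mn (fun ω : X → Ω => ind (∀ x ∈ B, ω x = π x)) = ((Fintype.card Ω : ℝ) ^ B.card)⁻¹ := by
  classical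
  obtain ⟨S, hS⟩ : ∃ S : Finset (X → Ω), S =
      Fintype.piFinset (fun x => if x ∈ B then {π x} else Finset.univ) := ⟨_, rfl⟩
  have h1 : (fun ω : X → Ω => ind (∀ x ∈ B, ω x = π x)) = fun ω => ind (ω ∈ S) := by
    funext ω
    have : (∀ x ∈ B, ω x = π x) ↔ ω ∈ S := by
      rw [hS, Fintype.mem_piFinset]
      refine forall_congr' fun x => ?_
      by_cases hx : x ∈ B
      · simp [hx]
      · simp [hx]
    rw [propext this]
  have h2 : S.card * Fintype.card Ω ^ B.card = Fintype.card Ω ^ Fintype.card X := by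
    rw [hS, Fintype.card_piFinset]
    have h3 : ∀ x : X, (if x ∈ B then {π x} else (Finset.univ : Finset Ω)).card =
        if x ∈ B then 1 else Fintype.card Ω := by
      intro x
      by_cases hx : x ∈ B
      · simp [hx]
      · simp [hx]
    rw [Finset.prod_congr rfl fun x _ => h3 x]
    have h4 : Fintype.card Ω ^ B.card = ∏ x : X, if x ∈ B then Fintype.card Ω else 1 := by
      rw [Finset.prod_ite_mem, Finset.univ_inter, Finset.prod_const]
    rw [h4, ← Finset.prod_mul_distrib]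
    have h5 : ∀ x : X, ((if x ∈ B then 1 else Fintype.card Ω) *
        if x ∈ B then Fintype.card Ω else 1) = Fintype.card Ω := by
      intro x
      by_cases hx : x ∈ B
      · simp [hx]
      · simp [hx]
    rw [Finset.prod_congr rfl fun x _ => h5 x, Finset.prod_const, Finset.card_univ]
  have hΩ : (Fintype.card Ω : ℝ) ≠ 0 := by exact_mod_cast Fintype.card_ne_zero
  rw [h1, dna_card, Fintype.card_fun]
  have h6 : (S.card : ℝ) * (Fintype.card Ω : ℝ) ^ B.card =
      (Fintype.card Ω : ℝ) ^ Fintype.card X := by exact_mod_cast h2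
  push_cast
  rw [← h6]
  have hS0 : (S.card : ℝ) ≠ 0 := by
    intro h0
    rw [h0, zero_mul] at h6
    exact pow_ne_zero _ hΩ h6.symm
  field_simp

section
variable {K X Ω : Type} [Group K] [Fintype K] [Fintype X] [Fintype Ω]

/-- The frequency of a pattern. -/
noncomputable def dnaf (α : K →* Equiv.Perm X) (B : Finset X) (π : X → Ω) (ω : X → Ω) : ℝ :=
  mn (fun σ : K => ind (∀ x ∈ B, ω ((α σ)⁻¹ x) = π x))

/-- The mean of the frequency of a pattern. -/
theorem dna_mean [DecidableEq X] [Nonempty Ω] (α : K →* Equiv.Perm X) (B : Finset X)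
    (π : X → Ω) : mn (dnaf α B π) = ((Fintype.card Ω : ℝ) ^ B.card)⁻¹ := by
  have h1 : mn (dnaf α B π) =
      mn (fun σ : K => mn (fun ω : X → Ω => ind (∀ x ∈ B, ω ((α σ)⁻¹ x) = π x))) :=
    mn_comm (fun (ω : X → Ω) (σ : K) => ind (∀ x ∈ B, ω ((α σ)⁻¹ x) = π x))
  have h2 : ∀ σ : K, mn (fun ω : X → Ω => ind (∀ x ∈ B, ω ((α σ)⁻¹ x) = π x)) =
      ((Fintype.card Ω : ℝ) ^ B.card)⁻¹ := by
    intro σ
    rw [← dna_cyl B π]
    exact mn_equiv (Equiv.arrowCongr (α σ) (Equiv.refl Ω))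
      (fun ω : X → Ω => ind (∀ x ∈ B, ω x = π x))
  rw [h1]
  simp only [h2]
  exact mn_const _

/-- The change of the frequency of a pattern. -/
theorem dna_lip [DecidableEq X] (α : K →* Equiv.Perm X)
    (htr : ∀ x y : X, ∃ p, α p x = y) (B : Finset X) (π ω : X → Ω) (y : X) (a : Ω) :
    |dnaf α B π (Function.update ω y a) - dnaf α B π ω| ≤
      (B.card : ℝ) / (Fintype.card X : ℝ) := by
  classical
  have h1 : ∀ σ : K, |ind (∀ x ∈ B, Function.update ω y a ((α σ)⁻¹ x) = π x) -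
      ind (∀ x ∈ B, ω ((α σ)⁻¹ x) = π x)| ≤ ∑ x ∈ B, ind ((α σ)⁻¹ x = y) := by
    intro σ
    by_cases h : ∃ x ∈ B, (α σ)⁻¹ x = y
    · obtain ⟨x, hx, hxy⟩ := h
      have h2 : (1 : ℝ) ≤ ∑ x ∈ B, ind ((α σ)⁻¹ x = y) := by
        have h3 := Finset.single_le_sum (f := fun x => ind ((α σ)⁻¹ x = y))
          (fun x _ => ind_nonneg _) hx
        have h4 : ind ((α σ)⁻¹ x = y) = 1 := ind_true hxy
        exact h4.symm.le.trans h3
      refine le_trans ?_ h2
      rw [abs_le]
      have h5 := ind_nonneg (∀ x ∈ B, Function.update ω y a ((α σ)⁻¹ x) = π x)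
      have h6 := ind_nonneg (∀ x ∈ B, ω ((α σ)⁻¹ x) = π x)
      have h7 := ind_le_one (∀ x ∈ B, Function.update ω y a ((α σ)⁻¹ x) = π x)
      have h8 := ind_le_one (∀ x ∈ B, ω ((α σ)⁻¹ x) = π x)
      constructor <;> linarith
    · have h2 : ∀ x ∈ B, Function.update ω y a ((α σ)⁻¹ x) = ω ((α σ)⁻¹ x) := by
        intro x hx
        exact Function.update_of_ne (fun h3 => h ⟨x, hx, h3⟩) _ _
      have h3 : (∀ x ∈ B, Function.update ω y a ((α σ)⁻¹ x) = π x) ↔
          ∀ x ∈ B, ω ((α σ)⁻¹ x) = π x := by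
        constructor
        · intro h4 x hx
          rw [← h2 x hx]
          exact h4 x hx
        · intro h4 x hx
          rw [h2 x hx]
          exact h4 x hx
      rw [propext h3, sub_self, abs_zero]
      exact Finset.sum_nonneg fun x _ => ind_nonneg _
  have h2 : mn (fun σ : K => ∑ x ∈ B, ind ((α σ)⁻¹ x = y)) =
      (B.card : ℝ) / (Fintype.card X : ℝ) := by
    rw [mn_sum]
    have h3 : ∀ x ∈ B, mn (fun σ : K => ind ((α σ)⁻¹ x = y)) = (Fintype.card X : ℝ)⁻¹ := by
      intro x _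
      rw [mn_tr α htr x (fun z => ind (z = y))]
      have h4 := dna_card ({y} : Finset X)
      simp only [Finset.mem_singleton, Finset.card_singleton, Nat.cast_one, mul_one] at h4
      exact h4
    rw [Finset.sum_congr rfl h3, Finset.sum_const, nsmul_eq_mul, div_eq_mul_inv]
  rw [← h2, dnaf, dnaf, ← mn_sub, abs_le]
  constructor
  · have h3 : -mn (fun σ : K => ∑ x ∈ B, ind ((α σ)⁻¹ x = y)) =
        mn (fun σ : K => (-1) * ∑ x ∈ B, ind ((α σ)⁻¹ x = y)) := by
      rw [mn_mul_left]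
      ring
    rw [h3]
    refine mn_mono fun σ => ?_
    have := (abs_le.1 (h1 σ)).1
    linarith
  · exact mn_mono fun σ => (abs_le.1 (h1 σ)).2

end

/-- The probability that a pattern is not well distributed. -/
theorem dna_prob {K X : Type} [Group K] [Fintype K] [Fintype X] [DecidableEq X]
    (α : K →* Equiv.Perm X) (htr : ∀ x y : X, ∃ p, α p x = y) (q w : ℕ) (hq : 0 < q)
    (hw : (2 * q) ^ (4 * w) ≤ Fintype.card X) (B : Finset X) (hB : B.card ≤ w)
    (π : X → Bool × Fin q) :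
    mn (fun ω : X → Bool × Fin q => ind (¬ |dnaf α B π ω - ((2 * (q : ℝ)) ^ B.card)⁻¹| ≤
      1 / 4 * ((2 * (q : ℝ)) ^ B.card)⁻¹)) ≤
      2 * Real.exp (-(Real.sqrt (Fintype.card X) / (32 * (w : ℝ) ^ 2))) := by
  classical
  haveI : Nonempty (Bool × Fin q) := ⟨(true, ⟨0, hq⟩)⟩
  have hcΩ : (Fintype.card (Bool × Fin q) : ℝ) = 2 * q := by
    rw [Fintype.card_prod, Fintype.card_bool, Fintype.card_fin]
    push_cast
    ring
  have hmean : mn (dnaf α B π) = ((2 * (q : ℝ)) ^ B.card)⁻¹ := by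
    rw [dna_mean, hcΩ]
  rcases Nat.eq_zero_or_pos B.card with hk | hk
  · have hB0 : B = ∅ := Finset.card_eq_zero.1 hk
    have h1 : ∀ ω : X → Bool × Fin q, ind (¬ |dnaf α B π ω - ((2 * (q : ℝ)) ^ B.card)⁻¹| ≤
      1 / 4 * ((2 * (q : ℝ)) ^ B.card)⁻¹) = 0 := by
      intro ω
      refine ind_false (not_not.2 ?_)
      have h2 : dnaf α B π ω = 1 := by
        have h3 : ∀ σ : K, ind (∀ x ∈ B, ω ((α σ)⁻¹ x) = π x) = 1 := by
          intro σ
          refine ind_true ?_
          rw [hB0]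
          intro x hx
          exact absurd hx (Finset.notMem_empty x)
        rw [dnaf]
        simp only [h3]
        exact mn_const _
      rw [h2, hk]
      norm_num
    simp only [h1]
    have h2 : mn (fun _ : X → Bool × Fin q => (0 : ℝ)) = 0 := by
      rw [mn, Finset.sum_const_zero, mul_zero]
    rw [h2]
    positivity
  · have hn0 : 0 < Fintype.card X := by
      refine lt_of_lt_of_le ?_ hw
      positivity
    obtain ⟨n, hn⟩ : ∃ n : ℝ, n = (Fintype.card X : ℝ) := ⟨_, rfl⟩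
    have hn' : 0 < n := by rw [hn]; exact_mod_cast hn0
    obtain ⟨k, hkk⟩ : ∃ k : ℝ, k = (B.card : ℝ) := ⟨_, rfl⟩
    have hk' : 0 < k := by rw [hkk]; exact_mod_cast hk
    have hkw : k ≤ (w : ℝ) := by rw [hkk]; exact_mod_cast hB
    obtain ⟨m, hm⟩ : ∃ m : ℝ, m = (2 * (q : ℝ)) ^ B.card := ⟨_, rfl⟩
    have hm' : 0 < m := by rw [hm]; positivity
    have hq1 : (1 : ℝ) ≤ 2 * q := by
      have : (1 : ℝ) ≤ q := by exact_mod_cast hq
      linarith
    have hm2 : m ^ 2 ≤ Real.sqrt n := by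
      apply Real.le_sqrt_of_sq_le
      have h1 : (m ^ 2) ^ 2 = (2 * (q : ℝ)) ^ (4 * B.card) := by
        rw [hm, ← pow_mul, ← pow_mul]
        congr 1
        ring
      rw [h1, hn]
      have h2 : (2 * (q : ℝ)) ^ (4 * B.card) ≤ (2 * (q : ℝ)) ^ (4 * w) :=
        pow_le_pow_right₀ hq1 (by omega)
      refine h2.trans ?_
      exact_mod_cast hw
    have hb : 0 < k / n := by positivity
    have hτ : 0 ≤ 1 / 4 * m⁻¹ := by positivity
    have hlip : ∀ (ω : X → Bool × Fin q) x a,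
        |dnaf α B π (Function.update ω x a) - dnaf α B π ω| ≤ k / n := by
      intro ω x a
      rw [hkk, hn]
      exact dna_lip α htr B π ω x a
    have h1 := mcd (dnaf α B π) (k / n) (1 / 4 * m⁻¹) hb hτ hlip
    have h2 := mcd_lower (dnaf α B π) (k / n) (1 / 4 * m⁻¹) hb hτ hlip
    have h3 : Real.exp (-((1 / 4 * m⁻¹) ^ 2 / (2 * (Fintype.card X : ℝ) * (k / n) ^ 2))) ≤
        Real.exp (-(Real.sqrt (Fintype.card X) / (32 * (w : ℝ) ^ 2))) := by
      rw [Real.exp_le_exp, neg_le_neg_iff, ← hn]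
      have h4 : (1 / 4 * m⁻¹) ^ 2 / (2 * n * (k / n) ^ 2) = n / (32 * k ^ 2 * m ^ 2) := by
        field_simp
        ring
      rw [h4]
      have hs : 0 < Real.sqrt n := Real.sqrt_pos.2 hn'
      have hss : Real.sqrt n * Real.sqrt n = n := Real.mul_self_sqrt hn'.le
      have hw' : 0 < (w : ℝ) := lt_of_lt_of_le hk' hkw
      rw [div_le_div_iff₀ (by positivity) (by positivity)]
      have h5 : k ^ 2 ≤ (w : ℝ) ^ 2 := pow_le_pow_left₀ hk'.le hkw 2
      have h6 : k ^ 2 * m ^ 2 ≤ (w : ℝ) ^ 2 * Real.sqrt n :=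
        mul_le_mul h5 hm2 (by positivity) (by positivity)
      calc Real.sqrt n * (32 * k ^ 2 * m ^ 2) = 32 * Real.sqrt n * (k ^ 2 * m ^ 2) := by ring
        _ ≤ 32 * Real.sqrt n * ((w : ℝ) ^ 2 * Real.sqrt n) :=
          mul_le_mul_of_nonneg_left h6 (by positivity)
        _ = (Real.sqrt n * Real.sqrt n) * (32 * (w : ℝ) ^ 2) := by ring
        _ = n * (32 * (w : ℝ) ^ 2) := by rw [hss]
    rw [hmean, ← hm] at h1 h2
    rw [← hm]
    have h4 : mn (fun ω : X → Bool × Fin q => ind (¬ |dnaf α B π ω - m⁻¹| ≤ 1 / 4 * m⁻¹)) ≤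
        mn (fun ω => ind (m⁻¹ + 1 / 4 * m⁻¹ ≤ dnaf α B π ω) +
          ind (dnaf α B π ω ≤ m⁻¹ - 1 / 4 * m⁻¹)) := by
      refine mn_mono fun ω => ?_
      by_cases h5 : |dnaf α B π ω - m⁻¹| ≤ 1 / 4 * m⁻¹
      · rw [ind_false (not_not.2 h5)]
        exact add_nonneg (ind_nonneg _) (ind_nonneg _)
      · rw [ind_true h5]
        rw [abs_le, not_and_or, not_le, not_le] at h5
        rcases h5 with h5 | h5
        · rw [ind_true (show dnaf α B π ω ≤ m⁻¹ - 1 / 4 * m⁻¹ by linarith)]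
          have := ind_nonneg (m⁻¹ + 1 / 4 * m⁻¹ ≤ dnaf α B π ω)
          linarith
        · rw [ind_true (show m⁻¹ + 1 / 4 * m⁻¹ ≤ dnaf α B π ω by linarith)]
          have := ind_nonneg (dnaf α B π ω ≤ m⁻¹ - 1 / 4 * m⁻¹)
          linarith
    rw [mn_add] at h4
    linarith

/-- The numerical inequality. -/
theorem dna_num : ∃ N : ℕ, ∀ n q w : ℕ, N ≤ n → 0 < q → 0 < w → (2 * q) ^ (4 * w) ≤ n →
    ((w : ℝ) + 1) * ((2 * (q : ℝ)) * n) ^ w *
      (2 * Real.exp (-(Real.sqrt n / (32 * (w : ℝ) ^ 2)))) < 1 := by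
  have h1 : ∀ᶠ x : ℝ in Filter.atTop, ‖Real.log x ^ 4‖ ≤ 1 / 3072 * ‖id x‖ :=
    (Real.isLittleO_pow_log_id_atTop (n := 4)).def (by norm_num)
  have h2 : Filter.Tendsto (fun n : ℕ => Real.sqrt (n : ℝ)) Filter.atTop Filter.atTop :=
    Real.tendsto_sqrt_atTop.comp tendsto_natCast_atTop_atTop
  obtain ⟨N, hN⟩ := Filter.eventually_atTop.1 (h2.eventually h1)
  refine ⟨max N 3, fun n q w hn hq hw hqw => ?_⟩
  have hn1 : N ≤ n := (le_max_left _ _).trans hn
  have hn3 : 3 ≤ n := (le_max_right _ _).trans hn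
  have h3 := hN n hn1
  obtain ⟨x, hx⟩ : ∃ x : ℝ, x = (n : ℝ) := ⟨_, rfl⟩
  have hx3 : (3 : ℝ) ≤ x := by rw [hx]; exact_mod_cast hn3
  have hx0 : 0 < x := by linarith
  obtain ⟨L, hL⟩ : ∃ L : ℝ, L = Real.log x := ⟨_, rfl⟩
  have hL1 : 1 ≤ L := by
    rw [hL, Real.le_log_iff_exp_le hx0]
    have := Real.exp_one_lt_d9
    linarith
  have hlogs : Real.log (Real.sqrt x) = L / 2 := by
    rw [Real.log_sqrt hx0.le, hL]
  have hs0 : 0 < Real.sqrt x := Real.sqrt_pos.2 hx0
  have h4 : 192 * L ^ 4 ≤ Real.sqrt x := by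
    rw [← hx, hlogs] at h3
    simp only [id, Real.norm_eq_abs] at h3
    rw [abs_of_nonneg hs0.le, abs_of_nonneg (by positivity)] at h3
    have : (L / 2) ^ 4 = L ^ 4 / 16 := by ring
    rw [this] at h3
    linarith
  -- `2 ^ (4 w) ≤ n`
  have h5 : 2 ^ (4 * w) ≤ n :=
    (Nat.pow_le_pow_left (by omega) _).trans hqw
  have h6 : 2 * q ≤ n := by
    refine le_trans ?_ hqw
    calc 2 * q = (2 * q) ^ 1 := (pow_one _).symm
      _ ≤ (2 * q) ^ (4 * w) := Nat.pow_le_pow_right (by omega) (by omega)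
  have h7 : 4 * w ≤ n := (Nat.lt_two_pow_self).le.trans h5
  have h8 : (w : ℝ) ≤ L := by
    rw [hL, Real.le_log_iff_exp_le hx0]
    have h9 : Real.exp (w : ℝ) ≤ (2 : ℝ) ^ (4 * w) := by
      have h10 : Real.exp (w : ℝ) = Real.exp 1 ^ w := by
        rw [← Real.exp_nat_mul, mul_one]
      rw [h10, pow_mul]
      refine pow_le_pow_left₀ (Real.exp_pos _).le ?_ w
      have := Real.exp_one_lt_d9
      norm_num
      linarith
    refine h9.trans ?_
    rw [hx]
    exact_mod_cast h5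
  have hw1 : (1 : ℝ) ≤ w := by exact_mod_cast hw
  have h9 : ((w : ℝ) + 1) * ((2 * (q : ℝ)) * n) ^ w * 2 ≤ x ^ (2 * w + 1) := by
    have h10 : (2 * (q : ℝ)) * n ≤ x * x := by
      rw [hx]
      refine mul_le_mul_of_nonneg_right ?_ (Nat.cast_nonneg _)
      exact_mod_cast h6
    have h11 : ((2 * (q : ℝ)) * n) ^ w ≤ (x * x) ^ w :=
      pow_le_pow_left₀ (by positivity) h10 w
    have h12 : ((w : ℝ) + 1) * 2 ≤ x := by
      have : (4 : ℝ) * w ≤ x := by rw [hx]; exact_mod_cast h7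
      linarith
    calc ((w : ℝ) + 1) * ((2 * (q : ℝ)) * n) ^ w * 2
        = (((w : ℝ) + 1) * 2) * ((2 * (q : ℝ)) * n) ^ w := by ring
      _ ≤ x * (x * x) ^ w := mul_le_mul h12 h11 (by positivity) hx0.le
      _ = x ^ (2 * w + 1) := by ring
  have h10 : x ^ (2 * w + 1) = Real.exp ((2 * w + 1) * L) := by
    have h11 : x = Real.exp L := by rw [hL, Real.exp_log hx0]
    have h12 : Real.exp L ^ (2 * w + 1) = Real.exp (((2 * w + 1 : ℕ) : ℝ) * L) := by
      rw [Real.exp_nat_mul]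
    calc x ^ (2 * w + 1) = Real.exp L ^ (2 * w + 1) := by rw [← h11]
      _ = Real.exp (((2 * w + 1 : ℕ) : ℝ) * L) := h12
      _ = Real.exp ((2 * w + 1) * L) := by push_cast; rfl
  have h11 : (2 * (w : ℝ) + 1) * L < Real.sqrt x / (32 * (w : ℝ) ^ 2) := by
    rw [lt_div_iff₀ (by positivity)]
    have h12 : (w : ℝ) ^ 2 ≤ L ^ 2 := pow_le_pow_left₀ (by linarith) h8 2
    have h13 : (2 * (w : ℝ) + 1) * L ≤ 3 * L ^ 2 := by nlinarith
    have h14 : (2 * (w : ℝ) + 1) * L * (32 * (w : ℝ) ^ 2) ≤ 3 * L ^ 2 * (32 * L ^ 2) :=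
      mul_le_mul h13 (by linarith) (by positivity) (by positivity)
    have h15 : 0 < L ^ 4 := by positivity
    calc (2 * (w : ℝ) + 1) * L * (32 * (w : ℝ) ^ 2) ≤ 3 * L ^ 2 * (32 * L ^ 2) := h14
      _ = 96 * L ^ 4 := by ring
      _ < 192 * L ^ 4 := by linarith
      _ ≤ Real.sqrt x := h4
  calc ((w : ℝ) + 1) * ((2 * (q : ℝ)) * n) ^ w *
      (2 * Real.exp (-(Real.sqrt n / (32 * (w : ℝ) ^ 2))))
      = (((w : ℝ) + 1) * ((2 * (q : ℝ)) * n) ^ w * 2) *
        Real.exp (-(Real.sqrt x / (32 * (w : ℝ) ^ 2))) := by rw [hx]; ring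
    _ ≤ Real.exp ((2 * w + 1) * L) * Real.exp (-(Real.sqrt x / (32 * (w : ℝ) ^ 2))) :=
        mul_le_mul_of_nonneg_right (h9.trans h10.le) (Real.exp_pos _).le
    _ = Real.exp ((2 * w + 1) * L - Real.sqrt x / (32 * (w : ℝ) ^ 2)) := by
        rw [← Real.exp_add]
        congr 1
    _ < 1 := by
        rw [Real.exp_lt_one_iff]
        linarith

/-- Existence of a dense vector.

Proof. Let `Ω = Bool × Fin q`, `n = card X`. For `k ≤ w`, an injective `β : Fin k → X` and
`π : Fin k → Ω` let `f ω = mn_σ ind (∀ t, ω (σ⁻¹ (β t)) = π t)`, `ω : X → Ω`. `mn f = (2 q) ^ (-k)`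
(for every `σ` the points `σ⁻¹ (β t)` are different), a change of `ω` at one point changes `f` by at
most `k / n` (`mn_tr`). For `k ≥ 1`, `mcd` and `mcd_lower` with `b = k / n`,
`τ = (2 q) ^ (-k) / 4`: the probability of `|f - mn f| > τ` is at most
`2 exp (- n / (32 k ^ 2 (2 q) ^ (2 k))) ≤ 2 exp (- n / (32 w ^ 2 (2 q) ^ (2 w)))`. With
`a = (2 q) ^ w`, `a ^ 4 ≤ n`: the exponent is at least `√n / (32 w ^ 2)`. For `k = 0` there is
nothing to prove. The number of triples `(k, β, π)` is at most `w (2 q n) ^ w`; `2 q ≤ n`,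
`w ≤ Nat.log 2 n / 4`, so `2 w (2 q n) ^ w exp (- √n / (32 w ^ 2)) < 1` if `n ≥ N`: with
`L = Real.log n` one has `w ≤ L` (`2 ^ (4 w) ≤ n`), the logarithm is at most
`1 + L + 2 L ^ 2 - √n / (32 L ^ 2)`, negative for large `n`. So some `ω` has `|f - mn f| ≤ τ` for
all `k`, `β`, `π`, and a set `B` with `k` elements and a pattern on `B` come from some `β`, `π`
(`B.equivFin`). If `w = 0` only `B = ∅` has to be considered (`n ≥ 1`, `q ≥ 1` give some
`ω`). -/
theorem dense_exists : ∃ N : ℕ, ∀ (K X : Type) [Group K] [Fintype K] [Fintype X]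
    (α : K →* Equiv.Perm X), (∀ x y : X, ∃ p, α p x = y) → ∀ q w : ℕ, 0 < q →
    (2 * q) ^ (4 * w) ≤ Fintype.card X → N ≤ Fintype.card X →
    ∀ (G : Type) [Group G] (y : Fin q → G), ∃ Y : X → G, Dns α y w Y := by
  classical
  obtain ⟨N, hN⟩ := dna_num
  refine ⟨N, fun K X _ _ _ α htr q w hq hw hn G _ y => ?_⟩
  haveI : Nonempty (Bool × Fin q) := ⟨(true, ⟨0, hq⟩)⟩
  obtain ⟨a0⟩ := (inferInstance : Nonempty (Bool × Fin q))
  -- it suffices to find the pattern
  suffices h : ∃ ω : X → Bool × Fin q, ∀ B : Finset X, B.card ≤ w → ∀ π : X → Bool × Fin q,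
      |dnaf α B π ω - ((2 * (q : ℝ)) ^ B.card)⁻¹| ≤ 1 / 4 * ((2 * (q : ℝ)) ^ B.card)⁻¹ by
    obtain ⟨ω, hω⟩ := h
    exact ⟨fun x => if (ω x).1 = true then y (ω x).2 else 1, ω, fun x => rfl, hω⟩
  rcases Nat.eq_zero_or_pos w with hw0 | hw0
  · refine ⟨fun _ => a0, fun B hB π => ?_⟩
    rw [hw0, Nat.le_zero, Finset.card_eq_zero] at hB
    have h2 : dnaf α B π (fun _ => a0) = 1 := by
      have h3 : (fun σ : K => ind (∀ x ∈ B, (fun _ : X => a0) ((α σ)⁻¹ x) = π x)) =
          fun _ => (1 : ℝ) := by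
        funext σ
        refine ind_true ?_
        rw [hB]
        intro x hx
        exact absurd hx (Finset.notMem_empty x)
      rw [dnaf, h3]
      exact mn_const _
    rw [h2, hB, Finset.card_empty]
    norm_num
  · by_contra hcon
    push Not at hcon
    obtain ⟨R, hR⟩ : ∃ R : Finset X → Finset (X → Bool × Fin q), R =
      fun B => Fintype.piFinset (fun x => if x ∈ B then Finset.univ else {a0}) := ⟨_, rfl⟩
    obtain ⟨bad, hbad⟩ : ∃ bad : Finset X → (X → Bool × Fin q) → (X → Bool × Fin q) → ℝ,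
      bad = fun B π ω => ind (¬ |dnaf α B π ω - ((2 * (q : ℝ)) ^ B.card)⁻¹| ≤
        1 / 4 * ((2 * (q : ℝ)) ^ B.card)⁻¹) := ⟨_, rfl⟩
    have hbad0 : ∀ B π ω, 0 ≤ bad B π ω := by
      intro B π ω
      rw [hbad]
      exact ind_nonneg _
    have hRc : ∀ B, (R B).card = (2 * q) ^ B.card := by
      intro B
      rw [hR, Fintype.card_piFinset]
      have h3 : ∀ x : X, (if x ∈ B then (Finset.univ : Finset (Bool × Fin q)) else {a0}).card =
          if x ∈ B then 2 * q else 1 := by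
        intro x
        by_cases hx : x ∈ B
        · simp [hx]
        · simp [hx]
      rw [Finset.prod_congr rfl fun x _ => h3 x, Finset.prod_ite_mem, Finset.univ_inter,
        Finset.prod_const]
    have h1 : ∀ ω : X → Bool × Fin q, (1 : ℝ) ≤ ∑ k ∈ Finset.range (w + 1),
        ∑ B ∈ Finset.powersetCard k (Finset.univ : Finset X), ∑ π ∈ R B, bad B π ω := by
      intro ω
      obtain ⟨B, hB, π, hπ⟩ := hcon ω
      obtain ⟨π', hπ'⟩ : ∃ π' : X → Bool × Fin q, π' = fun x => if x ∈ B then π x else a0 :=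
        ⟨_, rfl⟩
      have h2 : π' ∈ R B := by
        rw [hR, hπ', Fintype.mem_piFinset]
        intro x
        by_cases hx : x ∈ B
        · simp [hx]
        · simp [hx]
      have h3 : dnaf α B π' ω = dnaf α B π ω := by
        rw [dnaf, dnaf]
        congr 1
        funext σ
        have h4 : (∀ x ∈ B, ω ((α σ)⁻¹ x) = π' x) ↔ ∀ x ∈ B, ω ((α σ)⁻¹ x) = π x := by
          refine forall_congr' fun x => forall_congr' fun hx => ?_
          rw [hπ']
          simp only [hx, if_true]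
        rw [propext h4]
      have h4 : bad B π' ω = 1 := by
        rw [hbad]
        refine ind_true ?_
        rw [h3]
        exact not_le.2 hπ
      calc (1 : ℝ) = bad B π' ω := h4.symm
        _ ≤ ∑ π ∈ R B, bad B π ω :=
            Finset.single_le_sum (f := fun π => bad B π ω) (fun π _ => hbad0 B π ω) h2
        _ ≤ ∑ B ∈ Finset.powersetCard B.card (Finset.univ : Finset X),
              ∑ π ∈ R B, bad B π ω :=
            Finset.single_le_sum (f := fun B => ∑ π ∈ R B, bad B π ω)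
              (fun B _ => Finset.sum_nonneg fun π _ => hbad0 B π ω)
              (Finset.mem_powersetCard.2 ⟨Finset.subset_univ _, rfl⟩)
        _ ≤ _ :=
            Finset.single_le_sum (f := fun k => ∑ B ∈ Finset.powersetCard k
                (Finset.univ : Finset X), ∑ π ∈ R B, bad B π ω)
              (fun k _ => Finset.sum_nonneg fun B _ => Finset.sum_nonneg
                fun π _ => hbad0 B π ω)
              (Finset.mem_range.2 (by omega))
    obtain ⟨E, hE⟩ : ∃ E : ℝ, E =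
      2 * Real.exp (-(Real.sqrt (Fintype.card X) / (32 * (w : ℝ) ^ 2))) := ⟨_, rfl⟩
    have hE0 : 0 ≤ E := by rw [hE]; positivity
    have h2 : mn (fun ω : X → Bool × Fin q => ∑ k ∈ Finset.range (w + 1),
        ∑ B ∈ Finset.powersetCard k (Finset.univ : Finset X), ∑ π ∈ R B, bad B π ω) ≤
        ((w : ℝ) + 1) * ((2 * (q : ℝ)) * (Fintype.card X : ℝ)) ^ w * E := by
      rw [mn_sum]
      have hq1 : (1 : ℝ) ≤ 2 * q := by
        have : (1 : ℝ) ≤ q := by exact_mod_cast hq
        linarith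
      have hX0 : 0 < Fintype.card X := by
        refine lt_of_lt_of_le ?_ hw
        positivity
      have hX1 : (1 : ℝ) ≤ Fintype.card X := by exact_mod_cast hX0
      have h3 : ∀ k ∈ Finset.range (w + 1), mn (fun ω : X → Bool × Fin q =>
          ∑ B ∈ Finset.powersetCard k (Finset.univ : Finset X), ∑ π ∈ R B, bad B π ω) ≤
          ((2 * (q : ℝ)) * (Fintype.card X : ℝ)) ^ w * E := by
        intro k hk
        rw [Finset.mem_range] at hk
        rw [mn_sum]
        have h4 : ∀ B ∈ Finset.powersetCard k (Finset.univ : Finset X),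
            mn (fun ω : X → Bool × Fin q => ∑ π ∈ R B, bad B π ω) ≤ (2 * (q : ℝ)) ^ k * E := by
          intro B hB
          rw [Finset.mem_powersetCard] at hB
          rw [mn_sum]
          have h5 : ∀ π ∈ R B, mn (bad B π) ≤ E := by
            intro π _
            rw [hbad, hE]
            exact dna_prob α htr q w hq hw B (by omega) π
          refine (Finset.sum_le_sum h5).trans ?_
          rw [Finset.sum_const, nsmul_eq_mul, hRc, hB.2]
          push_cast
          exact le_rfl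
        refine (Finset.sum_le_sum h4).trans ?_
        rw [Finset.sum_const, nsmul_eq_mul, Finset.card_powersetCard, Finset.card_univ]
        have h5 : (((Fintype.card X).choose k : ℕ) : ℝ) ≤ (Fintype.card X : ℝ) ^ k := by
          exact_mod_cast Nat.choose_le_pow _ _
        calc (((Fintype.card X).choose k : ℕ) : ℝ) * ((2 * (q : ℝ)) ^ k * E)
            ≤ (Fintype.card X : ℝ) ^ k * ((2 * (q : ℝ)) ^ k * E) :=
              mul_le_mul_of_nonneg_right h5 (by positivity)
          _ = ((2 * (q : ℝ)) * (Fintype.card X : ℝ)) ^ k * E := by rw [mul_pow]; ring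
          _ ≤ ((2 * (q : ℝ)) * (Fintype.card X : ℝ)) ^ w * E := by
              refine mul_le_mul_of_nonneg_right ?_ hE0
              refine pow_le_pow_right₀ ?_ (by omega)
              exact one_le_mul_of_one_le_of_one_le hq1 hX1
      refine (Finset.sum_le_sum h3).trans ?_
      rw [Finset.sum_const, nsmul_eq_mul, Finset.card_range, ← mul_assoc]
      push_cast
      exact le_rfl
    have h3 : (1 : ℝ) ≤ mn (fun ω : X → Bool × Fin q => ∑ k ∈ Finset.range (w + 1),
        ∑ B ∈ Finset.powersetCard k (Finset.univ : Finset X), ∑ π ∈ R B, bad B π ω) :=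
      le_mn h1
    have h4 := hN (Fintype.card X) q w hn hq hw0 hw
    rw [← hE] at h4
    linarith

end Pool.Agent.MPfe8e9bV
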