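import Mathlib
import Pool.Agent.Lib.MP_fe8e9b_al_V.Defs

/-!
# MP_fe8e9b_al, wreath products over large sets: equidistributed vectors
-/

set_option autoImplicit false

open scoped BigOperators

namespace Pool.Agent.MPfe8e9bV

open Pool.Agent.MPfe8e9b Pool.Agent.MPfe8e9bA Pool.Agent.MPfe8e9bW

/-- A mean of indicators is bounded below by the size of a finite set of points which have the
property. -/
theorem frqE_mn {X : Type} [Fintype X] (p : X → Prop) {K : Type} (s : Finset K) (f : K → X)
    (hf : ∀ a ∈ s, p (f a)) (hi : ∀ a ∈ s, ∀ b ∈ s, f a = f b → a = b) :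
    ((Fintype.card X : ℝ))⁻¹ * (s.card : ℝ) ≤ mn (fun x => ind (p x)) := by
  classical
  unfold mn
  refine mul_le_mul_of_nonneg_left ?_ (inv_nonneg.2 (Nat.cast_nonneg _))
  have h1 : (s.card : ℝ) = ∑ x ∈ s.image f, ind (p x) := by
    rw [Finset.sum_congr rfl (g := fun _ => (1 : ℝ)), Finset.sum_const, nsmul_eq_mul, mul_one,
      Finset.card_image_of_injOn]
    · intro a ha b hb hab
      exact hi a ha b hb hab
    · intro x hx
      obtain ⟨a, ha, rfl⟩ := Finset.mem_image.1 hx
      exact ind_true (hf a ha)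
  rw [h1]
  exact Finset.sum_le_sum_of_subset_of_nonneg (Finset.subset_univ _)
    fun x _ _ => ind_nonneg _

/-- An equidistributed vector.

Proof. Identify `X` with `Fin n` (`Fintype.equivFin`). The label of `t` is `some (t % (2 q))` if
`t % (2 q) < q` and `none` otherwise. Every residue class modulo `2 q` has at least
`n / (2 q)` (integer part) `≥ n / (4 q)` (real) elements since `2 q ≤ n`
(`t = 2 q a + c`, `a < n / (2 q)`), and `q` classes have the label `none`. -/
theorem frq_exists {X : Type} [Fintype X] {q : ℕ} (hq : 0 < q) (hX : 2 * q ≤ Fintype.card X)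
    {G : Type} [Group G] (y : Fin q → G) : ∃ Y : X → G, Frq y Y := by
  classical
  obtain ⟨n, hn⟩ : ∃ n, n = Fintype.card X := ⟨_, rfl⟩
  let e : X ≃ Fin n := hn ▸ Fintype.equivFin X
  have hn2 : 2 * q ≤ n := hn ▸ hX
  obtain ⟨m, hm⟩ : ∃ m, m = n / (2 * q) := ⟨_, rfl⟩
  have hq2 : 0 < 2 * q := by omega
  have hm1 : 1 ≤ m := by
    rw [hm]
    exact (Nat.one_le_div_iff hq2).2 hn2
  have hmn : m * (2 * q) ≤ n := by
    rw [hm]
    exact Nat.div_mul_le_self n (2 * q)
  have hnm : n < (m + 1) * (2 * q) := by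
    have h := Nat.lt_mul_div_succ n hq2
    rw [← hm] at h
    rw [Nat.mul_comm]
    exact h
  have hnm4 : n ≤ m * (4 * q) := by nlinarith
  have hbd : ∀ a c : ℕ, a < m → c < 2 * q → 2 * q * a + c < n := by
    intro a c ha hc
    have h1 : (a + 1) * (2 * q) ≤ m * (2 * q) := Nat.mul_le_mul_right _ ha
    nlinarith
  have hmod : ∀ a c : ℕ, c < 2 * q → (2 * q * a + c) % (2 * q) = c := by
    intro a c hc
    rw [Nat.mul_add_mod]
    exact Nat.mod_eq_of_lt hc
  have hnpos : 0 < n := by omega
  have hdef : ∀ a c : ℕ, (2 * q * a + c) % (2 * q) = c % (2 * q) := fun a c => by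
    rw [Nat.mul_add_mod]
  -- the points
  let pt : ℕ → ℕ → X := fun a c => e.symm ⟨(2 * q * a + c) % n, Nat.mod_lt _ hnpos⟩
  have hpt : ∀ a c : ℕ, a < m → c < 2 * q → ((e (pt a c) : Fin n) : ℕ) = 2 * q * a + c := by
    intro a c ha hc
    simp only [pt, Equiv.apply_symm_apply]
    exact Nat.mod_eq_of_lt (hbd a c ha hc)
  let lam : X → Option (Fin q) := fun x =>
    if h : ((e x : Fin n) : ℕ) % (2 * q) < q then some ⟨((e x : Fin n) : ℕ) % (2 * q), h⟩
    else none
  have hc : (Fintype.card X : ℝ) = (n : ℝ) := by rw [← hn]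
  have hnr : (0 : ℝ) < (n : ℝ) := by exact_mod_cast hnpos
  have hqr : (0 : ℝ) < (q : ℝ) := by exact_mod_cast hq
  have hr : (n : ℝ) ≤ (m : ℝ) * (4 * (q : ℝ)) := by exact_mod_cast hnm4
  refine ⟨fun x => (lam x).elim 1 y, lam, fun x => rfl, ?_, ?_⟩
  · intro j
    have h1 := frqE_mn (fun x => lam x = some j) (Finset.range m) (fun a => pt a j)
      (fun a ha => ?_) (fun a ha b hb hab => ?_)
    · refine le_trans ?_ h1
      rw [Finset.card_range, hc, ← div_eq_inv_mul, div_le_div_iff₀ (by positivity) hnr]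
      linarith
    · have ha' := Finset.mem_range.1 ha
      have hj : (j : ℕ) < 2 * q := by have := j.2; omega
      have h2 := hpt a j ha' hj
      have h3 : ((e (pt a j) : Fin n) : ℕ) % (2 * q) = j := by rw [h2]; exact hmod a j hj
      have h4 : ((e (pt a j) : Fin n) : ℕ) % (2 * q) < q := by rw [h3]; exact j.2
      simp only [lam]
      rw [dif_pos h4]
      congr 1
      exact Fin.ext h3
    · have ha' := Finset.mem_range.1 ha
      have hb' := Finset.mem_range.1 hb
      have hj : (j : ℕ) < 2 * q := by have := j.2; omega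
      have h2 := hpt a j ha' hj
      have h3 := hpt b j hb' hj
      have h4 : 2 * q * a + j = 2 * q * b + j := by
        rw [← h2, ← h3]
        rw [hab]
      have h5 : 2 * q * a = 2 * q * b := by omega
      exact Nat.eq_of_mul_eq_mul_left hq2 h5
  · have h1 := frqE_mn (fun x => lam x = none) (Finset.range m ×ˢ Finset.range q)
      (fun a => pt a.1 (q + a.2)) (fun a ha => ?_) (fun a ha b hb hab => ?_)
    · refine le_trans ?_ h1
      rw [Finset.card_product, Finset.card_range, Finset.card_range, hc, ← div_eq_inv_mul,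
        div_le_div_iff₀ (by norm_num) hnr]
      push_cast
      linarith
    · obtain ⟨ha1, ha2⟩ := Finset.mem_product.1 ha
      have ha1' := Finset.mem_range.1 ha1
      have ha2' := Finset.mem_range.1 ha2
      have hj : q + a.2 < 2 * q := by omega
      have h2 := hpt a.1 (q + a.2) ha1' hj
      have h3 : ((e (pt a.1 (q + a.2)) : Fin n) : ℕ) % (2 * q) = q + a.2 := by
        rw [h2]; exact hmod a.1 (q + a.2) hj
      have h4 : ¬ ((e (pt a.1 (q + a.2)) : Fin n) : ℕ) % (2 * q) < q := by rw [h3]; omega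
      simp only [lam]
      rw [dif_neg h4]
    · obtain ⟨ha1, ha2⟩ := Finset.mem_product.1 ha
      have ha1' := Finset.mem_range.1 ha1
      have ha2' := Finset.mem_range.1 ha2
      obtain ⟨hb1, hb2⟩ := Finset.mem_product.1 hb
      have hb1' := Finset.mem_range.1 hb1
      have hb2' := Finset.mem_range.1 hb2
      have hj : q + a.2 < 2 * q := by omega
      have hk : q + b.2 < 2 * q := by omega
      have h2 := hpt a.1 (q + a.2) ha1' hj
      have h3 := hpt b.1 (q + b.2) hb1' hk
      have h4 : 2 * q * a.1 + (q + a.2) = 2 * q * b.1 + (q + b.2) := by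
        rw [← h2, ← h3]
        rw [hab]
      have h5 : q + a.2 = q + b.2 := by
        have h6 := hmod a.1 (q + a.2) hj
        have h7 := hmod b.1 (q + b.2) hk
        rw [← h6, ← h7, h4]
      have h8 : 2 * q * a.1 = 2 * q * b.1 := by omega
      exact Prod.ext (Nat.eq_of_mul_eq_mul_left hq2 h8) (by omega)

end Pool.Agent.MPfe8e9bV
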