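import Mathlib
import Pool.Agent.Lib.MP_fe8e9b_al_V.Defs

/-!
# MP_fe8e9b_al, wreath products over large sets: encoding all scales in two vectors
-/

set_option autoImplicit false

open scoped BigOperators

namespace Pool.Agent.MPfe8e9bV

open Pool.Agent.MPfe8e9b Pool.Agent.MPfe8e9bA Pool.Agent.MPfe8e9bW

/-- Encoding.

Proof. `z x = u (l x)` for `x ∈ Z` and `1` otherwise; `z' x'` is `w (l (α (h s) x'))` if there is `s`
with `α (h s) x' ∈ T s` and `α (h s') x' ∉ Z` for all `s' ≠ s` (this `s` is unique since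
`T s ⊆ Z`), and `1` otherwise. Let `x' = (α (h s))⁻¹ x`, so `α (h s) x' = x`. If `x ∉ Z` then
`z x = 1`, and `x ∉ T s`. If `x ∈ Z` and `z' x'` is defined with the index `s₀`, then `s₀ = s`
(otherwise `α (h s) x' = x ∉ Z`), so `x ∈ T s` and the condition holds. -/
theorem enc {K X : Type} [Group K] (α : K →* Equiv.Perm X) {S r : ℕ} (h : Fin S → K)
    (Z : Finset X) (T : Fin S → Finset X) (hT : ∀ s, T s ⊆ Z) (l : X → Fin r) {G : Type}
    [Group G] (u w : Fin r → G) :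
    ∃ z z' : X → G, ∀ (s : Fin S) (x : X),
      ((x ∈ T s ∧ ∀ s', s' ≠ s → α (h s') ((α (h s))⁻¹ x) ∉ Z) →
        cm (z x) (z' ((α (h s))⁻¹ x)) = cm (u (l x)) (w (l x))) ∧
      (¬ (x ∈ T s ∧ ∀ s', s' ≠ s → α (h s') ((α (h s))⁻¹ x) ∉ Z) →
        cm (z x) (z' ((α (h s))⁻¹ x)) = 1) := by
  classical
  refine ⟨fun x => if x ∈ Z then u (l x) else 1,
    fun x' => if h0 : ∃ s, α (h s) x' ∈ T s ∧ ∀ s', s' ≠ s → α (h s') x' ∉ Z then
      w (l (α (h h0.choose) x')) else 1, ?_⟩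
  intro s x
  have hx : α (h s) ((α (h s))⁻¹ x) = x := by simp
  constructor
  · rintro ⟨hxT, hs⟩
    have h0 : ∃ s₀, α (h s₀) ((α (h s))⁻¹ x) ∈ T s₀ ∧
        ∀ s', s' ≠ s₀ → α (h s') ((α (h s))⁻¹ x) ∉ Z := ⟨s, by rw [hx]; exact hxT, hs⟩
    have h1 : h0.choose = s := by
      by_contra hne
      exact hs _ hne (hT _ h0.choose_spec.1)
    have h2 : x ∈ Z := hT s hxT
    dsimp only
    rw [dif_pos h0, if_pos h2, h1, hx]
  · intro hn
    dsimp only
    by_cases h2 : x ∈ Z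
    · by_cases h0 : ∃ s₀, α (h s₀) ((α (h s))⁻¹ x) ∈ T s₀ ∧
        ∀ s', s' ≠ s₀ → α (h s') ((α (h s))⁻¹ x) ∉ Z
      · exfalso
        obtain ⟨s₀, ha, hb⟩ := h0
        have h1 : s = s₀ := by
          by_contra hne
          exact hb s hne (by rw [hx]; exact h2)
        subst h1
        exact hn ⟨by rw [hx] at ha; exact ha, hb⟩
      · rw [dif_neg h0, cm_one_right]
    · rw [if_neg h2, cm_one_left]

end Pool.Agent.MPfe8e9bV
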