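import Mathlib
import Pool.Agent.Lib.MP_fe8e9b_al_V.Defs

/-!
# MP_fe8e9b_al, wreath products over large sets: counting fixed points
-/

set_option autoImplicit false

open scoped BigOperators

namespace Pool.Agent.MPfe8e9bV

open Pool.Agent.MPfe8e9b Pool.Agent.MPfe8e9bA Pool.Agent.MPfe8e9bW

/-- The number of functions `h` which fix `x` (for two different indices), times `card X`. -/
theorem bur_card {K X : Type} [Group K] [Fintype K] [Fintype X] [DecidableEq X]
    (α : K →* Equiv.Perm X) (htr : ∀ x y : X, ∃ p, α p x = y) {S : ℕ} (s s' : Fin S)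
    (hs : s ≠ s') (x : X) :
    Fintype.card X * (Finset.univ.filter (fun h : Fin S → K =>
      α (h s) ((α (h s'))⁻¹ x) = x)).card = Fintype.card (Fin S → K) := by
  classical
  have h1 : (Finset.univ : Finset (Fin S → K)).card = ∑ z : X,
      (Finset.univ.filter (fun h : Fin S → K => α (h s) ((α (h s'))⁻¹ x) = z)).card :=
    Finset.card_eq_sum_card_fiberwise (f := fun h : Fin S → K => α (h s) ((α (h s'))⁻¹ x))
      (s := Finset.univ) (t := Finset.univ) (fun _ _ => Finset.mem_univ _)
  have h2 : ∀ z : X,
      (Finset.univ.filter (fun h : Fin S → K => α (h s) ((α (h s'))⁻¹ x) = z)).card =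
      (Finset.univ.filter (fun h : Fin S → K => α (h s) ((α (h s'))⁻¹ x) = x)).card := by
    intro z
    obtain ⟨p, hp⟩ := htr z x
    refine Finset.card_bij' (fun h _ => Function.update h s (p * h s))
      (fun h _ => Function.update h s (p⁻¹ * h s)) ?_ ?_ ?_ ?_
    · intro h hh
      have h3 := (Finset.mem_filter.1 hh).2
      refine Finset.mem_filter.2 ⟨Finset.mem_univ _, ?_⟩
      rw [Function.update_self, Function.update_of_ne hs.symm, map_mul, Equiv.Perm.mul_apply, h3,
        hp]
    · intro h hh
      have h3 := (Finset.mem_filter.1 hh).2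
      refine Finset.mem_filter.2 ⟨Finset.mem_univ _, ?_⟩
      rw [Function.update_self, Function.update_of_ne hs.symm, map_mul, Equiv.Perm.mul_apply, h3,
        map_inv, Equiv.Perm.inv_eq_iff_eq, hp]
    · intro h _
      simp
    · intro h _
      simp
  rw [← Finset.card_univ (α := Fin S → K), h1, Finset.sum_congr rfl fun z _ => h2 z,
    Finset.sum_const, Finset.card_univ, smul_eq_mul]

/-- Elements of a transitive group with few coincidences.

Proof. For `s ≠ s'` and a point `x` the number of pairs `(a, b)` in `K × K` with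
`α a ((α b)⁻¹ x) = x`, that is `(α b)⁻¹ x = (α a)⁻¹ x`, is `card K ^ 2 / card X` (`lay_fib2`), so the
mean over `h : Fin S → K` of the indicator of `α (h s) ((α (h s'))⁻¹ x) = x` is `1 / card X` (the
pair `(h s, h s')` is uniform). The mean over `h` of the number of triples is `≤ S ^ 2`, so some `h`
has at most `S ^ 2` triples (otherwise the mean would be larger). -/
theorem bur {K X : Type} [Group K] [Fintype K] [Fintype X] [DecidableEq X]
    (α : K →* Equiv.Perm X) (htr : ∀ x y : X, ∃ p, α p x = y) (S : ℕ) :
    ∃ h : Fin S → K, (Finset.univ.filter (fun p : (Fin S × Fin S) × X =>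
      p.1.1 ≠ p.1.2 ∧ α (h p.1.1) ((α (h p.1.2))⁻¹ p.2) = p.2)).card ≤ S ^ 2 := by
  classical
  have hsum : ∑ h : Fin S → K, (Finset.univ.filter (fun p : (Fin S × Fin S) × X =>
      p.1.1 ≠ p.1.2 ∧ α (h p.1.1) ((α (h p.1.2))⁻¹ p.2) = p.2)).card ≤
      ∑ _h : Fin S → K, S ^ 2 := by
    have h1 : ∀ q : Fin S × Fin S, ∑ x : X, ∑ h : Fin S → K,
        (if q.1 ≠ q.2 ∧ α (h q.1) ((α (h q.2))⁻¹ x) = x then 1 else 0) ≤
        Fintype.card (Fin S → K) := by
      intro q
      by_cases hq : q.1 ≠ q.2
      · rcases Nat.eq_zero_or_pos (Fintype.card X) with h0 | hpos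
        · have := Fintype.card_eq_zero_iff.1 h0
          simp
        · have h2 : ∀ x : X, ∑ h : Fin S → K,
              (if q.1 ≠ q.2 ∧ α (h q.1) ((α (h q.2))⁻¹ x) = x then 1 else 0) ≤
              Fintype.card (Fin S → K) / Fintype.card X := by
            intro x
            have h3 := bur_card α htr q.1 q.2 hq x
            rw [← Finset.card_filter, Nat.le_div_iff_mul_le hpos, mul_comm]
            refine (Nat.mul_le_mul_left _ (Finset.card_le_card ?_)).trans h3.le
            intro h hh
            exact Finset.mem_filter.2 ⟨Finset.mem_univ _, (Finset.mem_filter.1 hh).2.2⟩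
          refine (Finset.sum_le_sum fun x _ => h2 x).trans ?_
          rw [Finset.sum_const, Finset.card_univ, smul_eq_mul]
          exact Nat.mul_div_le _ _
      · refine le_trans (le_of_eq ?_) (Nat.zero_le _)
        refine Finset.sum_eq_zero fun x _ => Finset.sum_eq_zero fun h _ => ?_
        rw [if_neg (fun hh => hq hh.1)]
    calc ∑ h : Fin S → K, (Finset.univ.filter (fun p : (Fin S × Fin S) × X =>
          p.1.1 ≠ p.1.2 ∧ α (h p.1.1) ((α (h p.1.2))⁻¹ p.2) = p.2)).card
        = ∑ q : Fin S × Fin S, ∑ x : X, ∑ h : Fin S → K,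
          (if q.1 ≠ q.2 ∧ α (h q.1) ((α (h q.2))⁻¹ x) = x then 1 else 0) := by
          simp only [Finset.card_filter]
          rw [Finset.sum_comm, Fintype.sum_prod_type]
      _ ≤ ∑ _q : Fin S × Fin S, Fintype.card (Fin S → K) :=
          Finset.sum_le_sum fun q _ => h1 q
      _ = ∑ _h : Fin S → K, S ^ 2 := by
          rw [Finset.sum_const, Finset.sum_const, Finset.card_univ, Finset.card_univ,
            Fintype.card_prod, Fintype.card_fin, smul_eq_mul, smul_eq_mul]
          ring
  obtain ⟨h, _, hh⟩ := Finset.exists_le_of_sum_le (Finset.univ_nonempty) hsum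
  exact ⟨h, hh⟩

end Pool.Agent.MPfe8e9bV
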