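import Mathlib
import Pool.Agent.Lib.MP_fe8e9b_al_V.Defs

/-!
# MP_fe8e9b_al, wreath products over large sets: the numerical union bound
-/

set_option autoImplicit false

open scoped BigOperators

namespace Pool.Agent.MPfe8e9bV

open Pool.Agent.MPfe8e9b Pool.Agent.MPfe8e9bA Pool.Agent.MPfe8e9bW

private theorem lv1_exp {x : ℝ} (hx : 0 < x) :
    Real.exp (-x) ≤ (Nat.factorial 20 : ℝ) / x ^ 20 := by
  have h := Real.pow_div_factorial_le_exp x hx.le 20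
  have h0 : (0 : ℝ) < x ^ 20 / (Nat.factorial 20 : ℝ) := by positivity
  rw [Real.exp_neg, ← inv_div]
  exact inv_anti₀ h0 h

private theorem lv1_sq {n m S : ℕ} (hn : 40 ≤ n) (hm : m ^ 5 ≤ n) (hS : S ≤ m) :
    10 * S ^ 2 ≤ n := by
  have h1 : S ^ 2 ≤ m ^ 2 := Nat.pow_le_pow_left hS 2
  rcases Nat.lt_or_ge m 3 with h3 | h3
  · have h4 : m ^ 2 ≤ 2 ^ 2 := Nat.pow_le_pow_left (by omega) 2
    linarith
  · have h4 : 3 ^ 3 ≤ m ^ 3 := Nat.pow_le_pow_left h3 3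
    have h5 : 10 * m ^ 2 ≤ m ^ 5 := by
      calc 10 * m ^ 2 ≤ m ^ 3 * m ^ 2 := Nat.mul_le_mul_right _ (by linarith)
        _ = m ^ 5 := by ring
    linarith

private theorem lv1_num {D r n m S c K : ℝ} (hD : 0 < D) (hr : 0 < r) (hn : 1 ≤ n) (hm : 1 ≤ m)
    (hm5 : m ^ 5 ≤ n) (hS : 0 < S) (hSm : S ≤ m) (hc0 : 0 < c)
    (hc1 : c ≤ 1 / (25 * D ^ 2 * r ^ 2)) (hc2 : c ≤ 1 / (8 * D ^ 4))
    (hK : K = (Nat.factorial 20 : ℝ) / c ^ 20) (hnK : (r + 1) * K < n) :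
    S * (r * Real.exp (-(n * (1 / (D * m * r)) ^ 2 / (25 * S ^ 2))) +
      n ^ 2 * Real.exp (-(n * (1 / (D * m)) ^ 4 / 8))) < 1 := by
  have hn0 : 0 < n := by linarith
  have hm0 : 0 < m := by linarith
  have hK0 : 0 < K := by
    rw [hK]
    positivity
  have hmn : S ≤ n := by
    refine hSm.trans (le_trans ?_ hm5)
    calc m = m ^ 1 := (pow_one m).symm
      _ ≤ m ^ 5 := pow_le_pow_right₀ hm (by norm_num)
  obtain ⟨x, hx⟩ : ∃ x : ℝ, x = c * n / m ^ 4 := ⟨_, rfl⟩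
  have hx0 : 0 < x := by
    rw [hx]
    positivity
  have hA : x ≤ n * (1 / (D * m * r)) ^ 2 / (25 * S ^ 2) := by
    have e : n * (1 / (D * m * r)) ^ 2 / (25 * S ^ 2) =
        (1 / (25 * D ^ 2 * r ^ 2)) * n / (m ^ 2 * S ^ 2) := by
      field_simp
    have h4 : m ^ 2 * S ^ 2 ≤ m ^ 4 := by
      have h5 : S ^ 2 ≤ m ^ 2 := pow_le_pow_left₀ hS.le hSm 2
      calc m ^ 2 * S ^ 2 ≤ m ^ 2 * m ^ 2 := mul_le_mul_of_nonneg_left h5 (by positivity)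
        _ = m ^ 4 := by ring
    rw [e, hx]
    exact div_le_div₀ (by positivity) (mul_le_mul_of_nonneg_right hc1 hn0.le) (by positivity) h4
  have hB : x ≤ n * (1 / (D * m)) ^ 4 / 8 := by
    have e : n * (1 / (D * m)) ^ 4 / 8 = (1 / (8 * D ^ 4)) * n / m ^ 4 := by
      field_simp
    rw [e, hx]
    exact div_le_div_of_nonneg_right (mul_le_mul_of_nonneg_right hc2 hn0.le) (by positivity)
  have hE : Real.exp (-x) ≤ K / n ^ 4 := by
    refine (lv1_exp hx0).trans ?_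
    have h80 : m ^ (4 * 20) ≤ n ^ 16 := by
      calc m ^ (4 * 20) = (m ^ 5) ^ 16 := by rw [← pow_mul]
        _ ≤ n ^ 16 := pow_le_pow_left₀ (by positivity) hm5 16
    have hx20 : c ^ 20 * n ^ 4 ≤ x ^ 20 := by
      rw [hx, div_pow, mul_pow, ← pow_mul, le_div_iff₀ (by positivity)]
      calc c ^ 20 * n ^ 4 * m ^ (4 * 20) ≤ c ^ 20 * n ^ 4 * n ^ 16 :=
            mul_le_mul_of_nonneg_left h80 (by positivity)
        _ = c ^ 20 * n ^ 20 := by ring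
    rw [hK, div_div]
    exact div_le_div_of_nonneg_left (by positivity) (by positivity) hx20
  have hEA : Real.exp (-(n * (1 / (D * m * r)) ^ 2 / (25 * S ^ 2))) ≤ K / n ^ 4 :=
    (Real.exp_le_exp.2 (neg_le_neg hA)).trans hE
  have hEB : Real.exp (-(n * (1 / (D * m)) ^ 4 / 8)) ≤ K / n ^ 4 :=
    (Real.exp_le_exp.2 (neg_le_neg hB)).trans hE
  have hKn : 0 ≤ K / n ^ 4 := by positivity
  have hsum : r * Real.exp (-(n * (1 / (D * m * r)) ^ 2 / (25 * S ^ 2))) +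
      n ^ 2 * Real.exp (-(n * (1 / (D * m)) ^ 4 / 8)) ≤ r * (K / n ^ 4) + n ^ 2 * (K / n ^ 4) :=
    add_le_add (mul_le_mul_of_nonneg_left hEA hr.le)
      (mul_le_mul_of_nonneg_left hEB (by positivity))
  calc S * (r * Real.exp (-(n * (1 / (D * m * r)) ^ 2 / (25 * S ^ 2))) +
      n ^ 2 * Real.exp (-(n * (1 / (D * m)) ^ 4 / 8)))
      ≤ n * (r * (K / n ^ 4) + n ^ 2 * (K / n ^ 4)) := by
        refine mul_le_mul hmn hsum ?_ hn0.le
        have := Real.exp_pos (-(n * (1 / (D * m * r)) ^ 2 / (25 * S ^ 2)))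
        have := Real.exp_pos (-(n * (1 / (D * m)) ^ 4 / 8))
        positivity
    _ = (r + n ^ 2) * K / n ^ 3 := by
        field_simp
    _ ≤ ((r + 1) * n ^ 2) * K / n ^ 3 := by
        have h1 : 1 ≤ n ^ 2 := one_le_pow₀ hn
        have h2 : r + n ^ 2 ≤ (r + 1) * n ^ 2 := by nlinarith
        exact div_le_div_of_nonneg_right (mul_le_mul_of_nonneg_right h2 hK0.le) (by positivity)
    _ = (r + 1) * K / n := by
        field_simp
    _ < 1 := by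
        rw [div_lt_one hn0]
        exact hnK

/-- The numerical union bound.

Proof. `1 ≤ m` may be assumed (if `m = 0` then `S = 0` and everything is trivial). Let
`c = min (1 / (25 D ^ 2 r ^ 2)) (1 / (8 D ^ 4))`. Both exponents are at least `x = c n / m ^ 4`
(`m ^ 2 S ^ 2 ≤ m ^ 4`). `exp (- x) ≤ 20 ! / x ^ 20` (`Real.pow_div_factorial_le_exp`) and
`x ^ 20 = c ^ 20 n ^ 20 / m ^ 80 ≥ c ^ 20 n ^ 4` because `m ^ 80 ≤ n ^ 16`. So the sum is at most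
`n (r + n ^ 2) 20 ! / (c ^ 20 n ^ 4) ≤ (r + 1) 20 ! / (c ^ 20 n) < 1` if `n > (r + 1) 20 ! / c ^ 20`
(`S ≤ m ≤ n`). `10 S ^ 2 ≤ 10 m ^ 2 ≤ n`: `m ^ 5 ≤ n` and, if `m ≥ 3`, `10 m ^ 2 ≤ m ^ 5`; if
`m ≤ 2`, `40 ≤ n`. -/
theorem lv_num (D r : ℕ) (hD : 0 < D) (hr : 0 < r) : ∃ N : ℕ, ∀ n m S : ℕ, N ≤ n → m ^ 5 ≤ n →
    S ≤ m → 0 < S → 10 * S ^ 2 ≤ n ∧
      (S : ℝ) * ((r : ℝ) *
        Real.exp (-((n : ℝ) * (1 / ((D : ℝ) * m * r)) ^ 2 / (25 * (S : ℝ) ^ 2))) +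
        (n : ℝ) ^ 2 * Real.exp (-((n : ℝ) * (1 / ((D : ℝ) * m)) ^ 4 / 8))) < 1 := by
  obtain ⟨c, hc⟩ : ∃ c : ℝ, c = min (1 / (25 * (D : ℝ) ^ 2 * (r : ℝ) ^ 2))
    (1 / (8 * (D : ℝ) ^ 4)) := ⟨_, rfl⟩
  have hD' : (0 : ℝ) < D := by exact_mod_cast hD
  have hr' : (0 : ℝ) < r := by exact_mod_cast hr
  have hc0 : 0 < c := by
    rw [hc]
    exact lt_min (by positivity) (by positivity)
  obtain ⟨N0, hN0⟩ := exists_nat_gt (((r : ℝ) + 1) * ((Nat.factorial 20 : ℝ) / c ^ 20))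
  refine ⟨N0 + 40, fun n m S hn hm hS hS0 => ⟨lv1_sq (by omega) hm hS, ?_⟩⟩
  refine lv1_num hD' hr' ?_ ?_ ?_ ?_ ?_ hc0 (hc ▸ min_le_left _ _) (hc ▸ min_le_right _ _) rfl ?_
  · exact_mod_cast (by omega : 1 ≤ n)
  · exact_mod_cast (by omega : 1 ≤ m)
  · exact_mod_cast hm
  · exact_mod_cast hS0
  · exact_mod_cast hS
  · refine hN0.trans_le ?_
    exact_mod_cast (by omega : N0 ≤ n)

end Pool.Agent.MPfe8e9bV
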