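import Mathlib
import Pool.Agent.Lib.MP_fe8e9b_al_V.Defs
import Pool.Agent.Lib.MP_fe8e9b_al_V.Mcd

/-!
# MP_fe8e9b_al, wreath products over large sets: pair statistics
-/

set_option autoImplicit false

open scoped BigOperators

namespace Pool.Agent.MPfe8e9bV

open Pool.Agent.MPfe8e9b Pool.Agent.MPfe8e9bA Pool.Agent.MPfe8e9bW

/-- The mean of a function of one coordinate. -/
theorem lva_one {X Ω : Type} [Fintype X] [DecidableEq X] [Fintype Ω] [Nonempty Ω] (a : X)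
    (f : Ω → ℝ) : mn (fun t : X → Ω => f (t a)) = mn f := by
  have h1 : mn (fun t : X → Ω => f (t a)) =
      mn (fun t : X → Ω => (fun p : Ω × ({j // j ≠ a} → Ω) => f p.1) (Equiv.funSplitAt a Ω t)) :=
    rfl
  rw [h1, mn_equiv (Equiv.funSplitAt a Ω) (fun p : Ω × ({j // j ≠ a} → Ω) => f p.1), mn_prod]
  simp only [mn_const]

/-- Two coordinates are independent. -/
theorem lva_two {X Ω : Type} [Fintype X] [DecidableEq X] [Fintype Ω] [Nonempty Ω] (a b : X)
    (hab : b ≠ a) (f g : Ω → ℝ) :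
    mn (fun t : X → Ω => f (t a) * g (t b)) = mn f * mn g := by
  have h1 : mn (fun t : X → Ω => f (t a) * g (t b)) =
      mn (fun t : X → Ω => (fun p : Ω × ({j // j ≠ a} → Ω) => f p.1 * g (p.2 ⟨b, hab⟩))
        (Equiv.funSplitAt a Ω t)) := rfl
  rw [h1, mn_equiv (Equiv.funSplitAt a Ω)
    (fun p : Ω × ({j // j ≠ a} → Ω) => f p.1 * g (p.2 ⟨b, hab⟩)), mn_prod]
  simp only [mn_mul_left, lva_one, mn_mul_right]

/-- The mean of the indicator of a finite set. -/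
theorem lva_ind {Ω : Type} [Fintype Ω] (M : Finset Ω) :
    mn (fun w : Ω => ind (w ∈ M)) = (M.card : ℝ) / (Fintype.card Ω : ℝ) := by
  classical
  have h1 : ∑ w : Ω, ind (w ∈ M) = (M.card : ℝ) := by
    have h2 : ∀ w : Ω, ind (w ∈ M) = if w ∈ M then (1 : ℝ) else 0 := fun w => by
      by_cases h : w ∈ M
      · rw [ind_true h, if_pos h]
      · rw [ind_false h, if_neg h]
    simp only [h2, Finset.sum_ite_mem, Finset.univ_inter, Finset.sum_const, nsmul_eq_mul, mul_one]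
  rw [mn, h1, mul_comm, div_eq_mul_inv]

/-- The mean over the group of the indicator of a point. -/
theorem lva_pt {K X : Type} [Group K] [Fintype K] [Fintype X]
    (α : K →* Equiv.Perm X) (htr : ∀ x y : X, ∃ p, α p x = y) (x u : X) :
    mn (fun σ : K => ind ((α σ)⁻¹ x = u)) = 1 / (Fintype.card X : ℝ) := by
  classical
  rw [mn_tr α htr x (fun y => ind (y = u))]
  have h1 := lva_ind ({u} : Finset X)
  simpa using h1

/-- Pair statistics of a random set.

Proof. `f t = mn_σ ind (t (σ⁻¹ x) ∈ M ∧ t (σ⁻¹ x') ∈ M)`. For every `σ` the points `σ⁻¹ x ≠ σ⁻¹ x'`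
carry independent values, so `mn f = θ ^ 2` (`mn_comm`; the mean over `t : X → Ω` of
`ind (t a ∈ M) * ind (t b ∈ M)` for `a ≠ b` is `θ ^ 2`, for instance with `Fintype.piFinset`).
A change of `t` at one point `u` changes `f` by at most
`mn_σ ind (σ⁻¹ x = u) + mn_σ ind (σ⁻¹ x' = u) = 2 / n`, `n = card X` (`mn_tr` with the indicator of
`u`). `mcd` with `b = 2 / n`, `τ = θ ^ 2`: `τ ^ 2 / (2 n b ^ 2) = n θ ^ 4 / 8`. (If `θ = 0` the
right hand side is `1`; `2 θ ^ 2 < f t` implies `mn f + τ ≤ f t`.) -/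
theorem lv_pair {K X Ω : Type} [Group K] [Fintype K] [Fintype X] [DecidableEq X] [Fintype Ω]
    [Nonempty Ω] (α : K →* Equiv.Perm X) (htr : ∀ x y : X, ∃ p, α p x = y) (M : Finset Ω)
    (θ : ℝ) (hθ : θ = (M.card : ℝ) / (Fintype.card Ω : ℝ)) (x x' : X) (hx : x ≠ x') :
    mn (fun t : X → Ω => ind (2 * θ ^ 2 <
      mn (fun σ : K => ind (t ((α σ)⁻¹ x) ∈ M ∧ t ((α σ)⁻¹ x') ∈ M)))) ≤
      Real.exp (-((Fintype.card X : ℝ) * θ ^ 4 / 8)) := by
  have hXn : Nonempty X := ⟨x⟩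
  have hn : (0 : ℝ) < Fintype.card X := by exact_mod_cast Fintype.card_pos
  set n : ℝ := (Fintype.card X : ℝ) with hndef
  set f : (X → Ω) → ℝ := fun t =>
    mn (fun σ : K => ind (t ((α σ)⁻¹ x) ∈ M ∧ t ((α σ)⁻¹ x') ∈ M)) with hf
  have hM : mn (fun w : Ω => ind (w ∈ M)) = θ := by rw [lva_ind, hθ]
  have hmean : mn f = θ ^ 2 := by
    have h1 : mn f = mn (fun σ : K => mn (fun t : X → Ω =>
        ind (t ((α σ)⁻¹ x) ∈ M ∧ t ((α σ)⁻¹ x') ∈ M))) := mn_comm _
    have h2 : ∀ σ : K, mn (fun t : X → Ω =>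
        ind (t ((α σ)⁻¹ x) ∈ M ∧ t ((α σ)⁻¹ x') ∈ M)) = θ ^ 2 := by
      intro σ
      simp only [ind_and]
      rw [lva_two ((α σ)⁻¹ x) ((α σ)⁻¹ x') (fun h => hx ((Equiv.injective _ h).symm))
        (fun w => ind (w ∈ M)) (fun w => ind (w ∈ M)), hM, pow_two]
    rw [h1]
    simp only [h2, mn_const]
  have hlip : ∀ (ω : X → Ω) (u : X) (a : Ω), |f (Function.update ω u a) - f ω| ≤ 2 / n := by
    intro ω u a
    have hpt : ∀ σ : K, |ind (Function.update ω u a ((α σ)⁻¹ x) ∈ M ∧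
        Function.update ω u a ((α σ)⁻¹ x') ∈ M) -
        ind (ω ((α σ)⁻¹ x) ∈ M ∧ ω ((α σ)⁻¹ x') ∈ M)| ≤
        ind ((α σ)⁻¹ x = u) + ind ((α σ)⁻¹ x' = u) := by
      intro σ
      have hgen : ∀ p q : Prop, |ind p - ind q| ≤ 1 := by
        intro p q
        rw [abs_le]
        constructor <;> linarith [ind_nonneg p, ind_nonneg q, ind_le_one p, ind_le_one q]
      by_cases h1 : (α σ)⁻¹ x = u
      · have h3 := ind_nonneg ((α σ)⁻¹ x' = u)
        rw [ind_true h1]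
        linarith [hgen (Function.update ω u a ((α σ)⁻¹ x) ∈ M ∧
          Function.update ω u a ((α σ)⁻¹ x') ∈ M) (ω ((α σ)⁻¹ x) ∈ M ∧ ω ((α σ)⁻¹ x') ∈ M)]
      · by_cases h2 : (α σ)⁻¹ x' = u
        · have h3 := ind_nonneg ((α σ)⁻¹ x = u)
          rw [ind_true h2]
          linarith [hgen (Function.update ω u a ((α σ)⁻¹ x) ∈ M ∧
            Function.update ω u a ((α σ)⁻¹ x') ∈ M) (ω ((α σ)⁻¹ x) ∈ M ∧ ω ((α σ)⁻¹ x') ∈ M)]
        · rw [Function.update_of_ne h1, Function.update_of_ne h2, sub_self, abs_zero]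
          exact add_nonneg (ind_nonneg _) (ind_nonneg _)
    have hsum : mn (fun σ : K => ind ((α σ)⁻¹ x = u) + ind ((α σ)⁻¹ x' = u)) = 2 / n := by
      rw [mn_add, lva_pt α htr, lva_pt α htr]
      ring
    rw [← hsum, abs_le]
    constructor
    · have h1 : mn (fun σ : K => (-1 : ℝ) * (ind ((α σ)⁻¹ x = u) + ind ((α σ)⁻¹ x' = u))) ≤
          mn (fun σ : K => ind (Function.update ω u a ((α σ)⁻¹ x) ∈ M ∧
            Function.update ω u a ((α σ)⁻¹ x') ∈ M) -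
            ind (ω ((α σ)⁻¹ x) ∈ M ∧ ω ((α σ)⁻¹ x') ∈ M)) :=
        mn_mono fun σ => by linarith [(abs_le.1 (hpt σ)).1]
      rw [mn_mul_left, mn_sub] at h1
      simp only [hf]
      linarith
    · have h1 : mn (fun σ : K => ind (Function.update ω u a ((α σ)⁻¹ x) ∈ M ∧
            Function.update ω u a ((α σ)⁻¹ x') ∈ M) -
            ind (ω ((α σ)⁻¹ x) ∈ M ∧ ω ((α σ)⁻¹ x') ∈ M)) ≤
          mn (fun σ : K => ind ((α σ)⁻¹ x = u) + ind ((α σ)⁻¹ x' = u)) :=
        mn_mono fun σ => (abs_le.1 (hpt σ)).2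
      rw [mn_sub] at h1
      simp only [hf]
      exact h1
  have hmain := mcd f (2 / n) (θ ^ 2) (by positivity) (by positivity) hlip
  have hexp : (θ ^ 2) ^ 2 / (2 * n * (2 / n) ^ 2) = n * θ ^ 4 / 8 := by
    field_simp
    ring
  rw [← hndef, hexp, hmean] at hmain
  refine (mn_mono fun t => ?_).trans hmain
  exact ind_mono fun h => by linarith

end Pool.Agent.MPfe8e9bV
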