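import Mathlib
import Pool.Agent.Lib.MP_fe8e9b_al_V.Defs
import Pool.Agent.Lib.MP_fe8e9b_al_V.Mcd

/-!
# MP_fe8e9b_al, wreath products over large sets: letter statistics
-/

set_option autoImplicit false

open scoped BigOperators

namespace Pool.Agent.MPfe8e9bV

open Pool.Agent.MPfe8e9b Pool.Agent.MPfe8e9bA Pool.Agent.MPfe8e9bW

theorem lvB_one {Y Ω : Type} [Fintype Y] [DecidableEq Y] [Fintype Ω] [Nonempty Ω]
    (y : Y) (G : Ω → ℝ) : mn (fun t : Y → Ω => G (t y)) = mn G := by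
  have h1 := mn_equiv (Equiv.funSplitAt y Ω)
    (fun p : Ω × ({j // j ≠ y} → Ω) => G p.1)
  have h2 := mn_prod (fun p : Ω × ({j // j ≠ y} → Ω) => G p.1)
  simp only [mn_const] at h2
  rw [← h2, ← h1]
  rfl

theorem lvB_two {Y Ω : Type} [Fintype Y] [DecidableEq Y] [Fintype Ω] [Nonempty Ω]
    {x y : Y} (hxy : y ≠ x) (F G : Ω → ℝ) :
    mn (fun t : Y → Ω => F (t x) * G (t y)) = mn F * mn G := by
  have h1 := mn_equiv (Equiv.funSplitAt x Ω)
    (fun p : Ω × ({j // j ≠ x} → Ω) => F p.1 * G (p.2 ⟨y, hxy⟩))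
  have h2 := mn_prod (fun p : Ω × ({j // j ≠ x} → Ω) => F p.1 * G (p.2 ⟨y, hxy⟩))
  simp only [mn_mul_left] at h2
  rw [mn_mul_right, lvB_one (⟨y, hxy⟩ : {j // j ≠ x}) G] at h2
  rw [← h2, ← h1]
  rfl

open Classical in
theorem lvB_ind {T : Type} [Fintype T] (p : T → Prop) :
    mn (fun t => ind (p t)) =
      ((Finset.univ.filter p).card : ℝ) / (Fintype.card T : ℝ) := by
  simp only [mn, ind]
  rw [Finset.sum_boole, div_eq_inv_mul]

theorem lvB_mem {T : Type} [Fintype T] (M : Finset T) :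
    mn (fun t => ind (t ∈ M)) = (M.card : ℝ) / (Fintype.card T : ℝ) := by
  classical
  rw [lvB_ind]
  congr 2
  congr 1
  ext t
  simp

theorem lvB_pt {J : Type} [Fintype J] [DecidableEq J] (A : Prop) (B : J → Prop) (s : J) :
    ind A - ∑ s' ∈ Finset.univ.filter (fun s' => s' ≠ s), ind A * ind (B s') ≤
      ind (A ∧ ∀ s', s' ≠ s → ¬ B s') := by
  have h0 : ∀ s' ∈ Finset.univ.filter (fun s' => s' ≠ s), 0 ≤ ind A * ind (B s') :=
    fun s' _ => mul_nonneg (ind_nonneg _) (ind_nonneg _)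
  by_cases hA : A
  · by_cases hB : ∀ s', s' ≠ s → ¬ B s'
    · rw [ind_true hA, ind_true (show A ∧ ∀ s', s' ≠ s → ¬ B s' from ⟨hA, hB⟩)]
      have h1 := Finset.sum_nonneg h0
      rw [ind_true hA] at h1
      linarith
    · push Not at hB
      obtain ⟨s0, hs0, hb0⟩ := hB
      have h1 := Finset.single_le_sum h0
        (Finset.mem_filter.2 ⟨Finset.mem_univ s0, hs0⟩)
      rw [ind_true hA, ind_true hb0] at h1
      have h2 := ind_nonneg (A ∧ ∀ s', s' ≠ s → ¬ B s')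
      rw [ind_true hA]
      linarith
  · have h1 := Finset.sum_nonneg h0
    have h2 := ind_nonneg (A ∧ ∀ s', s' ≠ s → ¬ B s')
    rw [ind_false hA] at *
    linarith

theorem lvB_good {X Ω : Type} [Fintype X] [DecidableEq X] [Fintype Ω] [Nonempty Ω]
    {S : ℕ} (κ : Fin S → Equiv.Perm X) (s : Fin S) (Z M : Finset Ω)
    (hZ : 10 * S * Z.card ≤ Fintype.card Ω) (x : X) (hx : ∀ s', s' ≠ s → κ s' x ≠ x) :
    9 / 10 * ((M.card : ℝ) / (Fintype.card Ω : ℝ)) ≤
      mn (fun t : X → Ω => ind (t x ∈ M ∧ ∀ s', s' ≠ s → t (κ s' x) ∉ Z)) := by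
  have hΩ : (0 : ℝ) < (Fintype.card Ω : ℝ) := by exact_mod_cast Fintype.card_pos
  have h1 := mn_mono (fun t : X → Ω => lvB_pt (t x ∈ M) (fun s' => t (κ s' x) ∈ Z) s)
  rw [mn_sub, mn_sum, lvB_one x (fun a => ind (a ∈ M)), lvB_mem] at h1
  have h2 : ∀ s' ∈ Finset.univ.filter (fun s' => s' ≠ s),
      mn (fun t : X → Ω => ind (t x ∈ M) * ind (t (κ s' x) ∈ Z)) =
        (M.card : ℝ) / (Fintype.card Ω : ℝ) * ((Z.card : ℝ) / (Fintype.card Ω : ℝ)) := by
    intro s' hs'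
    rw [lvB_two (hx s' (Finset.mem_filter.1 hs').2) (fun a => ind (a ∈ M))
      (fun a => ind (a ∈ Z)), lvB_mem, lvB_mem]
  rw [Finset.sum_congr rfl h2, Finset.sum_const, nsmul_eq_mul] at h1
  refine le_trans ?_ h1
  have h3 : ((Finset.univ.filter (fun s' : Fin S => s' ≠ s)).card : ℝ) ≤ S := by
    have := Finset.card_le_univ (Finset.univ.filter (fun s' : Fin S => s' ≠ s))
    rw [Fintype.card_fin] at this
    exact_mod_cast this
  have hθ : 0 ≤ (M.card : ℝ) / (Fintype.card Ω : ℝ) := by positivity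
  have hz : 0 ≤ (Z.card : ℝ) / (Fintype.card Ω : ℝ) := by positivity
  have h4 : (S : ℝ) * ((Z.card : ℝ) / (Fintype.card Ω : ℝ)) ≤ 1 / 10 := by
    rw [← mul_div_assoc, div_le_iff₀ hΩ]
    have : (10 : ℝ) * S * Z.card ≤ Fintype.card Ω := by exact_mod_cast hZ
    linarith
  have h5 : ((Finset.univ.filter (fun s' : Fin S => s' ≠ s)).card : ℝ) *
      ((M.card : ℝ) / (Fintype.card Ω : ℝ) * ((Z.card : ℝ) / (Fintype.card Ω : ℝ))) ≤
      (M.card : ℝ) / (Fintype.card Ω : ℝ) * (1 / 10) := by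
    calc _ ≤ (S : ℝ) * ((M.card : ℝ) / (Fintype.card Ω : ℝ) *
          ((Z.card : ℝ) / (Fintype.card Ω : ℝ))) :=
          mul_le_mul_of_nonneg_right h3 (mul_nonneg hθ hz)
      _ = (M.card : ℝ) / (Fintype.card Ω : ℝ) *
          ((S : ℝ) * ((Z.card : ℝ) / (Fintype.card Ω : ℝ))) := by ring
      _ ≤ _ := mul_le_mul_of_nonneg_left h4 hθ
  linarith

theorem lvB_diff {X Ω : Type} [Fintype X] [DecidableEq X] [Fintype Ω]
    {S : ℕ} (κ : Fin S → Equiv.Perm X) (s : Fin S) (hs : κ s = 1) (Z M : Finset Ω)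
    (t : X → Ω) (u : X) (a : Ω) :
    |mn (fun x => ind (Function.update t u a x ∈ M ∧
        ∀ s', s' ≠ s → Function.update t u a (κ s' x) ∉ Z)) -
      mn (fun x => ind (t x ∈ M ∧ ∀ s', s' ≠ s → t (κ s' x) ∉ Z))| ≤
      (S : ℝ) / (Fintype.card X : ℝ) := by
  classical
  rw [← mn_sub, mn, abs_mul, abs_of_nonneg (by positivity : (0 : ℝ) ≤
    ((Fintype.card X : ℝ))⁻¹), div_eq_inv_mul]
  refine mul_le_mul_of_nonneg_left ?_ (by positivity)
  set D : Finset X := Finset.univ.image (fun s' => (κ s').symm u) with hD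
  have hDc : (D.card : ℝ) ≤ S := by
    have h1 : D.card ≤ (Finset.univ : Finset (Fin S)).card := Finset.card_image_le
    rw [Finset.card_univ, Fintype.card_fin] at h1
    exact_mod_cast h1
  refine (Finset.abs_sum_le_sum_abs _ _).trans ?_
  have h1 : ∀ x : X, |ind (Function.update t u a x ∈ M ∧
        ∀ s', s' ≠ s → Function.update t u a (κ s' x) ∉ Z) -
      ind (t x ∈ M ∧ ∀ s', s' ≠ s → t (κ s' x) ∉ Z)| ≤ if x ∈ D then 1 else 0 := by
    intro x
    by_cases hx : x ∈ D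
    · rw [if_pos hx, abs_le]
      have a1 := ind_nonneg (Function.update t u a x ∈ M ∧
        ∀ s', s' ≠ s → Function.update t u a (κ s' x) ∉ Z)
      have a2 := ind_le_one (Function.update t u a x ∈ M ∧
        ∀ s', s' ≠ s → Function.update t u a (κ s' x) ∉ Z)
      have a3 := ind_nonneg (t x ∈ M ∧ ∀ s', s' ≠ s → t (κ s' x) ∉ Z)
      have a4 := ind_le_one (t x ∈ M ∧ ∀ s', s' ≠ s → t (κ s' x) ∉ Z)
      constructor <;> linarith
    · have h2 : ∀ s', κ s' x ≠ u := by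
        intro s' h
        apply hx
        rw [hD, Finset.mem_image]
        exact ⟨s', Finset.mem_univ _, by rw [← h, Equiv.symm_apply_apply]⟩
      have h3 : x ≠ u := by
        have := h2 s
        rwa [hs, Equiv.Perm.one_apply] at this
      have h4 : ∀ s', Function.update t u a (κ s' x) = t (κ s' x) := fun s' =>
        Function.update_of_ne (h2 s') _ _
      have h5 : Function.update t u a x = t x := Function.update_of_ne h3 _ _
      simp only [h4, h5]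
      rw [if_neg hx, sub_self, abs_zero]
  refine (Finset.sum_le_sum fun x _ => h1 x).trans ?_
  rw [Finset.sum_boole]
  refine le_trans ?_ hDc
  have h2 : Finset.univ.filter (fun x => x ∈ D) = D := by
    ext x
    simp
  rw [h2]

theorem lvB_mean {X Ω : Type} [Fintype X] [DecidableEq X] [Fintype Ω] [Nonempty Ω]
    {S : ℕ} (κ : Fin S → Equiv.Perm X) (s : Fin S) (Z M : Finset Ω)
    (hZ : 10 * S * Z.card ≤ Fintype.card Ω) (hX : 0 < Fintype.card X)
    (hS : 10 * S ^ 2 ≤ Fintype.card X) (D : Finset X) (hD : D.card ≤ S ^ 2)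
    (hx : ∀ x, x ∉ D → ∀ s', s' ≠ s → κ s' x ≠ x) :
    8 / 10 * ((M.card : ℝ) / (Fintype.card Ω : ℝ)) ≤
      mn (fun t : X → Ω => mn (fun x => ind (t x ∈ M ∧
        ∀ s', s' ≠ s → t (κ s' x) ∉ Z))) := by
  classical
  have hX' : (0 : ℝ) < (Fintype.card X : ℝ) := by exact_mod_cast hX
  have : Nonempty X := Fintype.card_pos_iff.1 hX
  have hθ : 0 ≤ (M.card : ℝ) / (Fintype.card Ω : ℝ) := by positivity
  rw [mn_comm]
  have h1 : ∀ x : X, 9 / 10 * ((M.card : ℝ) / (Fintype.card Ω : ℝ)) * (1 - ind (x ∈ D)) ≤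
      mn (fun t : X → Ω => ind (t x ∈ M ∧ ∀ s', s' ≠ s → t (κ s' x) ∉ Z)) := by
    intro x
    by_cases hxD : x ∈ D
    · rw [ind_true hxD, sub_self, mul_zero]
      exact mn_nonneg fun t => ind_nonneg _
    · rw [ind_false hxD, sub_zero, mul_one]
      exact lvB_good κ s Z M hZ x (hx x hxD)
  refine le_trans ?_ (mn_mono h1)
  rw [mn_mul_left, mn_sub, mn_const, lvB_mem]
  have h2 : (D.card : ℝ) / (Fintype.card X : ℝ) ≤ 1 / 10 := by
    rw [div_le_iff₀ hX']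
    have a1 : (10 : ℝ) * (S : ℝ) ^ 2 ≤ Fintype.card X := by exact_mod_cast hS
    have a2 : (D.card : ℝ) ≤ (S : ℝ) ^ 2 := by exact_mod_cast hD
    linarith
  have h3 : 9 / 10 * ((M.card : ℝ) / (Fintype.card Ω : ℝ)) * (9 / 10) ≤
      9 / 10 * ((M.card : ℝ) / (Fintype.card Ω : ℝ)) *
        (1 - (D.card : ℝ) / (Fintype.card X : ℝ)) :=
    mul_le_mul_of_nonneg_left (by linarith) (by positivity)
  refine le_trans ?_ h3
  linarith

/-- Letter statistics of a random set.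

Proof. Let `n = card X`, `k s' x = α (h s') ((α (h s))⁻¹ x)`,
`f t = mn_x ind (t x ∈ M ∧ ∀ s' ≠ s, t (k s' x) ∉ Z)`. For `x` which is not bad (`k s' x ≠ x` for all
`s' ≠ s`; at most `S ^ 2` points are bad by `hbad`) the mean over `t` of the indicator is at least
`θ - ∑ s' ≠ s, P (t x ∈ M and t (k s' x) ∈ Z) = θ - ∑ s' ≠ s, θ * card Z / card Ω ≥ (9/10) θ`
(`hZ`). So `mn f ≥ (1 - S ^ 2 / n) (9/10) θ ≥ (8/10) θ` (`hS`). A change of `t` at one point `u`
changes the indicator only for `x = u` and for the `x` with `k s' x = u`, `s' ≠ s` (one point for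
every `s'`), so `f` changes by at most `S / n`. `mcd_lower` with `b = S / n`, `τ = (3/10) θ`:
`τ ^ 2 / (2 n b ^ 2) = (9/200) n θ ^ 2 / S ^ 2 ≥ n θ ^ 2 / (25 S ^ 2)`, and `f t < θ / 2` implies
`f t ≤ mn f - τ`. (`0 < S` since there is `s : Fin S`; `0 < n` if `0 < θ`, otherwise the indicator
is `0`; if `n = 0` then everything is `0`.) -/
theorem lv_letter {K X Ω : Type} [Group K] [Fintype K] [Fintype X] [DecidableEq X] [Fintype Ω]
    [Nonempty Ω] (α : K →* Equiv.Perm X) {S : ℕ} (h : Fin S → K)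
    (hbad : (Finset.univ.filter (fun p : (Fin S × Fin S) × X =>
      p.1.1 ≠ p.1.2 ∧ α (h p.1.1) ((α (h p.1.2))⁻¹ p.2) = p.2)).card ≤ S ^ 2)
    (hS : 10 * S ^ 2 ≤ Fintype.card X) (s : Fin S) (Z M : Finset Ω)
    (hZ : 10 * S * Z.card ≤ Fintype.card Ω)
    (θ : ℝ) (hθ : θ = (M.card : ℝ) / (Fintype.card Ω : ℝ)) :
    mn (fun t : X → Ω => ind (mn (fun x => ind (t x ∈ M ∧
      ∀ s', s' ≠ s → t (α (h s') ((α (h s))⁻¹ x)) ∉ Z)) < θ / 2)) ≤
      Real.exp (-((Fintype.card X : ℝ) * θ ^ 2 / (25 * (S : ℝ) ^ 2))) := by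
  classical
  have hfs : ∀ t : X → Ω, 0 ≤ mn (fun x => ind (t x ∈ M ∧
      ∀ s', s' ≠ s → t (α (h s') ((α (h s))⁻¹ x)) ∉ Z)) :=
    fun t => mn_nonneg fun x => ind_nonneg _
  have hθ0 : 0 ≤ θ := by
    rw [hθ]
    positivity
  have hSp : 0 < S := lt_of_le_of_lt (Nat.zero_le _) s.2
  rcases hθ0.eq_or_lt with h0 | hpos
  · have h1 : ∀ t : X → Ω, ind (mn (fun x => ind (t x ∈ M ∧
        ∀ s', s' ≠ s → t (α (h s') ((α (h s))⁻¹ x)) ∉ Z)) < θ / 2) ≤ 0 := by
      intro t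
      rw [ind_false]
      rw [← h0, not_lt, zero_div]
      exact hfs t
    exact (mn_le h1).trans (Real.exp_pos _).le
  have hX : 0 < Fintype.card X := by
    have : 0 < 10 * S ^ 2 := by positivity
    omega
  have hX' : (0 : ℝ) < (Fintype.card X : ℝ) := by exact_mod_cast hX
  have hS' : (0 : ℝ) < (S : ℝ) := by exact_mod_cast hSp
  set κ : Fin S → Equiv.Perm X := fun s' => α (h s') * (α (h s))⁻¹ with hκ
  have hκs : κ s = 1 := mul_inv_cancel _
  set D : Finset X := (Finset.univ.filter (fun p : (Fin S × Fin S) × X =>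
      p.1.1 ≠ p.1.2 ∧ α (h p.1.1) ((α (h p.1.2))⁻¹ p.2) = p.2)).image Prod.snd with hD
  have hDc : D.card ≤ S ^ 2 := Finset.card_image_le.trans hbad
  have hxD : ∀ x, x ∉ D → ∀ s', s' ≠ s → κ s' x ≠ x := by
    intro x hx s' hs' hc
    apply hx
    rw [hD, Finset.mem_image]
    exact ⟨((s', s), x), Finset.mem_filter.2 ⟨Finset.mem_univ _, hs', hc⟩, rfl⟩
  have hmean := lvB_mean κ s Z M hZ hX hS D hDc hxD
  rw [← hθ] at hmean
  have hb : (0 : ℝ) < (S : ℝ) / (Fintype.card X : ℝ) := by positivity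
  have hmcd := mcd_lower (fun t : X → Ω => mn (fun x => ind (t x ∈ M ∧
    ∀ s', s' ≠ s → t (κ s' x) ∉ Z))) ((S : ℝ) / (Fintype.card X : ℝ)) (3 / 10 * θ) hb
    (by positivity) (fun t u a => lvB_diff κ s hκs Z M t u a)
  refine le_trans (mn_mono fun t => ind_mono ?_) (hmcd.trans ?_)
  · intro ht
    have ht' : mn (fun x => ind (t x ∈ M ∧ ∀ s', s' ≠ s → t (κ s' x) ∉ Z)) < θ / 2 := ht
    refine ht'.le.trans ?_
    linarith
  · rw [Real.exp_le_exp, neg_le_neg_iff]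
    have h1 : (3 / 10 * θ) ^ 2 /
        (2 * (Fintype.card X : ℝ) * ((S : ℝ) / (Fintype.card X : ℝ)) ^ 2) =
        9 / 200 * ((Fintype.card X : ℝ) * θ ^ 2 / (S : ℝ) ^ 2) := by
      field_simp
      ring
    rw [h1]
    have h2 : (Fintype.card X : ℝ) * θ ^ 2 / (25 * (S : ℝ) ^ 2) =
        8 / 200 * ((Fintype.card X : ℝ) * θ ^ 2 / (S : ℝ) ^ 2) := by
      field_simp
      ring
    rw [h2]
    have h3 : 0 ≤ (Fintype.card X : ℝ) * θ ^ 2 / (S : ℝ) ^ 2 := by positivity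
    linarith

end Pool.Agent.MPfe8e9bV
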