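import Mathlib
import Pool.Agent.Lib.MP_fe8e9b_al_V.Defs
import Pool.Agent.Lib.MP_fe8e9b_al_V.Lv2
import Pool.Agent.Lib.MP_fe8e9b_al_V.Enc

/-!
# MP_fe8e9b_al, wreath products over large sets: existence of a level
-/

set_option autoImplicit false

open scoped BigOperators

namespace Pool.Agent.MPfe8e9bV

open Pool.Agent.MPfe8e9b Pool.Agent.MPfe8e9bA Pool.Agent.MPfe8e9bW

/-- Existence of a level.

Proof. `lv_data` and `enc`; for the scale `a` take `s = a - b`,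
`U = {x ∈ T s | ∀ s' ≠ s, α (h s') ((α (h s))⁻¹ x) ∉ Z}` and the element `h s`. -/
theorem level (D r : ℕ) (hD : 0 < D) (hr : 0 < r) : ∃ N : ℕ, ∀ (K X : Type) [Group K]
    [Fintype K] [Fintype X] (α : K →* Equiv.Perm X), (∀ x y : X, ∃ p, α p x = y) →
    ∀ b S : ℕ, 0 < S → 10 * S ≤ D * 2 ^ b → 32 ^ (b + S - 1) ≤ Fintype.card X →
    N ≤ Fintype.card X → ∀ (G : Type) [Group G] (u w : Fin r → G),
    ∃ z z' : X → G, ∀ a : ℕ, b ≤ a → a < b + S →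
      Lvl α (fun l => cm (u l) (w l)) (1 / ((D : ℝ) * 2 ^ a)) z z' := by
  classical
  obtain ⟨N, hN⟩ := lv_data D r hD hr
  refine ⟨N, fun K X _ _ _ α htr b S hS h10 h32 hNX G _ u w => ?_⟩
  obtain ⟨h, Z, T, l, hT, hd, hp⟩ := hN K X α htr b S hS h10 h32 hNX
  obtain ⟨z, z', hz⟩ := enc α h Z T hT l u w
  refine ⟨z, z', fun a ha ha' => ?_⟩
  obtain ⟨s, hs⟩ : ∃ s : Fin S, b + s.1 = a := ⟨⟨a - b, by omega⟩, by simp; omega⟩
  have hdm := hd s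
  have hps := hp s
  rw [hs] at hdm hps
  have hU : ∀ x, x ∈ Finset.univ.filter (fun x => x ∈ T s ∧
      ∀ s', s' ≠ s → α (h s') ((α (h s))⁻¹ x) ∉ Z) ↔
      (x ∈ T s ∧ ∀ s', s' ≠ s → α (h s') ((α (h s))⁻¹ x) ∉ Z) := fun x => by
    rw [Finset.mem_filter]
    exact ⟨fun hx => hx.2, fun hx => ⟨Finset.mem_univ _, hx⟩⟩
  refine ⟨h s, Finset.univ.filter (fun x => x ∈ T s ∧
    ∀ s', s' ≠ s → α (h s') ((α (h s))⁻¹ x) ∉ Z), l, fun x hx => (hz s x).1 ((hU x).1 hx),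
    fun x hx => (hz s x).2 fun hc => hx ((hU x).2 hc), fun m => (hdm m).trans
      (mn_mono fun x => ind_mono fun hx => ⟨(hU x).2 ⟨hx.1, hx.2.1⟩, hx.2.2⟩), ?_⟩
  intro x x' hxx
  exact (mn_mono fun σ => ind_mono fun hx =>
    ⟨((hU _).1 hx.1).1, ((hU _).1 hx.2).1⟩).trans (hps x x' hxx)

end Pool.Agent.MPfe8e9bV
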