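import Mathlib
import Pool.Agent.Lib.MP_fe8e9b_al_V.Defs

/-!
# MP_fe8e9b_al, wreath products over large sets: the parameters
-/

set_option autoImplicit false

open scoped BigOperators

namespace Pool.Agent.MPfe8e9bV

open Pool.Agent.MPfe8e9b Pool.Agent.MPfe8e9bA Pool.Agent.MPfe8e9bW

/-- Exponential against polynomial. -/
private theorem par_poly (c : ℕ) : ∃ B : ℕ, ∀ b : ℕ, B ≤ b → c * b ^ 5 ≤ 2 ^ b := by
  have h := isLittleO_pow_const_const_pow_of_one_lt (R := ℝ) 5 (one_lt_two (α := ℝ))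
  have h1 := h.def (c := 1 / ((c : ℝ) + 1)) (by positivity)
  obtain ⟨B, hB⟩ := Filter.eventually_atTop.1 h1
  refine ⟨B, fun b hb => ?_⟩
  have h2 := hB b hb
  rw [Real.norm_of_nonneg (by positivity), Real.norm_of_nonneg (by positivity)] at h2
  have hc : (0 : ℝ) < (c : ℝ) + 1 := by positivity
  have h3 : ((c : ℝ) + 1) * (b : ℝ) ^ 5 ≤ 2 ^ b := by
    calc ((c : ℝ) + 1) * (b : ℝ) ^ 5 ≤ ((c : ℝ) + 1) * (1 / ((c : ℝ) + 1) * 2 ^ b) :=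
          mul_le_mul_of_nonneg_left h2 hc.le
      _ = 2 ^ b := by field_simp
  have h4 : ((c : ℝ)) * (b : ℝ) ^ 5 ≤ 2 ^ b := by
    have h5 : (0 : ℝ) ≤ (b : ℝ) ^ 5 := by positivity
    nlinarith
  exact_mod_cast h4

/-- Linear against exponential. -/
private theorem par_lin (b : ℕ) (hb : 8 ≤ b) : 10 * b ≤ 2 ^ (b - 1) := by
  induction b, hb using Nat.le_induction with
  | base => norm_num
  | succ k hk ih =>
    have e : k + 1 - 1 = (k - 1) + 1 := by omega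
    rw [e, pow_succ]
    omega

/-- The parameters.

Proof. Let `T = Nat.log 32 n` (`32 ^ T ≤ n < 32 ^ (T + 1)`), `b₁ = Nat.clog 2 (10 * (T + 1))`
(`10 (T + 1) ≤ 2 ^ b₁`, `2 ^ (b₁ - 1) < 10 (T + 1)`), `S₁ = T + 1 - b₁`,
`b₂ = Nat.clog 2 (10 * b₁)` (`2 ^ b₂ < 20 b₁`), `S₂ = b₁ - b₂`. `b₂ < b₁ ≤ T` for large `n`. For the
last inequality: `32 ^ b₂ = (2 ^ b₂) ^ 5 ≤ (20 b₁) ^ 5`, `T ≥ 2 ^ (b₁ - 1) / 10 - 1` and, with
`2 q ≤ 2 ^ e` (`e` depends on `Q`), `(2 q) ^ (4 * 32 ^ b₂) ≤ 2 ^ (4 e (20 b₁) ^ 5) ≤ 2 ^ (5 T) ≤ n` if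
`4 e (20 b₁) ^ 5 ≤ 5 (2 ^ (b₁ - 1) / 10 - 1)`, which holds for `b₁ ≥ B` (`B` depends on `e`;
exponential against polynomial), that is for large `n`. -/
theorem par (Q : ℕ) : ∃ N : ℕ, ∀ n : ℕ, N ≤ n → ∃ b₁ b₂ S₁ S₂ : ℕ, 0 < S₁ ∧ 0 < S₂ ∧
    10 * S₁ ≤ 2 ^ b₁ ∧ 10 * S₂ ≤ 2 ^ b₂ ∧ b₂ + S₂ = b₁ ∧ 32 ^ (b₁ + S₁ - 1) ≤ n ∧
    n < 32 ^ (b₁ + S₁) ∧ ∀ q ≤ Q, (2 * q) ^ (4 * 32 ^ b₂) ≤ n := by
  obtain ⟨B, hB⟩ := par_poly (16 * (2 * Q) * 20 ^ 5 + 20)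
  refine ⟨32 ^ (2 ^ B + 13), fun n hn => ?_⟩
  have hn0 : n ≠ 0 := by
    have : 0 < 32 ^ (2 ^ B + 13) := by positivity
    omega
  obtain ⟨T, hT⟩ : ∃ T : ℕ, T = Nat.log 32 n := ⟨_, rfl⟩
  have hTB : 2 ^ B + 13 ≤ T := by
    rw [hT]
    exact Nat.le_log_of_pow_le (by norm_num) hn
  have hB0 : 0 < 2 ^ B := by positivity
  have hT1 : 32 ^ T ≤ n := by
    rw [hT]
    exact Nat.pow_log_le_self 32 hn0
  have hT2 : n < 32 ^ (T + 1) := by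
    rw [hT]
    exact Nat.lt_pow_succ_log_self (by norm_num) n
  obtain ⟨b₁, hb₁⟩ : ∃ b₁ : ℕ, b₁ = Nat.clog 2 (10 * (T + 1)) := ⟨_, rfl⟩
  have h1a : 10 * (T + 1) ≤ 2 ^ b₁ := by
    rw [hb₁]
    exact Nat.le_pow_clog (by norm_num) _
  have h1b : 2 ^ (b₁ - 1) < 10 * (T + 1) := by
    have h0 : 1 < 10 * (T + 1) := by omega
    have := Nat.pow_pred_clog_lt_self one_lt_two h0
    rw [← hb₁] at this
    exact this
  have hbB : B ≤ b₁ := by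
    by_contra hc
    push Not at hc
    have : 2 ^ b₁ ≤ 2 ^ B := Nat.pow_le_pow_right (by norm_num) hc.le
    omega
  have hb8 : 8 ≤ b₁ := by
    by_contra hc
    push Not at hc
    have : 2 ^ b₁ ≤ 2 ^ 7 := Nat.pow_le_pow_right (by norm_num) (by omega)
    norm_num at this
    omega
  have hbT : b₁ ≤ T := by
    rw [hb₁]
    apply Nat.clog_le_of_le_pow
    have h5 := par_lin (T + 1) (by omega)
    simpa using h5
  obtain ⟨b₂, hb₂⟩ : ∃ b₂ : ℕ, b₂ = Nat.clog 2 (10 * b₁) := ⟨_, rfl⟩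
  have h2a : 10 * b₁ ≤ 2 ^ b₂ := by
    rw [hb₂]
    exact Nat.le_pow_clog (by norm_num) _
  have h2b : 2 ^ (b₂ - 1) < 10 * b₁ := by
    have h0 : 1 < 10 * b₁ := by omega
    have := Nat.pow_pred_clog_lt_self one_lt_two h0
    rw [← hb₂] at this
    exact this
  have hb21 : b₂ ≤ b₁ - 1 := by
    rw [hb₂]
    apply Nat.clog_le_of_le_pow
    exact par_lin b₁ hb8
  have hb20 : b₂ ≠ 0 := by
    intro h0
    rw [h0] at h2a
    norm_num at h2a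
    omega
  have h2c : 2 ^ b₂ ≤ 20 * b₁ := by
    have e : b₂ = (b₂ - 1) + 1 := by omega
    rw [e, pow_succ]
    omega
  refine ⟨b₁, b₂, T + 1 - b₁, b₁ - b₂, by omega, by omega, by omega, by omega, by omega, ?_, ?_, ?_⟩
  · have e : b₁ + (T + 1 - b₁) - 1 = T := by omega
    rw [e]
    exact hT1
  · have e : b₁ + (T + 1 - b₁) = T + 1 := by omega
    rw [e]
    exact hT2
  · intro q hq
    have h32 : 32 ^ b₂ ≤ (20 * b₁) ^ 5 := by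
      calc 32 ^ b₂ = (2 ^ b₂) ^ 5 := by
            rw [← pow_mul, mul_comm b₂ 5, pow_mul]
            norm_num
        _ ≤ (20 * b₁) ^ 5 := Nat.pow_le_pow_left h2c 5
    have hq2 : 2 * q ≤ 2 ^ (2 * Q) := by
      have : 2 * Q < 2 ^ (2 * Q) := Nat.lt_two_pow_self
      omega
    have hexp : (2 * Q) * (4 * 32 ^ b₂) ≤ 5 * T := by
      have h6 : (16 * (2 * Q) * 20 ^ 5 + 20) * b₁ ^ 5 ≤ 2 ^ b₁ := hB b₁ hbB
      have h7 : 2 ^ b₁ = 2 * 2 ^ (b₁ - 1) := by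
        rw [← pow_succ']
        congr 1
        omega
      have h8 : 1 ≤ b₁ ^ 5 := Nat.one_le_pow _ _ (by omega)
      have h9 : (20 * b₁) ^ 5 = 20 ^ 5 * b₁ ^ 5 := by rw [mul_pow]
      have h10 : (2 * Q) * (4 * 32 ^ b₂) ≤ (2 * Q) * (4 * (20 ^ 5 * b₁ ^ 5)) := by
        rw [← h9]
        exact Nat.mul_le_mul_left _ (Nat.mul_le_mul_left _ h32)
      have h11 : (16 * (2 * Q) * 20 ^ 5 + 20) * b₁ ^ 5 =
          4 * ((2 * Q) * (4 * (20 ^ 5 * b₁ ^ 5))) + 20 * b₁ ^ 5 := by ring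
      rw [h11] at h6
      omega
    calc (2 * q) ^ (4 * 32 ^ b₂) ≤ (2 ^ (2 * Q)) ^ (4 * 32 ^ b₂) := Nat.pow_le_pow_left hq2 _
      _ = 2 ^ ((2 * Q) * (4 * 32 ^ b₂)) := by rw [← pow_mul]
      _ ≤ 2 ^ (5 * T) := Nat.pow_le_pow_right (by norm_num) hexp
      _ = 32 ^ T := by
        rw [pow_mul]
        norm_num
      _ ≤ n := hT1

end Pool.Agent.MPfe8e9bV
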