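import Mathlib
import Pool.Agent.Lib.MP_fe8e9b_al_V.Defs
import Pool.Agent.Lib.MP_fe8e9b_al_W.MixQ
import Pool.Agent.Lib.MP_fe8e9b_al_V.Lv
import Pool.Agent.Lib.MP_fe8e9b_al_V.DnA
import Pool.Agent.Lib.MP_fe8e9b_al_V.FrqE
import Pool.Agent.Lib.MP_fe8e9b_al_V.Par

/-!
# MP_fe8e9b_al, wreath products over large sets: the six vectors
-/

set_option autoImplicit false

open scoped BigOperators

namespace Pool.Agent.MPfe8e9bV

open Pool.Agent.MPfe8e9b Pool.Agent.MPfe8e9bA Pool.Agent.MPfe8e9bW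

/-- Six vectors: an equidistributed one, a dense one and two levels. -/
def Good {K X : Type} [Group K] [Fintype K] [Fintype X] (α : K →* Equiv.Perm X) {G : Type}
    [Group G] [Fintype G] (κ₁ : ℝ) (D : ℕ) (Y : Fin 6 → X → G) : Prop :=
  ∃ (q r w : ℕ) (y : Fin q → G) (c : Fin r → G), 0 < q ∧ Mix y (1 / 100) ∧ PG c κ₁ ∧
    Frq y (Y 0) ∧ Dns α y w (Y 1) ∧ ∀ a : ℕ, w < 32 ^ (a + 1) → 32 ^ a ≤ Fintype.card X →
      Lvl α c (1 / ((D : ℝ) * 2 ^ a)) (Y 2) (Y 3) ∨ Lvl α c (1 / ((D : ℝ) * 2 ^ a)) (Y 4) (Y 5)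

/-- Existence of the six vectors.

Proof. `C` from `mix_cost`, `Q = 2 ^ (C * (c + 1))`; a group with `Cost c` has a list of length
`q ≤ Q`, `0 < q`, with `Mix y (1/100)`. For every `q ≤ Q`, `0 < q`, let `r q` be from `hcml`.
`N` is at least `2 * Q`, the `N` of `dense_exists`, of `par Q` and of `level D (r q)` for all
`q ≤ Q` (`Finset.sup` over `Finset.range (Q + 1)`). With `b₁`, `b₂`, `S₁`, `S₂` from `par`,
`n = card X`, `w = 32 ^ b₂`: `frq_exists` (`2 q ≤ 2 Q ≤ n`), `dense_exists`, `level` for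
`(b₁, S₁)` (vectors `Y 2`, `Y 3`) and for `(b₂, S₂)` (vectors `Y 4`, `Y 5`;
`b₂ + S₂ - 1 ≤ b₁ + S₁ - 1`). If `32 ^ b₂ < 32 ^ (a + 1)` and `32 ^ a ≤ n < 32 ^ (b₁ + S₁)`
then `b₂ ≤ a < b₁ + S₁`; for `a < b₁` use the
second level, otherwise the first. -/
theorem vec {κ₁ : ℝ} (hcml : ∀ q : ℕ, 0 < q → ∃ r : ℕ, 0 < r ∧
      ∀ (G : Type) [Group G] [Fintype G], commutator G = ⊤ → ∀ y : Fin q → G,
      Mix y (1 / 100) → ∃ u w : Fin r → G, PG (fun l => cm (u l) (w l)) κ₁)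
    (D : ℕ) (hD : 0 < D) (c : ℕ) : ∃ N : ℕ, ∀ (K X : Type) [Group K] [Fintype K] [Fintype X]
      (α : K →* Equiv.Perm X), (∀ x y : X, ∃ p, α p x = y) → N ≤ Fintype.card X →
      ∀ (G : Type) [Group G] [Fintype G], commutator G = ⊤ → Cost c G →
      ∃ Y : Fin 6 → X → G, Good α κ₁ D Y := by
  classical
  obtain ⟨C, hC⟩ := mix_cost
  have hcml' : ∀ q : ℕ, ∃ r : ℕ, 0 < r ∧ (0 < q → ∀ (G : Type) [Group G] [Fintype G],
      commutator G = ⊤ → ∀ y : Fin q → G, Mix y (1 / 100) →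
      ∃ u w : Fin r → G, PG (fun l => cm (u l) (w l)) κ₁) := by
    intro q
    rcases Nat.eq_zero_or_pos q with hq | hq
    · exact ⟨1, Nat.one_pos, fun h => absurd h (by omega)⟩
    · obtain ⟨r, hr, h⟩ := hcml q hq
      exact ⟨r, hr, fun _ => h⟩
  choose r hr hr2 using hcml'
  have hlev := fun q : ℕ => level D (r q) hD (hr q)
  choose NL hNL using hlev
  obtain ⟨ND, hND⟩ := dense_exists
  obtain ⟨NP, hNP⟩ := par (2 ^ (C * (c + 1)))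
  refine ⟨2 * 2 ^ (C * (c + 1)) + ND + NP +
    (Finset.range (2 ^ (C * (c + 1)) + 1)).sup NL, ?_⟩
  intro K X _ _ _ α htr hN G _ _ hperf hcost
  obtain ⟨b₁, b₂, S₁, S₂, hS₁, hS₂, h10₁, h10₂, hb, h32, h32', hq⟩ :=
    hNP (Fintype.card X) (by omega)
  obtain ⟨q, y, hq0, hqQ, hy⟩ := hC c G hcost
  obtain ⟨u, w, huw⟩ := hr2 q hq0 G hperf y hy
  obtain ⟨Y0, hY0⟩ := frq_exists (X := X) hq0 (by omega) y
  obtain ⟨Y1, hY1⟩ := hND K X α htr q (32 ^ b₂) hq0 (hq q hqQ) (by omega) G y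
  have hNLq : NL q ≤ Fintype.card X := by
    have h1 : NL q ≤ (Finset.range (2 ^ (C * (c + 1)) + 1)).sup NL :=
      Finset.le_sup (Finset.mem_range.2 (by omega))
    omega
  have hD1 : ∀ b : ℕ, 2 ^ b ≤ D * 2 ^ b := fun b => Nat.le_mul_of_pos_left _ hD
  obtain ⟨z₁, z₁', hz₁⟩ := hNL q K X α htr b₁ S₁ hS₁ (h10₁.trans (hD1 b₁)) h32 hNLq G u w
  have h32₂ : 32 ^ (b₂ + S₂ - 1) ≤ Fintype.card X :=
    (Nat.pow_le_pow_right (by norm_num) (by omega)).trans h32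
  obtain ⟨z₂, z₂', hz₂⟩ := hNL q K X α htr b₂ S₂ hS₂ (h10₂.trans (hD1 b₂)) h32₂ hNLq G u w
  refine ⟨![Y0, Y1, z₁, z₁', z₂, z₂'], q, r q, 32 ^ b₂, y, fun l => cm (u l) (w l), hq0, hy,
    huw, hY0, hY1, fun a ha1 ha2 => ?_⟩
  have h1 : b₂ < a + 1 := (Nat.pow_lt_pow_iff_right (by norm_num)).1 ha1
  have h2 : a < b₁ + S₁ := (Nat.pow_lt_pow_iff_right (by norm_num)).1 (ha2.trans_lt h32')
  rcases Nat.lt_or_ge a b₁ with h3 | h3
  · exact Or.inr (hz₂ a (by omega) (by omega))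
  · exact Or.inl (hz₁ a h3 h2)

end Pool.Agent.MPfe8e9bV
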