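import Mathlib
import Pool.Agent.Lib.MP_fe8e9b_al_V.Defs
import Pool.Agent.Lib.MP_fe8e9b_al_V.Fam5
import Pool.Agent.Lib.MP_fe8e9b_al_V.LocR
import Pool.Agent.Lib.MP_fe8e9b_al_V.DnI
import Pool.Agent.Lib.MP_fe8e9b_al_V.Vec

/-!
# MP_fe8e9b_al, wreath products over large sets: the main local inequality
-/

set_option autoImplicit false

open scoped BigOperators

namespace Pool.Agent.MPfe8e9bV

open Pool.Agent.MPfe8e9b Pool.Agent.MPfe8e9bA Pool.Agent.MPfe8e9bW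

/-- The constant. -/
noncomputable def cst (κ₁ : ℝ) (D : ℕ) : ℝ :=
  25 + 4 * 10 ^ 5 / mu κ₁ ^ 4 + 2 ^ 11 * 10 ^ 6 * (D : ℝ) ^ 5 / mu κ₁

/-- The displacement of a commutator. -/
private theorem loc3_cm {M V : Type} [Group M] [NormedAddCommGroup V] [InnerProductSpace ℂ V]
    (ρ : M →* (V ≃ₗᵢ[ℂ] V)) (v : V) (a b : M) :
    ‖ρ (cm a b) v - v‖ ^ 2 ≤ 8 * ‖ρ a v - v‖ ^ 2 + 8 * ‖ρ b v - v‖ ^ 2 := by
  have happ : ∀ (g h : M) (u : V), ρ (g * h) u = ρ g (ρ h u) := fun g h u => by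
    rw [map_mul]
    rfl
  have hab : ρ (a * b) v = ρ (cm a b) (ρ (b * a) v) := by
    have h0 : a * b = cm a b * (b * a) := by
      simp only [cm]
      group
    conv_lhs => rw [h0]
    exact happ _ _ _
  have h1 : ‖ρ (cm a b) v - v‖ ≤ ‖ρ (b * a) v - v‖ + ‖ρ (a * b) v - v‖ := by
    have e : ρ (cm a b) v - v = ρ (cm a b) (v - ρ (b * a) v) + (ρ (a * b) v - v) := by
      rw [map_sub, hab]
      abel
    rw [e]
    refine (norm_add_le _ _).trans ?_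
    rw [LinearIsometryEquiv.norm_map, norm_sub_rev]
  have h2 : ∀ g h : M, ‖ρ (g * h) v - v‖ ≤ ‖ρ h v - v‖ + ‖ρ g v - v‖ := by
    intro g h
    have e : ρ (g * h) v - v = ρ g (ρ h v - v) + (ρ g v - v) := by
      rw [happ, map_sub]
      abel
    rw [e]
    refine (norm_add_le _ _).trans ?_
    rw [LinearIsometryEquiv.norm_map]
  have h3 := h2 a b
  have h4 := h2 b a
  have h5 : ‖ρ (cm a b) v - v‖ ≤ 2 * ‖ρ a v - v‖ + 2 * ‖ρ b v - v‖ := by linarith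
  have h6 : ‖ρ (cm a b) v - v‖ ^ 2 ≤ (2 * ‖ρ a v - v‖ + 2 * ‖ρ b v - v‖) ^ 2 :=
    pow_le_pow_left₀ (norm_nonneg _) h5 2
  nlinarith [sq_nonneg (‖ρ a v - v‖ - ‖ρ b v - v‖)]

/-- The pair bound for the whole group from the pair bound for the subgroup. -/
private theorem loc3_pair {P Z : Type} [Group P] [Fintype P] (β : P →* Equiv.Perm Z)
    (K : Subgroup P) [Fintype K] (U : Finset Z) (b : ℝ)
    (h : ∀ x x' : Z, x ≠ x' →
      mn (fun σ : K => ind (((β.comp K.subtype) σ)⁻¹ x ∈ U ∧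
        ((β.comp K.subtype) σ)⁻¹ x' ∈ U)) ≤ b) (x x' : Z) (hx : x ≠ x') :
    mn (fun g : P => ind ((β g)⁻¹ x ∈ U ∧ (β g)⁻¹ x' ∈ U)) ≤ b := by
  have : Nonempty P := ⟨1⟩
  have : Nonempty K := ⟨1⟩
  set f : P → ℝ := fun g => ind ((β g)⁻¹ x ∈ U ∧ (β g)⁻¹ x' ∈ U) with hf
  have h1 : mn f = mn (fun σ : K => mn (fun g : P => f (g * σ))) := by
    have h2 : ∀ σ : K, mn (fun g : P => f (g * σ)) = mn f := fun σ =>
      mn_equiv (Equiv.mulRight (σ : P)) f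
    rw [show (fun σ : K => mn (fun g : P => f (g * σ))) = fun _ => mn f from funext h2,
      mn_const]
  rw [h1, mn_comm]
  refine mn_le fun g => ?_
  have h3 : ∀ (σ : K) (z : Z), (β (g * σ))⁻¹ z = ((β.comp K.subtype) σ)⁻¹ ((β g)⁻¹ z) := by
    intro σ z
    rw [map_mul, mul_inv_rev]
    rfl
  have h4 := h ((β g)⁻¹ x) ((β g)⁻¹ x') (fun he => hx ((β g)⁻¹.injective he))
  refine le_trans (le_of_eq ?_) h4
  refine congrArg mn (funext fun σ => ?_)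
  rw [hf]
  simp only [h3]

/-- The arithmetic at the end. -/
private theorem loc3_arith {μ D n θ S N : ℝ} {a : ℕ} (hμ : 0 < μ) (hD : 0 < D)
    (hD5 : 2 ^ 23 ≤ μ * D ^ 5) (hθ : θ = 1 / (D * 2 ^ a)) (h1 : (32 : ℝ) ^ a ≤ n)
    (h2 : n ≤ 32 ^ (a + 1)) (hN : 0 < N)
    (h : n * ((θ / 2) ^ 5 / 16 * (μ / 2) - 4 * n * (2 * θ ^ 2) ^ 5) * N ≤ 10 ^ 6 * S) :
    N ≤ 2 ^ 11 * 10 ^ 6 * D ^ 5 / μ * S := by
  have hD5' : (0 : ℝ) < D ^ 5 := by positivity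
  set s : ℝ := n * θ ^ 5 with hs
  have hθ5 : θ ^ 5 = 1 / (D ^ 5 * 32 ^ a) := by
    rw [hθ, div_pow, one_pow, mul_pow, ← pow_mul, mul_comm a 5, pow_mul]
    norm_num
  have h32 : (0 : ℝ) < 32 ^ a := by positivity
  have hs1 : 1 / D ^ 5 ≤ s := by
    rw [hs, hθ5, mul_one_div, div_le_div_iff₀ hD5' (by positivity)]
    nlinarith
  have hs2 : s ≤ 32 / D ^ 5 := by
    rw [hs, hθ5, mul_one_div, div_le_div_iff₀ (by positivity) hD5']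
    rw [pow_succ] at h2
    nlinarith
  have hs3 : 128 * s ≤ μ / 2048 := by
    have h3 : 128 * (32 / D ^ 5) ≤ μ / 2048 := by
      rw [← mul_div_assoc, div_le_div_iff₀ hD5' (by norm_num)]
      linarith
    linarith
  have hs0 : 0 < s := lt_of_lt_of_le (by positivity) hs1
  have h4 : n * ((θ / 2) ^ 5 / 16 * (μ / 2) - 4 * n * (2 * θ ^ 2) ^ 5) =
      s * μ / 1024 - 128 * s ^ 2 := by
    rw [hs]
    ring
  rw [h4] at h
  have h5 : μ / (2048 * D ^ 5) ≤ s * μ / 1024 - 128 * s ^ 2 := by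
    have h6 : s * (μ / 2048) ≤ s * μ / 1024 - 128 * s ^ 2 := by nlinarith
    have h7 : μ / (2048 * D ^ 5) = 1 / D ^ 5 * (μ / 2048) := by
      field_simp
    rw [h7]
    exact (mul_le_mul_of_nonneg_right hs1 (by positivity)).trans h6
  have h8 : μ / (2048 * D ^ 5) * N ≤ 10 ^ 6 * S :=
    (mul_le_mul_of_nonneg_right h5 hN.le).trans h
  have h9 : N = 2048 * D ^ 5 / μ * (μ / (2048 * D ^ 5) * N) := by
    field_simp
  rw [h9]
  refine (mul_le_mul_of_nonneg_left h8 (by positivity)).trans (le_of_eq ?_)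
  ring

/-- The main local inequality.

Proof. Let `v ≠ 0`, `S = ∑ t, mn_g ‖…‖ ^ 2`, and suppose `cst κ₁ D * S < ‖v‖ ^ 2`, `μ = mu κ₁ > 0`.
Let
`A = {x | av (ρ.comp (sgl G i x)) v = 0}`, nonempty; for `x ∉ A` the vector `v` is fixed by all
`ρ (sgl G i x a)` (`av_eq_iff`). Take `q`, `r`, `w`, `y`, `c` from `hY`. If `card A ≤ w` then
`dns_ineq`
gives `‖v‖ ^ 2 ≤ 25 S`, a contradiction. Otherwise let `a = Nat.log 32 (card A)`,
`32 ^ a ≤ card A < 32 ^ (a + 1)`; `hY` gives `Lvl` for `(z, z') = (Y 2, Y 3)` or `(Y 4, Y 5)` with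
`h`
in `Ki α i`, `U`, `l`. Let `Y' = cm z (wrAct α G h z')` (`Y' i x = cm (z i x) (z' i ((α i h)⁻¹
x))`);
`wrAct α G g Y' = cm (wrAct α G g z) (wrAct α G (g * h) z')` and
`‖ρ (cm a b) v - v‖ ^ 2 ≤ 8 ‖ρ a v - v‖ ^ 2 + 8 ‖ρ b v - v‖ ^ 2` give
`mn_g ‖ρ (wrAct α G g Y') v - v‖ ^ 2 ≤ 8 S + 8 S`. The pair bound for `P`:
`mn_{g : P} f g = mn_g mn_σ f (g * σ)` (`σ` in `Ki α i`), `(α i (g * σ))⁻¹ x = (α i σ)⁻¹ ((α i g)⁻¹
x)`,
and the bound of `Lvl` for the points `(α i g)⁻¹ x ≠ (α i g)⁻¹ x'`. `loc_r` for `x ∈ A`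
(`4 S ≤ 4 ‖v‖ ^ 2 / cst ≤ μ ^ 4 / 10 ^ 5 * ‖v‖ ^ 2`). `fam_five` with `Y₀ = Y 0`, `Y'`,
`θ = 1 / (D * 2 ^ a)`, `m = μ / 2`, `δ = S / ‖v‖ ^ 2`: with `s = card A * θ ^ 5`,
`1 / D ^ 5 ≤ s ≤ 32 / D ^ 5` (`(2 ^ a) ^ 5 = 32 ^ a`):
`s * μ / 1024 - 128 * s ^ 2 ≤ 10 ^ 6 * δ` and `128 * s ≤ 4096 / D ^ 5 ≤ μ / 2048` (`hD5`), so
`μ / (2048 * D ^ 5) ≤ 10 ^ 6 * δ`, a contradiction to `δ < 1 / cst`. -/
theorem loc3 {κ₁ : ℝ} (hκ₁ : 0 < κ₁) (hκ₁' : κ₁ ≤ 1) {D : ℕ} (hD : 0 < D)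
    (hD5 : 2 ^ 23 ≤ mu κ₁ * (D : ℝ) ^ 5) {P I : Type} [Group P] [Fintype P] [Finite I]
    {X : I → Type} [∀ i, Fintype (X i)] (α : ∀ i, P →* Equiv.Perm (X i)) (hα : Ind α)
    (G : I → Type) [∀ i, Group (G i)] [∀ i, Fintype (G i)] (i : I)
    (hG : commutator (G i) = ⊤) [Fintype (Ki α i)] (Y : Fin 6 → ∀ i, X i → G i)
    (hY : Good ((α i).comp (Ki α i).subtype) κ₁ D (fun t => Y t i)) {V : Type}
    [NormedAddCommGroup V] [InnerProductSpace ℂ V] [FiniteDimensional ℂ V]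
    (ρ : (∀ i, X i → G i) →* (V ≃ₗᵢ[ℂ] V)) (v : V)
    (hv : ∀ x : X i, av (ρ.comp (sgl G i x)) v = 0 ∨ av (ρ.comp (sgl G i x)) v = v)
    (hx : ∃ x : X i, av (ρ.comp (sgl G i x)) v = 0) :
    ‖v‖ ^ 2 ≤ cst κ₁ D * ∑ t, mn (fun g : P => ‖ρ (wrAct α G g (Y t)) v - v‖ ^ 2) := by
  classical
  have hμ : 0 < mu κ₁ := by
    unfold mu
    positivity
  have hDr : (0 : ℝ) < D := by exact_mod_cast hD
  have : Nonempty P := ⟨1⟩
  set S : ℝ := ∑ t, mn (fun g : P => ‖ρ (wrAct α G g (Y t)) v - v‖ ^ 2) with hS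
  have hSt0 : ∀ t, 0 ≤ mn (fun g : P => ‖ρ (wrAct α G g (Y t)) v - v‖ ^ 2) :=
    fun t => mn_nonneg fun g => sq_nonneg _
  have hSt : ∀ t, mn (fun g : P => ‖ρ (wrAct α G g (Y t)) v - v‖ ^ 2) ≤ S := fun t =>
    Finset.single_le_sum (f := fun t => mn (fun g : P => ‖ρ (wrAct α G g (Y t)) v - v‖ ^ 2))
      (fun t _ => hSt0 t) (Finset.mem_univ t)
  have hS0 : 0 ≤ S := (hSt0 0).trans (hSt 0)
  have hc1 : 0 ≤ 4 * 10 ^ 5 / mu κ₁ ^ 4 := by positivity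
  have hc2 : 0 ≤ 2 ^ 11 * 10 ^ 6 * (D : ℝ) ^ 5 / mu κ₁ := by positivity
  by_contra hcon
  rw [not_le] at hcon
  have hcst : cst κ₁ D * S = 25 * S + 4 * 10 ^ 5 / mu κ₁ ^ 4 * S +
      2 ^ 11 * 10 ^ 6 * (D : ℝ) ^ 5 / mu κ₁ * S := by
    unfold cst
    ring
  have hc1S := mul_nonneg hc1 hS0
  have hc2S := mul_nonneg hc2 hS0
  have hN : 0 < ‖v‖ ^ 2 := by
    refine lt_of_le_of_lt ?_ hcon
    rw [hcst]
    positivity
  obtain ⟨q, r, w, y, c, hq, hy, hc, hF, hDn, hLv⟩ := hY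
  let A : Finset (X i) := Finset.univ.filter fun x => av (ρ.comp (sgl G i x)) v = 0
  have hAmem : ∀ x, x ∈ A ↔ av (ρ.comp (sgl G i x)) v = 0 := fun x => by
    simp [A]
  have hfix : ∀ x, x ∉ A → ∀ a, ρ (sgl G i x a) v = v := by
    intro x hxA a
    rcases hv x with h | h
    · exact absurd ((hAmem x).2 h) hxA
    · exact (av_eq_iff (ρ.comp (sgl G i x))).1 h a
  have hkill : ∀ x ∈ A, av (ρ.comp (sgl G i x)) v = 0 := fun x hxA => (hAmem x).1 hxA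
  have hA : A.Nonempty := by
    obtain ⟨x, hx⟩ := hx
    exact ⟨x, (hAmem x).2 hx⟩
  rcases Nat.lt_or_ge w A.card with hAw | hAw
  swap
  · have h1 := dns_ineq α G i hq y hy w (Y 1) hDn ρ v A hA hAw hfix hkill
    have h2 := hSt 1
    rw [hcst] at hcon
    linarith
  have hA0 : A.card ≠ 0 := by
    have := hA.card_pos
    omega
  obtain ⟨a, ha1, ha2⟩ : ∃ a : ℕ, 32 ^ a ≤ A.card ∧ A.card < 32 ^ (a + 1) :=
    ⟨Nat.log 32 A.card, Nat.pow_log_le_self 32 hA0, Nat.lt_pow_succ_log_self (by norm_num) _⟩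
  have key : ∀ s t : Fin 6, Lvl ((α i).comp (Ki α i).subtype) c (1 / ((D : ℝ) * 2 ^ a)) (Y s i)
      (Y t i) → False := by
    rintro s t ⟨h, U, l, hU1, hU2, hl, hp⟩
    have hθ : (0 : ℝ) ≤ 1 / ((D : ℝ) * 2 ^ a) := by positivity
    let Y' : ∀ j, X j → G j := cm (Y s) (wrAct α G (h : P) (Y t))
    have hY' : mn (fun g : P => ‖ρ (wrAct α G g Y') v - v‖ ^ 2) ≤ 16 * S := by
      have h1 : ∀ g : P, ‖ρ (wrAct α G g Y') v - v‖ ^ 2 ≤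
          8 * ‖ρ (wrAct α G g (Y s)) v - v‖ ^ 2 +
            8 * ‖ρ (wrAct α G (g * h) (Y t)) v - v‖ ^ 2 := by
        intro g
        have h2 : wrAct α G g Y' = cm (wrAct α G g (Y s)) (wrAct α G (g * h) (Y t)) := by
          simp only [Y', cm, map_mul, map_inv]
          rfl
        rw [h2]
        exact loc3_cm ρ v _ _
      refine (mn_mono h1).trans ?_
      rw [mn_add, mn_mul_left, mn_mul_left]
      have h3 : mn (fun g : P => ‖ρ (wrAct α G (g * h) (Y t)) v - v‖ ^ 2) =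
          mn (fun g : P => ‖ρ (wrAct α G g (Y t)) v - v‖ ^ 2) :=
        mn_equiv (Equiv.mulRight (h : P)) (fun g : P => ‖ρ (wrAct α G g (Y t)) v - v‖ ^ 2)
      rw [h3]
      have h4 := hSt s
      have h5 := hSt t
      linarith
    have hp' := loc3_pair (α i) (Ki α i) U (2 * (1 / ((D : ℝ) * 2 ^ a)) ^ 2) hp
    have hSN : S / ‖v‖ ^ 2 * ‖v‖ ^ 2 = S := div_mul_cancel₀ S hN.ne'
    have h4S : 4 * mn (fun g : P => ‖ρ (wrAct α G g (Y 0)) v - v‖ ^ 2) ≤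
        mu κ₁ ^ 4 / 10 ^ 5 * ‖v‖ ^ 2 := by
      have h1 := hSt 0
      have h2 : 4 * 10 ^ 5 / mu κ₁ ^ 4 * S ≤ ‖v‖ ^ 2 := by
        rw [hcst] at hcon
        linarith
      have h3 : mu κ₁ ^ 4 / 10 ^ 5 * (4 * 10 ^ 5 / mu κ₁ ^ 4 * S) = 4 * S := by
        field_simp
      have h4 := mul_le_mul_of_nonneg_left h2 (show 0 ≤ mu κ₁ ^ 4 / 10 ^ 5 by positivity)
      rw [h3] at h4
      linarith
    have h5 := fam_five α hα G i hq y (Y 0) hF c Y' U l hU1 hU2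
      (1 / ((D : ℝ) * 2 ^ a)) hθ hl hp' ρ v A hfix (S / ‖v‖ ^ 2)
      (by rw [hSN]; exact hSt 0) (by rw [hSN]; exact hY') (mu κ₁ / 2)
      (fun x hxA => loc_r hκ₁ hκ₁' α hα G i hG hq hy hc (Y 0) hF ρ v x (hkill x hxA) h4S)
    rw [hSN] at h5
    have h6 := loc3_arith hμ hDr hD5 rfl (n := (A.card : ℝ)) (a := a)
      (by exact_mod_cast ha1) (by exact_mod_cast ha2.le) hN h5
    rw [hcst] at hcon
    linarith
  have hAX : A.card ≤ Fintype.card (X i) := Finset.card_le_univ A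
  rcases hLv a (hAw.trans ha2) (ha1.trans hAX) with h | h
  · exact key 2 3 h
  · exact key 4 5 h

end Pool.Agent.MPfe8e9bV
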