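import Mathlib
import Pool.Agent.Lib.MP_fe8e9b_al_V.Defs
import Pool.Agent.Lib.MP_fe8e9b_al_W.Dec

/-!
# MP_fe8e9b_al, wreath products over large sets: decomposition into parts with definite active coordinates
-/

set_option autoImplicit false

open scoped BigOperators

namespace Pool.Agent.MPfe8e9bV

open Pool.Agent.MPfe8e9b Pool.Agent.MPfe8e9bA Pool.Agent.MPfe8e9bW

/-- An inequality for the vectors which are killed or fixed by every one of the averages (and killed
by at least one) gives the inequality for all vectors with average zero.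

Proof. As `dec` in W/Dec. Let `E s = av (ρ.comp (φ s))`; the `E s` commute with each other and with all
`ρ m`. Induction on the finite set `S`: every `v` with `av ρ v = 0` and `E s v = 0` or `E s v = v` for
all `s ∉ S` satisfies the inequality. `S = ∅`: if some `E s v = 0` this is `h`; otherwise `v` is fixed
by everything (`hgen`), `v = av ρ v = 0`. `insert s S`: `v = a + b`, `a = E s v`, `b = v - E s v`:
`E s a = a`, `E s b = 0`, and for `s' ∉ insert s S`: `E s' a = E s (E s' v)` is `0` or `a`, similarly
`b`; `av ρ a = av ρ (E s v) = 0`, `av ρ b = 0`. So `a` and `b` satisfy the conditions for `S`; and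
`‖v‖ ^ 2 = ‖a‖ ^ 2 + ‖b‖ ^ 2`, `‖ρ m v - v‖ ^ 2 = ‖ρ m a - a‖ ^ 2 + ‖ρ m b - b‖ ^ 2`. -/
theorem dec2 {M : Type} [Group M] [Fintype M] {K : Type} [Finite K] (H : K → Type)
    [∀ s, Group (H s)] [∀ s, Fintype (H s)] (φ : ∀ s, H s →* M)
    (hn : ∀ s (m : M), ∃ e : H s ≃ H s, ∀ h, m * φ s h = φ s (e h) * m)
    (hgen : ∀ Q : Subgroup M, (∀ s h, φ s h ∈ Q) → Q = ⊤)
    {L : Type} [Fintype L] (m : L → M) (C : ℝ) (hC : 0 ≤ C)
    {V : Type} [NormedAddCommGroup V] [InnerProductSpace ℂ V] [FiniteDimensional ℂ V]
    (ρ : M →* (V ≃ₗᵢ[ℂ] V))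
    (h : ∀ v, (∀ s, av (ρ.comp (φ s)) v = 0 ∨ av (ρ.comp (φ s)) v = v) →
      (∃ s, av (ρ.comp (φ s)) v = 0) → ‖v‖ ^ 2 ≤ C * ∑ l, ‖ρ (m l) v - v‖ ^ 2)
    (v : V) (hv : av ρ v = 0) : ‖v‖ ^ 2 ≤ C * ∑ l, ‖ρ (m l) v - v‖ ^ 2 := by
  classical
  have instK : Fintype K := Fintype.ofFinite K
  have key : ∀ (S : Finset K) (v : V), av ρ v = 0 →
      (∀ s, s ∉ S → av (ρ.comp (φ s)) v = 0 ∨ av (ρ.comp (φ s)) v = v) →
      ‖v‖ ^ 2 ≤ C * ∑ l, ‖ρ (m l) v - v‖ ^ 2 := by
    intro S
    induction S using Finset.induction_on with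
    | empty =>
      intro v hv hs'
      by_cases hex : ∃ s, av (ρ.comp (φ s)) v = 0
      · exact h v (fun s => hs' s (Finset.notMem_empty s)) hex
      have hs : ∀ s, av (ρ.comp (φ s)) v = v := fun s =>
        (hs' s (Finset.notMem_empty s)).resolve_left (fun h0 => hex ⟨s, h0⟩)
      have hfix : ∀ s x, ρ (φ s x) v = v := fun s x =>
        (av_eq_iff (ρ.comp (φ s))).1 (hs s) x
      let Q : Subgroup M :=
        { carrier := {g | ρ g v = v}
          mul_mem' := by
            intro a b ha hb
            change ρ (a * b) v = v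
            rw [map_mul]
            change ρ a (ρ b v) = v
            rw [show ρ b v = v from hb]
            exact ha
          one_mem' := by
            change ρ 1 v = v
            rw [map_one]
            rfl
          inv_mem' := by
            intro a ha
            change ρ a⁻¹ v = v
            have h1 : ρ a v = v := ha
            have h2 : ρ a⁻¹ (ρ a v) = v := by
              have h3 : ρ a⁻¹ (ρ a v) = ρ (a⁻¹ * a) v := by
                rw [map_mul]
                rfl
              rw [h3, inv_mul_cancel, map_one]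
              rfl
            rw [h1] at h2
            exact h2 }
      have hQ : Q = ⊤ := hgen Q (fun s x => hfix s x)
      have hall : ∀ g, ρ g v = v := by
        intro g
        have hg : g ∈ Q := by
          rw [hQ]
          exact Subgroup.mem_top g
        exact hg
      have hv0 : v = 0 := by
        rw [← av_of_fix ρ hall]
        exact hv
      have hnn : 0 ≤ C * ∑ l, ‖ρ (m l) v - v‖ ^ 2 :=
        mul_nonneg hC (Finset.sum_nonneg (fun l _ => sq_nonneg _))
      have hz : ‖v‖ ^ 2 = 0 := by
        rw [hv0, norm_zero]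
        norm_num
      rw [hz]
      exact hnn
    | insert s S hsS ih =>
      intro v hv hs
      have hcm : ∀ (g : M) (w : V),
          ρ g (av (ρ.comp (φ s)) w) = av (ρ.comp (φ s)) (ρ g w) :=
        fun g w => dec_comm (φ s) (hn s) ρ g w
      have ha0 : av ρ (av (ρ.comp (φ s)) v) = 0 := by
        have h1 : av ρ (av (ρ.comp (φ s)) v) = av (ρ.comp (φ s)) (av ρ v) := by
          rw [av_apply ρ, av_apply ρ v, map_smul, map_sum]
          congr 1
          exact Finset.sum_congr rfl (fun x _ => hcm x v)
        rw [h1, hv, map_zero]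
      have haE : ∀ t, t ∉ S →
          av (ρ.comp (φ t)) (av (ρ.comp (φ s)) v) = 0 ∨
          av (ρ.comp (φ t)) (av (ρ.comp (φ s)) v) = av (ρ.comp (φ s)) v := by
        intro t ht
        by_cases hts : t = s
        · subst hts
          exact Or.inr (av_idem _ v)
        · have ht' : t ∉ insert s S := by
            rw [Finset.mem_insert, not_or]
            exact ⟨hts, ht⟩
          rcases hs t ht' with h0 | h0
          · left
            rw [dec_comm2 (φ s) (φ t) (hn s) ρ v, h0, map_zero]
          · right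
            rw [dec_comm2 (φ s) (φ t) (hn s) ρ v, h0]
      have hbE : ∀ t, t ∉ S →
          av (ρ.comp (φ t)) (v - av (ρ.comp (φ s)) v) = 0 ∨
          av (ρ.comp (φ t)) (v - av (ρ.comp (φ s)) v) = v - av (ρ.comp (φ s)) v := by
        intro t ht
        by_cases hts : t = s
        · subst hts
          left
          rw [map_sub, av_idem, sub_self]
        · have ht' : t ∉ insert s S := by
            rw [Finset.mem_insert, not_or]
            exact ⟨hts, ht⟩
          rcases hs t ht' with h0 | h0
          · left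
            rw [map_sub, dec_comm2 (φ s) (φ t) (hn s) ρ v, h0, map_zero, sub_zero]
          · right
            rw [map_sub, dec_comm2 (φ s) (φ t) (hn s) ρ v, h0]
      have hb0 : av ρ (v - av (ρ.comp (φ s)) v) = 0 := by
        rw [map_sub, hv, ha0, sub_zero]
      have hA := ih (av (ρ.comp (φ s)) v) ha0 haE
      have hB := ih (v - av (ρ.comp (φ s)) v) hb0 hbE
      have hsum : ∑ l, ‖ρ (m l) v - v‖ ^ 2 =
          ∑ l, ‖ρ (m l) (av (ρ.comp (φ s)) v) - av (ρ.comp (φ s)) v‖ ^ 2 +
          ∑ l, ‖ρ (m l) (v - av (ρ.comp (φ s)) v) - (v - av (ρ.comp (φ s)) v)‖ ^ 2 := by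
        rw [← Finset.sum_add_distrib]
        refine Finset.sum_congr rfl (fun l _ => ?_)
        have h1 : ρ (m l) (av (ρ.comp (φ s)) v) - av (ρ.comp (φ s)) v
            = av (ρ.comp (φ s)) (ρ (m l) v - v) := by
          rw [hcm, map_sub]
        have h2 : ρ (m l) (v - av (ρ.comp (φ s)) v) - (v - av (ρ.comp (φ s)) v)
            = (ρ (m l) v - v) - av (ρ.comp (φ s)) (ρ (m l) v - v) := by
          rw [map_sub (ρ (m l)), hcm, map_sub (av (ρ.comp (φ s)))]
          abel
        rw [h1, h2]
        exact dec_pyth (ρ.comp (φ s)) (ρ (m l) v - v)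
      rw [dec_pyth (ρ.comp (φ s)) v, hsum, mul_add]
      exact add_le_add hA hB
  exact key Finset.univ v hv (fun s hs => absurd (Finset.mem_univ s) hs)

end Pool.Agent.MPfe8e9bV
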