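import Mathlib
import Pool.Agent.Lib.MP_fe8e9b_al_V.Defs
import Pool.Agent.Lib.MP_fe8e9b_al_W.Gapw

/-!
# MP_fe8e9b_al, wreath products over large sets: spectral gap of a semidirect product from several vectors
-/

set_option autoImplicit false

open scoped BigOperators

namespace Pool.Agent.MPfe8e9bV

open Pool.Agent.MPfe8e9b Pool.Agent.MPfe8e9bA Pool.Agent.MPfe8e9bW

/-- The numerical part. -/
private theorem semi2_arith {r C κ a u w d B A : ℝ} (hr : 0 ≤ r) (hC : 0 ≤ C) (hκ : 0 < κ)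
    (hκ1 : κ ≤ 1) (hB : 0 ≤ B) (hrB : 2 * C * B ≤ (8 * r * C + 1) * B) (hA : κ * d ^ 2 ≤ A)
    (hu : u ^ 2 = w ^ 2 + d ^ 2) (hw : w ^ 2 ≤ C * (2 * B + 8 * r * d ^ 2)) {A' : ℝ}
    (ha : κ * a ^ 2 ≤ A') :
    κ / (8 * r * C + 1) * (a ^ 2 + u ^ 2) ≤ B + (A' + A) := by
  have hrC : 0 ≤ r * C := mul_nonneg hr hC
  have h0 : (0 : ℝ) < 8 * r * C + 1 := by nlinarith
  have h2 : u ^ 2 ≤ 2 * C * B + (8 * r * C + 1) * d ^ 2 := by
    rw [hu]
    nlinarith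
  rw [div_mul_eq_mul_div, div_le_iff₀ h0]
  have h3 : κ * u ^ 2 ≤ (B + A) * (8 * r * C + 1) := by
    have h4 : κ * u ^ 2 ≤ 2 * C * B * κ + (8 * r * C + 1) * (κ * d ^ 2) := by
      nlinarith [mul_le_mul_of_nonneg_left h2 hκ.le]
    have h5 : 2 * C * B * κ ≤ 2 * C * B := by
      have : 0 ≤ 2 * C * B := by positivity
      nlinarith
    have h6 : (8 * r * C + 1) * (κ * d ^ 2) ≤ (8 * r * C + 1) * A :=
      mul_le_mul_of_nonneg_left hA h0.le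
    nlinarith
  have h8 : κ * a ^ 2 ≤ A' * (8 * r * C + 1) := by
    have h9 : 0 ≤ A' := le_trans (by positivity) ha
    nlinarith [mul_nonneg h9 hrC]
  nlinarith

/-- Several vectors.

Proof. As `gap_semi` in W/Gapw (generators: `Fin.append`, or `Fin.addCases`, of `inr (s i)` and
`inl (y t)`; with the notation there: `w` fixed by `inr P` with `E w = 0`, so
`mn_g ‖ρ (inl (φ g (y t))) w - w‖ ^ 2 = ‖ρ (inl (y t)) w - w‖ ^ 2` for every `t`, and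
`‖w‖ ^ 2 ≤ C * ∑ t, (b t + 2 d) ^ 2 ≤ 2 C ∑ t, b t ^ 2 + 8 r C d ^ 2`,
`b t = ‖ρ (inl (y t)) u - u‖`, `d = ‖u - w‖`). If `r = 0` then `h` says that `M` has no
representation without invariant vectors, the same computation holds. -/
theorem gap_semi_r {M P : Type} [Group M] [Fintype M] [Group P] [Fintype P]
    (φ : P →* MulAut M) {r : ℕ} (y : Fin r → M) (C : ℝ) (hC : 0 ≤ C)
    (h : ∀ (V : Type) [NormedAddCommGroup V] [InnerProductSpace ℂ V] [FiniteDimensional ℂ V]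
      (ρ : M →* (V ≃ₗᵢ[ℂ] V)) (v : V), av ρ v = 0 →
      ‖v‖ ^ 2 ≤ C * ∑ t, mn (fun g : P => ‖ρ (φ g (y t)) v - v‖ ^ 2))
    {k : ℕ} {κ : ℝ} (hκ : 0 < κ) (hκ1 : κ ≤ 1) (hP : Expd P k κ) :
    FExpd (M ⋊[φ] P) (k + r) (κ / (8 * (r : ℝ) * C + 1)) := by
  classical
  obtain ⟨s, hs⟩ := hP
  refine ⟨Fintype.ofEquiv (M × P) SemidirectProduct.equivProd.symm, ?_⟩
  letI : Fintype (M ⋊[φ] P) := Fintype.ofEquiv (M × P) SemidirectProduct.equivProd.symm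
  refine ⟨Fin.append (fun i => SemidirectProduct.inr (s i))
    (fun t => SemidirectProduct.inl (y t)), ?_⟩
  refine gap_of_rep (fun V _ _ _ ρ v hv => ?_)
  rw [Fin.sum_univ_add]
  simp only [Fin.append_left, Fin.append_right]
  obtain ⟨ρM, hρM⟩ : ∃ r : M →* (V ≃ₗᵢ[ℂ] V), r = ρ.comp SemidirectProduct.inl := ⟨_, rfl⟩
  obtain ⟨ρP, hρP⟩ : ∃ r : P →* (V ≃ₗᵢ[ℂ] V), r = ρ.comp SemidirectProduct.inr := ⟨_, rfl⟩
  have eM : ∀ m x, ρ (SemidirectProduct.inl m) x = ρM m x := by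
    intro m x
    rw [hρM]
    rfl
  have eP : ∀ g x, ρ (SemidirectProduct.inr g) x = ρP g x := by
    intro g x
    rw [hρP]
    rfl
  have cE : ∀ g x, ρP g (av ρM x) = av ρM (ρP g x) := by
    intro g x
    rw [← eP, ← eP, hρM]
    exact gapw_comm ρ g x
  have cF : ∀ x, av ρP (av ρM x) = av ρM (av ρP x) := by
    intro x
    rw [hρM, hρP]
    exact gapw_comm_av ρ x
  have cA : av ρM (av ρP v) = 0 := by
    rw [hρM, hρP, gapw_av_av ρ v]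
    exact hv
  have cy : ∀ t x, ρM (y t) (av ρM x) = av ρM (ρM (y t) x) := by
    intro t x
    rw [rho_av, gapw_av_rho]
  obtain ⟨a, ha⟩ : ∃ a, a = av ρM v := ⟨_, rfl⟩
  obtain ⟨u, hu⟩ : ∃ u, u = v - av ρM v := ⟨_, rfl⟩
  have Fa : av ρP a = 0 := by rw [ha, cF, cA]
  have Eu : av ρM u = 0 := by rw [hu, map_sub, av_idem, sub_self]
  obtain ⟨w, hw⟩ : ∃ w, w = av ρP u := ⟨_, rfl⟩
  have Fuw : av ρP (u - w) = 0 := by rw [map_sub, hw, av_idem, sub_self]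
  have Ew : av ρM w = 0 := by rw [hw, ← cF, Eu, map_zero]
  have fw : ∀ g, ρP g w = w := by
    intro g
    rw [hw]
    exact rho_av ρP g u
  have g1 := gap_rep hs ρP a Fa
  have g2 := gap_rep hs ρP (u - w) Fuw
  have g3 : ∀ i, ‖ρP (s i) (u - w) - (u - w)‖ ^ 2 = ‖ρP (s i) u - u‖ ^ 2 := by
    intro i
    rw [map_sub, fw]
    congr 2
    abel
  simp only [g3] at g2
  have g4 := h V ρM w Ew
  have g5 : ∀ (t : Fin r) (g : P), ‖ρM (φ g (y t)) w - w‖ ^ 2 = ‖ρM (y t) w - w‖ ^ 2 := by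
    intro t g
    have i1 : ρM (φ g (y t)) w = ρP g (ρM (y t) w) := by
      have i2 : (SemidirectProduct.inl (φ g (y t)) : M ⋊[φ] P) =
          SemidirectProduct.inr g * SemidirectProduct.inl (y t) * SemidirectProduct.inr g⁻¹ :=
        SemidirectProduct.inl_aut g (y t)
      have i3 : ρ (SemidirectProduct.inr g * SemidirectProduct.inl (y t) *
          SemidirectProduct.inr g⁻¹) w = ρ (SemidirectProduct.inr g)
          (ρ (SemidirectProduct.inl (y t)) (ρ (SemidirectProduct.inr g⁻¹) w)) := by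
        rw [map_mul, map_mul]
        rfl
      rw [← eM, i2, i3, eP g⁻¹ w, fw, eM, eP]
    have i4 : ρP g (ρM (y t) w) - w = ρP g (ρM (y t) w - w) := by
      rw [map_sub, fw]
    rw [i1, i4, LinearIsometryEquiv.norm_map]
  simp only [g5, mn_const] at g4
  have g6 : ∀ t, ‖ρM (y t) w - w‖ ≤ ‖ρM (y t) u - u‖ + 2 * ‖u - w‖ := by
    intro t
    have i1 : ρM (y t) w - w = (ρM (y t) u - u) - (ρM (y t) (u - w) - (u - w)) := by
      rw [map_sub]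
      abel
    have i2 : ‖ρM (y t) (u - w) - (u - w)‖ ≤ 2 * ‖u - w‖ := by
      refine (norm_sub_le _ _).trans ?_
      rw [LinearIsometryEquiv.norm_map]
      linarith
    rw [i1]
    exact (norm_sub_le _ _).trans (by linarith)
  have g7 : ‖w‖ ^ 2 ≤ C * (2 * ∑ t, ‖ρM (y t) u - u‖ ^ 2 + 8 * (r : ℝ) * ‖u - w‖ ^ 2) := by
    refine g4.trans (mul_le_mul_of_nonneg_left ?_ hC)
    have j1 : ∀ t, ‖ρM (y t) w - w‖ ^ 2 ≤ 2 * ‖ρM (y t) u - u‖ ^ 2 + 8 * ‖u - w‖ ^ 2 := by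
      intro t
      have j2 := pow_le_pow_left₀ (norm_nonneg _) (g6 t) 2
      nlinarith [sq_nonneg (‖ρM (y t) u - u‖ - 2 * ‖u - w‖)]
    refine (Finset.sum_le_sum fun t _ => j1 t).trans (le_of_eq ?_)
    rw [Finset.sum_add_distrib, ← Finset.mul_sum, Finset.sum_const, Finset.card_univ,
      Fintype.card_fin, nsmul_eq_mul]
    ring
  have g8 : ‖u‖ ^ 2 = ‖w‖ ^ 2 + ‖u - w‖ ^ 2 := by
    rw [hw]
    exact gapw_pyth ρP u
  have g9 : ‖v‖ ^ 2 = ‖a‖ ^ 2 + ‖u‖ ^ 2 := by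
    rw [ha, hu]
    exact gapw_pyth ρM v
  have g10 : ∀ i, ‖ρP (s i) v - v‖ ^ 2 = ‖ρP (s i) a - a‖ ^ 2 + ‖ρP (s i) u - u‖ ^ 2 := by
    intro i
    rw [ha, hu]
    exact gapw_pyth_disp ρM (ρP (s i)) (cE (s i)) v
  have g11 : ∀ t, ‖ρM (y t) u - u‖ ^ 2 ≤ ‖ρM (y t) v - v‖ ^ 2 := by
    intro t
    have j1 : ‖ρM (y t) v - v‖ ^ 2 = ‖ρM (y t) a - a‖ ^ 2 + ‖ρM (y t) u - u‖ ^ 2 := by
      rw [ha, hu]
      exact gapw_pyth_disp ρM (ρM (y t)) (cy t) v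
    have j2 : 0 ≤ ‖ρM (y t) a - a‖ ^ 2 := sq_nonneg _
    linarith
  simp only [eM, eP]
  rw [g9]
  have hB : 0 ≤ ∑ t, ‖ρM (y t) u - u‖ ^ 2 := Finset.sum_nonneg fun t _ => sq_nonneg _
  have hrB : 2 * C * ∑ t, ‖ρM (y t) u - u‖ ^ 2 ≤
      (8 * (r : ℝ) * C + 1) * ∑ t, ‖ρM (y t) u - u‖ ^ 2 := by
    rcases Nat.eq_zero_or_pos r with h0 | h0
    · subst h0
      simp
    · refine mul_le_mul_of_nonneg_right ?_ hB
      have h1 : (1 : ℝ) ≤ (r : ℝ) := by exact_mod_cast h0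
      nlinarith
  refine (semi2_arith (Nat.cast_nonneg r) hC hκ hκ1 hB hrB g2 g8 g7 g1).trans ?_
  rw [← Finset.sum_add_distrib]
  have g12 : ∑ i, (‖ρP (s i) a - a‖ ^ 2 + ‖ρP (s i) u - u‖ ^ 2) =
      ∑ i, ‖ρP (s i) v - v‖ ^ 2 := Finset.sum_congr rfl (fun i _ => (g10 i).symm)
  rw [g12, add_comm]
  exact add_le_add_right (Finset.sum_le_sum fun t _ => g11 t) _

end Pool.Agent.MPfe8e9bV
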