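import Mathlib
import Pool.Agent.Lib.MP_fe8e9b_al_V.Defs
import Pool.Agent.Lib.MP_fe8e9b_al_V.CmlA
import Pool.Agent.Lib.MP_fe8e9b_al_V.CmlB

/-!
# MP_fe8e9b_al, wreath products over sets of large degree: lists of commutators with a phase gap
-/

set_option autoImplicit false

open scoped BigOperators

namespace Pool.Agent.MPfe8e9bV

open Pool.Agent.MPfe8e9b Pool.Agent.MPfe8e9bA Pool.Agent.MPfe8e9bW

/-- Lists of commutators with an absolute phase gap, of bounded length.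

Proof. `cml_avg`, `pg_of_avg`; `r = card ((Fin q → ZMod 8192) × Fin q)`, reindex with
`Fintype.equivFin` (`mn_equiv`). -/
theorem cml : ∃ κ : ℝ, 0 < κ ∧ κ ≤ 1 ∧ ∀ q : ℕ, 0 < q → ∃ r : ℕ, 0 < r ∧
    ∀ (G : Type) [Group G] [Fintype G], commutator G = ⊤ → ∀ y : Fin q → G, Mix y (1 / 100) →
      ∃ u w : Fin r → G, PG (fun l => cm (u l) (w l)) κ := by
  obtain ⟨κ, h0, h1, h⟩ := pg_of_avg
  refine ⟨κ, h0, h1, fun q hq => ?_⟩
  have hne : Nonempty ((Fin q → ZMod 8192) × Fin q) := ⟨(0, ⟨0, hq⟩)⟩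
  refine ⟨Fintype.card ((Fin q → ZMod 8192) × Fin q), Fintype.card_pos, ?_⟩
  intro G _ _ hG y hy
  obtain ⟨u, w, huw⟩ := cml_avg hG hq y hy
  have hPG := h G hG ((Fin q → ZMod 8192) × Fin q) (fun p => cm (u p) (w p)) huw
  let e := Fintype.equivFin ((Fin q → ZMod 8192) × Fin q)
  refine ⟨fun l => u (e.symm l), fun l => w (e.symm l), ?_⟩
  intro V _ _ _ ρ z hz v hv
  have h2 := hPG V ρ (fun p => z (e p)) (fun p => hz (e p)) v hv
  refine h2.trans (le_of_eq ?_)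
  rw [← mn_equiv e.symm]
  congr 1
  funext l
  rw [Equiv.apply_symm_apply]

end Pool.Agent.MPfe8e9bV
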