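import Mathlib
import Pool.Agent.Lib.MP_fe8e9b_al_V.Defs
import Pool.Agent.Lib.MP_fe8e9b_al_V.Cml
import Pool.Agent.Lib.MP_fe8e9b_al_V.Vec
import Pool.Agent.Lib.MP_fe8e9b_al_V.Loc3
import Pool.Agent.Lib.MP_fe8e9b_al_V.Dec2
import Pool.Agent.Lib.MP_fe8e9b_al_V.Semi2
import Pool.Agent.Lib.MP_fe8e9b_al_W.ExpPi
import Pool.Agent.Lib.MP_fe8e9b_al_W.Dec

/-!
# MP_fe8e9b_al, wreath products over large sets: the reset lemma
-/

set_option autoImplicit false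

open scoped BigOperators

namespace Pool.Agent.MPfe8e9bV

open Pool.Agent.MPfe8e9b Pool.Agent.MPfe8e9bA Pool.Agent.MPfe8e9bW

theorem rst2_mu_pos {κ : ℝ} (hκ : 0 < κ) : 0 < mu κ := by
  unfold mu
  positivity

/-- The number `D`. -/
theorem rst2_exists_D {m : ℝ} (hm : 0 < m) : ∃ D : ℕ, 0 < D ∧ 2 ^ 23 ≤ m * (D : ℝ) ^ 5 := by
  obtain ⟨n, hn⟩ := exists_nat_ge (2 ^ 23 / m)
  refine ⟨n + 1, Nat.succ_pos n, ?_⟩
  rw [div_le_iff₀ hm] at hn
  have h0 : (0 : ℝ) ≤ n := Nat.cast_nonneg n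
  have h1 : (1 : ℝ) ≤ ((n + 1 : ℕ) : ℝ) := by
    push_cast
    linarith
  have h2 : ((n + 1 : ℕ) : ℝ) ≤ ((n + 1 : ℕ) : ℝ) ^ 5 := by
    calc ((n + 1 : ℕ) : ℝ) = ((n + 1 : ℕ) : ℝ) ^ 1 := (pow_one _).symm
      _ ≤ ((n + 1 : ℕ) : ℝ) ^ 5 := pow_le_pow_right₀ h1 (by norm_num)
  have h3 : (n : ℝ) ≤ ((n + 1 : ℕ) : ℝ) := by
    push_cast
    linarith
  calc (2 : ℝ) ^ 23 ≤ n * m := hn
    _ = m * n := mul_comm _ _
    _ ≤ m * ((n + 1 : ℕ) : ℝ) ^ 5 := mul_le_mul_of_nonneg_left (h3.trans h2) hm.le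

theorem rst2_cst_nonneg {κ : ℝ} (hκ : 0 < κ) (D : ℕ) : 0 ≤ cst κ D := by
  have h := rst2_mu_pos hκ
  unfold cst
  positivity

/-- The reset lemma: the cost of the wreath product exceeds the cost of `P` by at most an absolute
constant, whatever the cost of the groups `G i`, if the sets `X i` are large.

Proof. `κ₁` from `cml`; `D ≥ 1` with `2 ^ 23 ≤ mu κ₁ * D ^ 5`; `C = cst κ₁ D`; `C₀` with
`7 * (48 * C + 1) ≤ 2 ^ C₀`; `N` from `vec` for `c`. The groups `G i` are finite (`Cost`), and so is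
`P`. For every `i`, `vec` for the group `Ki α i` with the action `(α i).comp (Ki α i).subtype`
(transitive by `Ind`) gives `Y t i`. For a representation `ρ` of `∀ i, X i → G i` and `v` with average
zero, `dec2` with `K = Σ i, X i`, `φ s = sgl G s.1 s.2` (`sgl_normal`, `sgl_gen`), `L = Fin 6 × P`,
constant `C * (card P)⁻¹` and `loc3` give `‖v‖ ^ 2 ≤ C * ∑ t, mn_g ‖ρ (wrAct α G g (Y t)) v - v‖ ^ 2`.
`gap_semi_r` with `r = 6`: `FExpd (Wr α G) (k + 6) (κ / (48 * C + 1))`, where `FExpd P k κ`,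
`k + 1 ≤ κ 2 ^ c'`; `k + 6 + 1 ≤ 7 (k + 1) ≤ 7 κ 2 ^ c' ≤ κ / (48 C + 1) * 2 ^ (c' + C₀)`. -/
theorem reset2 : ∃ C₀ : ℕ, ∀ c : ℕ, ∃ N : ℕ, ∀ (c' : ℕ) (P I : Type) [Group P] [Finite I]
    (X : I → Type) [∀ i, Finite (X i)] (α : ∀ i, P →* Equiv.Perm (X i)), Ind α →
    ∀ (G : I → Type) [∀ i, Group (G i)], (∀ i, commutator (G i) = ⊤) → (∀ i, Cost c (G i)) →
    Cost c' P → (∀ i, N ≤ Nat.card (X i)) → Cost (c' + C₀) (Wr α G) := by
  classical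
  obtain ⟨κ₁, hκ₁, hκ₁', hcml⟩ := cml
  obtain ⟨D, hD, hD5⟩ := rst2_exists_D (rst2_mu_pos hκ₁)
  obtain ⟨C, hC⟩ : ∃ C, C = cst κ₁ D := ⟨_, rfl⟩
  have hC0 : 0 ≤ C := hC ▸ rst2_cst_nonneg hκ₁ D
  obtain ⟨C₀, hC₀⟩ := pow_unbounded_of_one_lt (7 * (48 * C + 1)) one_lt_two
  refine ⟨C₀, fun c => ?_⟩
  obtain ⟨N, hN⟩ := vec hcml D hD c
  refine ⟨N, ?_⟩
  intro c' P I _ _ X _ α hα G _ hG hcost hP hX
  obtain ⟨k, κ, hκ, hκ1, hkc, instP, hPe⟩ := hP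
  have : Fintype I := Fintype.ofFinite I
  have : ∀ i, Fintype (X i) := fun i => Fintype.ofFinite _
  have hGf : ∀ i, Nonempty (Fintype (G i)) := by
    intro i
    obtain ⟨_, _, _, _, _, inst, _⟩ := hcost i
    exact ⟨inst⟩
  have : ∀ i, Fintype (G i) := fun i => (hGf i).some
  have : ∀ i, Fintype (Ki α i) := fun i => Fintype.ofFinite _
  have hY : ∀ i, ∃ Y : Fin 6 → X i → G i, Good ((α i).comp (Ki α i).subtype) κ₁ D Y := by
    intro i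
    refine hN (Ki α i) (X i) _ ?_ ?_ (G i) (hG i) (hcost i)
    · intro x y
      obtain ⟨p, hp, hpx⟩ := hα i x y
      exact ⟨⟨p, hp⟩, hpx⟩
    · rw [← Nat.card_eq_fintype_card]
      exact hX i
  choose Y hY using hY
  have hgap := gap_semi_r (wrAct α G) (fun (t : Fin 6) i => Y i t) C hC0 ?_ hκ hκ1 hPe
  · refine ⟨k + 6, _, ?_, ?_, ?_, hgap⟩
    · positivity
    · refine (div_le_self hκ.le ?_).trans hκ1
      have : 0 ≤ 8 * ((6 : ℕ) : ℝ) * C := by positivity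
      linarith
    · have h1 : 8 * ((6 : ℕ) : ℝ) * C + 1 = 48 * C + 1 := by
        push_cast
        ring
      have h2 : (0 : ℝ) < 48 * C + 1 := by positivity
      have h3 : (0 : ℝ) ≤ k := Nat.cast_nonneg k
      have h4 : 0 ≤ κ * 2 ^ c' := by positivity
      rw [h1, div_mul_eq_mul_div, le_div_iff₀ h2, pow_add]
      push_cast
      calc ((k : ℝ) + 6 + 1) * (48 * C + 1) ≤ (7 * (k + 1)) * (48 * C + 1) := by
            refine mul_le_mul_of_nonneg_right ?_ h2.le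
            linarith
        _ = (k + 1) * (7 * (48 * C + 1)) := by ring
        _ ≤ (κ * 2 ^ c') * 2 ^ C₀ :=
            mul_le_mul hkc hC₀.le (by positivity) h4
        _ = κ * (2 ^ c' * 2 ^ C₀) := by ring
  · intro V _ _ _ ρ v hv
    have key := dec2 (K := Σ i, X i) (fun s => G s.1) (fun s => sgl G s.1 s.2)
      (fun s m => sgl_normal G s.1 s.2 m) (fun Q hQ => sgl_gen G Q (fun i x a => hQ ⟨i, x⟩ a))
      (L := Fin 6 × P) (fun l => wrAct α G l.2 (fun i => Y i l.1))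
      (C * ((Fintype.card P : ℝ))⁻¹) (by positivity) ρ ?_ v hv
    · rw [Fintype.sum_prod_type, mul_assoc, Finset.mul_sum] at key
      exact key
    · intro u hu hu0
      obtain ⟨⟨i, x⟩, hx⟩ := hu0
      have hloc := loc3 hκ₁ hκ₁' hD hD5 α hα G i (hG i) (fun t i => Y i t) (hY i) ρ u
        (fun x => hu ⟨i, x⟩) ⟨x, hx⟩
      rw [← hC] at hloc
      rw [Fintype.sum_prod_type, mul_assoc, Finset.mul_sum]
      exact hloc

end Pool.Agent.MPfe8e9bV
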