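import Mathlib
import Pool.Agent.Lib.MP_fe8e9b_al_V.Defs
import Pool.Agent.Lib.MP_fe8e9b_al.Vert
import Pool.Agent.Lib.MP_fe8e9b_al_W.Cheeg
import Pool.Agent.Lib.MP_fe8e9b_al_W.Perf
import Pool.Agent.Lib.MP_fe8e9b_al_V.Rst2

/-!
# MP_fe8e9b_al, wreath products over large sets: class and main theorem
-/

set_option autoImplicit false

open scoped BigOperators

namespace Pool.Agent.MPfe8e9bV

open Pool.Agent.MPfe8e9b Pool.Agent.MPfe8e9bA Pool.Agent.MPfe8e9bW

open scoped Pointwise

/-- The smallest class of groups, closed under isomorphism, which contains the perfect groups with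
vertex expansion `ε` for `k` elements and the wreath products `(∏ i, G i ^ (X i)) ⋊ P` of groups
`G i` of the class with perfect groups `P` with vertex expansion `ε` for `k` elements, where `P` acts
on sets `X i` with at least `N` elements and, for every `i`, the elements which act trivially on all
`X j`, `j ≠ i`, are transitive on `X i`. -/
inductive LargeClass (k N : ℕ) (ε : ℝ) : (G : Type) → Group G → Prop
  | base (G : Type) (inst : Group G) (hp : commutator G = ⊤) (hG : VExp k ε G) :
      LargeClass k N ε G inst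
  | step (P : Type) (instP : Group P) (hp : commutator P = ⊤) (hP : VExp k ε P) (I : Type)
      (hI : Finite I) (X : I → Type) (hX : ∀ i, Finite (X i)) (hN : ∀ i, N ≤ Nat.card (X i))
      (α : ∀ i, P →* Equiv.Perm (X i))
      (hα : ∀ i, ∀ x y : X i, ∃ p : P, (∀ j, j ≠ i → α j p = 1) ∧ α i p x = y)
      (G : I → Type) (instG : ∀ i, Group (G i)) (hG : ∀ i, LargeClass k N ε (G i) (instG i)) :
      LargeClass k N ε (Wr α G) inferInstance
  | iso (G H : Type) (instG : Group G) (instH : Group H) (e : G ≃* H)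
      (hG : LargeClass k N ε G instG) : LargeClass k N ε H instH

/-- Every group of the class is perfect and has cost at most `c₀ + C₀`. -/
theorem main2_cost (k : ℕ) {ε : ℝ} (hε : 0 < ε) : ∃ N c : ℕ,
    ∀ (G : Type) (inst : Group G), LargeClass k N ε G inst →
      commutator G = ⊤ ∧ Cost c G := by
  obtain ⟨c₀, h₀⟩ := exists_cost k (κ := ε ^ 2 / (4 * ((k : ℝ) + 1))) (by positivity)
  obtain ⟨C₀, hC⟩ := reset2
  obtain ⟨N, hN⟩ := hC (c₀ + C₀)
  refine ⟨N, c₀ + C₀, fun G inst hG => ?_⟩
  induction hG with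
  | base G inst hp hG =>
    exact ⟨hp, (h₀ G (vexp_fexpd hε hG)).mono (Nat.le_add_right _ _)⟩
  | step P instP hp hP I hI X hX hNX α hα G instG _ ih =>
    exact ⟨wr_perfect α G hp fun i => (ih i).1,
      hN c₀ P I X α hα G (fun i => (ih i).1) (fun i => (ih i).2) (h₀ P (vexp_fexpd hε hP)) hNX⟩
  | iso G H instG instH e _ ih => exact ⟨perfect_iso e ih.1, ih.2.iso e⟩

/-- The main theorem.

Proof. `κ = ε ^ 2 / (4 (k + 1))` (`vexp_fexpd`), `c₀` from `exists_cost k`, `C₀` from `reset2`,
`c₁ = c₀ + C₀`, `N` from `reset2` for `c₁`. Every group of the class is perfect (`wr_perfect`,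
`perfect_iso`) and has `Cost c₁`: induction on the derivation (`Cost.mono`, `reset2` with `c = c₁`,
`c' = c₀`, `Cost.iso`). Then `Cost.fexpd`, `expd_vertex` as in `wreath_main` of W/Main. -/
theorem large_main (k : ℕ) {ε : ℝ} (hε : 0 < ε) :
    ∃ (N k' : ℕ) (ε' : ℝ), 0 < ε' ∧
      ∀ (G : Type) [inst : Group G] [Fintype G] [DecidableEq G],
      LargeClass k N ε G inst →
      ∃ S : Finset G, S.card ≤ k' ∧ Subgroup.closure (S : Set G) = ⊤ ∧
        ∀ A : Finset G, 2 * A.card ≤ Fintype.card G →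
          (1 + ε') * (A.card : ℝ) ≤ ((A ∪ S * A).card : ℝ) := by
  obtain ⟨N, c, hc⟩ := main2_cost k hε
  refine ⟨N, 2 ^ c, (1 / 2 ^ c) / (4 * (((2 ^ c : ℕ) : ℝ) + 1)), by positivity, ?_⟩
  intro G inst _ _ hG
  have h2 : FExpd G (2 ^ c) (1 / 2 ^ c) := (hc G inst hG).2.fexpd
  exact expd_vertex (by positivity) h2.expd

end Pool.Agent.MPfe8e9bV
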